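import Pool.Agent.Lib.MP_c499db_an.Poin

open MeasureTheory Set Filter Topology
open scoped ENNReal ContDiff

namespace OptSet

variable {d : ℕ}

/-- `H¹` is closed under weak limits -/
lemma IsH1.weak_limit {ι : Type*} {l : Filter ι} [l.NeBot] {w : ι → V d → ℝ}
    {h : ι → Fin d → V d → ℝ} (hw : ∀ n, IsH1 (w n) (h n)) {u : V d → ℝ} {g : Fin d → V d → ℝ}
    (hu : MemLp u 2 volume) (hg : ∀ i, MemLp (g i) 2 volume)
    (h1 : ∀ v : V d → ℝ, MemLp v 2 volume →
      Tendsto (fun n => ∫ x, w n x * v x) l (𝓝 (∫ x, u x * v x)))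
    (h2 : ∀ i, ∀ v : V d → ℝ, MemLp v 2 volume →
      Tendsto (fun n => ∫ x, h n i x * v x) l (𝓝 (∫ x, g i x * v x))) : IsH1 u g where
  memLp := hu
  memLp_grad := hg
  weak φ hφ hc i := by
    have a1 := h1 _ (memLp_test (contDiff_pd hφ i) (hasCompactSupport_pd hc i))
    have a2 := (h2 i _ (memLp_test hφ hc)).neg
    refine tendsto_nhds_unique a1 (a2.congr (fun n => ?_))
    exact ((hw n).weak φ hφ hc i).symm

lemma IsH1.sum_range {w : ℕ → V d → ℝ}
    {h : ℕ → Fin d → V d → ℝ} (hw : ∀ n, IsH1 (w n) (h n)) (N : ℕ) :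
    IsH1 (fun x => ∑ n ∈ Finset.range N, w n x) (fun i x => ∑ n ∈ Finset.range N, h n i x) := by
  induction N with
  | zero => simpa using IsH1.zero
  | succ N ih =>
    simp only [Finset.sum_range_succ]
    exact ih.add (hw N)

lemma series_aux {w : ℕ → V d → ℝ} (hw : ∀ n, MemLp (w n) 2 volume) {c : ℕ → ℝ}
    (hc0 : ∀ n, 0 ≤ c n) (hc : Summable c) (hle : ∀ n, ∫ x, w n x ^ 2 ≤ c n ^ 2) :
    ∃ S : V d → ℝ, MemLp S 2 volume ∧ (∀ᵐ x, HasSum (fun n => w n x) (S x)) ∧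
      ∫ x, S x ^ 2 ≤ (∑' n, c n) ^ 2 ∧
      ∀ v : V d → ℝ, MemLp v 2 volume →
        Tendsto (fun N => ∫ x, (∑ n ∈ Finset.range N, w n x) * v x) atTop (𝓝 (∫ x, S x * v x)) := by
  set W : ℕ → Lp ℝ 2 (volume : Measure (V d)) := fun n => (hw n).toLp (w n) with hW
  have hn : ∀ n, ‖W n‖ ≤ c n := by
    intro n
    have h1 := norm_toLp_sq' (hw n)
    have h2 := hle n
    rw [← h1] at h2
    exact le_of_sq_le_sq h2 (hc0 n) |>.trans_eq rfl
  have hsn : Summable (fun n => ‖W n‖) := Summable.of_nonneg_of_le (fun _ => norm_nonneg _) hn hc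
  have hs : Summable W := hsn.of_norm
  have hne : ∑' n, ‖W n‖ₑ ≠ ⊤ := by
    rw [tsum_enorm_ne_top_iff_summable_norm]; exact hsn
  have hae := Lp.hasSum_coeFn_tsum hne
  set S := ∑' n, W n with hS
  refine ⟨S, Lp.memLp S, ?_, ?_, ?_⟩
  · have h1 : ∀ᵐ x, ∀ n, W n x = w n x := ae_all_iff.2 (fun n => (hw n).coeFn_toLp)
    filter_upwards [hae, h1] with x hx hx1
    simpa only [hx1] using hx
  · have h1 := norm_toLp_sq' (Lp.memLp S)
    rw [Lp.toLp_coeFn] at h1
    rw [← h1]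
    refine pow_le_pow_left₀ (norm_nonneg _) ?_ 2
    exact (norm_tsum_le_tsum_norm hsn).trans (hsn.tsum_le_tsum hn hc)
  · intro v hv
    have t1 : Tendsto (fun N => inner ℝ (∑ n ∈ Finset.range N, W n) (hv.toLp v)) atTop
        (𝓝 (inner ℝ S (hv.toLp v))) :=
      (hs.tendsto_sum_tsum_nat).inner tendsto_const_nhds
    have e1 : inner ℝ S (hv.toLp v) = ∫ x, S x * v x := by
      have := inner_toLp (Lp.memLp S) hv
      rw [Lp.toLp_coeFn] at this
      exact this
    rw [e1] at t1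
    refine t1.congr (fun N => ?_)
    rw [sum_inner]
    simp only [hW, inner_toLp (hw _) hv]
    rw [← integral_finsetSum]
    · congr 1; ext x; rw [Finset.sum_mul]
    · intro n _; exact (hw n).integrable_mul hv

/-- convergent series in `H¹` -/
lemma IsH1.series {w : ℕ → V d → ℝ}
    {h : ℕ → Fin d → V d → ℝ} (hw : ∀ n, IsH1 (w n) (h n)) {c : ℕ → ℝ}
    (hc0 : ∀ n, 0 ≤ c n) (hc : Summable c) (hle : ∀ n, ∫ x, w n x ^ 2 ≤ c n ^ 2)
    (hle' : ∀ n i, ∫ x, h n i x ^ 2 ≤ c n ^ 2) :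
    ∃ S G, IsH1 S G ∧ (∀ᵐ x, HasSum (fun n => w n x) (S x)) ∧
      mass S + dir G ≤ (d + 1) * (∑' n, c n) ^ 2 := by
  obtain ⟨S, hS, hS1, hS2, hS3⟩ := series_aux (fun n => (hw n).memLp) hc0 hc hle
  choose G hG hG1 hG2 hG3 using fun i => series_aux (fun n => (hw n).memLp_grad i) hc0 hc
    (fun n => hle' n i)
  refine ⟨S, G, IsH1.weak_limit (l := atTop) (IsH1.sum_range hw) hS hG hS3 (fun i v hv => hG3 i v hv),
    hS1, ?_⟩
  have e : dir G = ∑ i, ∫ x, G i x ^ 2 :=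
    integral_finsetSum _ (fun i _ => (hG i).integrable_sq)
  rw [e]
  have : ∑ i, ∫ x, G i x ^ 2 ≤ ∑ _i : Fin d, (∑' n, c n) ^ 2 := Finset.sum_le_sum (fun i _ => hG2 i)
  simp only [Finset.sum_const, Finset.card_univ, Fintype.card_fin, nsmul_eq_mul] at this
  have h3 : mass S ≤ (∑' n, c n) ^ 2 := hS2
  linarith

/-- a smooth function which is in `L²` together with its classical derivatives is in `H¹`. -/
lemma isH1_of_smooth {w : V d → ℝ} (hws : ContDiff ℝ ∞ w) (hw : MemLp w 2 volume)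
    (hw' : ∀ i, MemLp (pd i w) 2 volume) : IsH1 w (fun i => pd i w) where
  memLp := hw
  memLp_grad := hw'
  weak φ hφ hc i := by
    have m1 := memLp_test (contDiff_pd hφ i) (hasCompactSupport_pd hc i)
    have m2 := memLp_test hφ hc
    exact integral_mul_fderiv_eq_neg_fderiv_mul_of_integrable (v := Pi.single i 1)
      ((hw' i).integrable_mul m2) (hw.integrable_mul m1) (hw.integrable_mul m2)
      (fun x _ => (hws.differentiable (by simp)) x) (fun x _ => (hφ.differentiable (by simp)) x)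

lemma cap_mono {E E' : Set (V d)} (h : E ⊆ E') : cap E ≤ cap E' := by
  unfold cap
  refine le_iInf₂ (fun u g => le_iInf₂ (fun hu hU => ?_))
  obtain ⟨U, h1, h2, h3⟩ := hU
  exact iInf₂_le_of_le u g (iInf₂_le_of_le hu ⟨U, h1, h.trans h2, h3⟩ le_rfl)

lemma cap_le {E : Set (V d)} {u : V d → ℝ} {g : Fin d → V d → ℝ} (hu : IsH1 u g)
    {U : Set (V d)} (hU : IsOpen U) (hE : E ⊆ U) (h : ∀ᵐ x, x ∈ U → 1 ≤ u x) :
    cap E ≤ ENNReal.ofReal (mass u + dir g) :=
  iInf₂_le_of_le u g (iInf₂_le_of_le hu ⟨U, hU, hE, h⟩ le_rfl)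

lemma cap_empty : cap (∅ : Set (V d)) = 0 := by
  have := cap_le (E := (∅ : Set (V d))) IsH1.zero isOpen_empty (empty_subset _) (by simp)
  simpa [mass, dir] using this

lemma volume_le_cap (E : Set (V d)) : volume E ≤ cap E := by
  unfold cap
  refine le_iInf₂ (fun u g => le_iInf₂ (fun hu hU => ?_))
  obtain ⟨U, h1, h2, h3⟩ := hU
  calc volume E ≤ volume U := measure_mono h2
    _ = ∫⁻ x in U, 1 := by simp
    _ ≤ ∫⁻ x in U, ENNReal.ofReal (u x ^ 2) := by
        apply lintegral_mono_ae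
        rw [← ae_restrict_iff' h1.measurableSet] at h3
        filter_upwards [h3] with x hx
        rw [← ENNReal.ofReal_one]
        apply ENNReal.ofReal_le_ofReal
        nlinarith
    _ ≤ ∫⁻ x, ENNReal.ofReal (u x ^ 2) := lintegral_mono' Measure.restrict_le_self le_rfl
    _ = ENNReal.ofReal (mass u) := by
        rw [mass, ofReal_integral_eq_lintegral_ofReal hu.memLp.integrable_sq
          (Eventually.of_forall (fun _ => sq_nonneg _))]
    _ ≤ ENNReal.ofReal (mass u + dir g) :=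
        ENNReal.ofReal_le_ofReal (by linarith [dir_nonneg g])


/-- a smooth bounded function comparable with the indicator of `|s| > 1` -/
noncomputable def Th (s : ℝ) : ℝ := 2 * s ^ 2 / (1 + s ^ 2)

lemma Th_nonneg (s : ℝ) : 0 ≤ Th s := by unfold Th; positivity

lemma Th_ge {s : ℝ} (h : 1 < |s|) : 1 ≤ Th s := by
  unfold Th
  rw [le_div_iff₀ (by positivity)]
  have : 1 < s ^ 2 := by
    rw [← sq_abs]; nlinarith
  linarith

lemma Th_le (s : ℝ) : |Th s| ≤ |s| := by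
  rw [abs_of_nonneg (Th_nonneg s)]
  unfold Th
  rw [div_le_iff₀ (by positivity)]
  rw [← sq_abs]
  nlinarith [abs_nonneg s, sq_nonneg (|s| - 1), mul_nonneg (abs_nonneg s) (sq_nonneg (|s| - 1))]

lemma Th_hasDerivAt (s : ℝ) : HasDerivAt Th (4 * s / (1 + s ^ 2) ^ 2) s := by
  have h1 : HasDerivAt (fun s : ℝ => 2 * s ^ 2) (2 * (2 * s)) s := by
    have := (hasDerivAt_pow 2 s).const_mul 2
    simpa using this
  have h2 : HasDerivAt (fun s : ℝ => 1 + s ^ 2) (2 * s) s := by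
    have := (hasDerivAt_pow 2 s).const_add 1
    simpa using this
  have h3 := h1.div h2 (by positivity)
  have e : 4 * s / (1 + s ^ 2) ^ 2 =
    (2 * (2 * s) * (1 + s ^ 2) - 2 * s ^ 2 * (2 * s)) / (1 + s ^ 2) ^ 2 := by
    congr 1; ring
  rw [e]
  exact h3

lemma Th_contDiff : ContDiff ℝ ∞ Th := by
  unfold Th
  apply ContDiff.div (by fun_prop) (by fun_prop)
  intro x; positivity

lemma Th'_le (s : ℝ) : |4 * s / (1 + s ^ 2) ^ 2| ≤ 2 := by
  rw [abs_div, abs_of_pos (show (0:ℝ) < (1 + s ^ 2) ^ 2 by positivity), div_le_iff₀ (by positivity),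
    abs_mul]
  have h1 : |s| ^ 2 = s ^ 2 := sq_abs s
  norm_num
  nlinarith [abs_nonneg s, sq_nonneg (|s| - 1), sq_nonneg (s ^ 2)]

lemma pd_Th {s : V d → ℝ} (hs : ContDiff ℝ ∞ s) (i : Fin d) (x : V d) :
    |pd i (fun x => Th (s x)) x| ≤ 2 * |pd i s x| := by
  have h1 : HasFDerivAt s (fderiv ℝ s x) x := ((hs.differentiable (by simp)) x).hasFDerivAt
  have h2 := (Th_hasDerivAt (s x)).comp_hasFDerivAt x h1
  have : (fun x => Th (s x)) = Th ∘ s := rfl
  unfold pd
  rw [this, h2.fderiv]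
  simp only [smul_apply, smul_eq_mul, abs_mul]
  exact mul_le_mul_of_nonneg_right (Th'_le _) (abs_nonneg _)

lemma memLp_of_abs_le {f h : V d → ℝ} {C : ℝ} (hh : MemLp h 2 volume) (hf : Continuous f)
    (hle : ∀ x, |f x| ≤ C * |h x|) : MemLp f 2 volume :=
  hh.of_le_mul (c := C) hf.aestronglyMeasurable (Eventually.of_forall (fun x => by simpa using hle x))

lemma sq_integral_le {f h : V d → ℝ} {C : ℝ} (hh : MemLp h 2 volume)
    (hf : MemLp f 2 volume)
    (hle : ∀ x, |f x| ≤ C * |h x|) : ∫ x, f x ^ 2 ≤ C ^ 2 * ∫ x, h x ^ 2 := by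
  rw [← integral_const_mul]
  apply integral_mono hf.integrable_sq (hh.integrable_sq.const_mul _)
  intro x
  have := hle x
  have h1 : |f x| ^ 2 ≤ (C * |h x|) ^ 2 := pow_le_pow_left₀ (abs_nonneg _) this 2
  rw [mul_pow, sq_abs, sq_abs] at h1
  exact h1

lemma sq_integral_sub_le {f h k : V d → ℝ} (hf : MemLp f 2 volume) (hh : MemLp h 2 volume)
    (hk : MemLp k 2 volume) :
    ∫ x, (f x - h x) ^ 2 ≤ 2 * (∫ x, (f x - k x) ^ 2) + 2 * ∫ x, (h x - k x) ^ 2 := by
  have j1 : Integrable (fun x => 2 * (f x - k x) ^ 2) volume := (hf.sub hk).integrable_sq.const_mul 2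
  have j2 : Integrable (fun x => 2 * (h x - k x) ^ 2) volume := (hh.sub hk).integrable_sq.const_mul 2
  have j3 : Integrable (fun x => (f x - h x) ^ 2) volume := (hf.sub hh).integrable_sq
  rw [← integral_const_mul, ← integral_const_mul, ← integral_add j1 j2]
  apply integral_mono j3 (j1.add j2)
  intro x
  simp only [Pi.add_apply]
  nlinarith [sq_nonneg ((f x - k x) + (h x - k x))]

/-- existence of a quasi-continuous representative -/
theorem IsH1.exists_qc {u : V d → ℝ} {g : Fin d → V d → ℝ} (hu : IsH1 u g) :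
    ∃ f : V d → ℝ, QuasiCont f ∧ f =ᵐ[volume] u := by
  choose w hws hw hw' hwu hwg using fun n : ℕ =>
    exists_smooth_close hu (ε := ((1 / 8 : ℝ) ^ n) ^ 2) (by positivity)
  -- scaled differences
  set s : ℕ → V d → ℝ := fun n x => 2 ^ n * (w (n + 1) x - w n x) with hs
  have hss : ∀ n, ContDiff ℝ ∞ (s n) := fun n => contDiff_const.mul ((hws (n + 1)).sub (hws n))
  have hsm : ∀ n, MemLp (s n) 2 volume := fun n => ((hw (n + 1)).sub (hw n)).const_mul _
  have hspd : ∀ n i x, pd i (s n) x = 2 ^ n * (pd i (w (n + 1)) x - pd i (w n) x) := by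
    intro n i x
    unfold pd
    have d1 : DifferentiableAt ℝ (w (n + 1)) x := ((hws (n + 1)).differentiable (by simp)) x
    have d2 : DifferentiableAt ℝ (w n) x := ((hws n).differentiable (by simp)) x
    have h1 : HasFDerivAt (s n) ((2:ℝ) ^ n • (fderiv ℝ (w (n + 1)) x - fderiv ℝ (w n) x)) x := by
      have := (d1.hasFDerivAt.sub d2.hasFDerivAt).const_mul ((2:ℝ) ^ n)
      exact this
    rw [h1.fderiv]
    simp
  have hsm' : ∀ n i, MemLp (pd i (s n)) 2 volume := by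
    intro n i
    have : pd i (s n) = fun x => 2 ^ n * (pd i (w (n + 1)) x - pd i (w n) x) := by
      ext x; exact hspd n i x
    rw [this]
    exact ((hw' (n + 1) i).sub (hw' n i)).const_mul _
  have e8 : ∀ n : ℕ, ((1 / 8 : ℝ) ^ (n + 1)) ^ 2 ≤ ((1 / 8 : ℝ) ^ n) ^ 2 := by
    intro n
    apply pow_le_pow_left₀ (by positivity)
    exact pow_le_pow_of_le_one (by norm_num) (by norm_num) (Nat.le_succ n)
  have e4 : ∀ n : ℕ, ((2:ℝ) ^ n) ^ 2 * (4 * ((1 / 8 : ℝ) ^ n) ^ 2) = (2 * (1 / 4 : ℝ) ^ n) ^ 2 := by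
    intro n
    have : (1 / 4 : ℝ) ^ n = 2 ^ n * (1 / 8) ^ n := by
      rw [← mul_pow]; norm_num
    rw [this]; ring
  have hsi : ∀ n, ∫ x, s n x ^ 2 ≤ (2 * (1 / 4 : ℝ) ^ n) ^ 2 := by
    intro n
    have h1 := sq_integral_sub_le (hw (n + 1)) (hw n) hu.memLp
    have h2 : ∫ x, s n x ^ 2 = ((2:ℝ) ^ n) ^ 2 * ∫ x, (w (n + 1) x - w n x) ^ 2 := by
      rw [← integral_const_mul]; congr 1; ext x; simp only [hs]; ring
    rw [h2, ← e4 n]
    apply mul_le_mul_of_nonneg_left _ (by positivity)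
    have := hwu n
    have := hwu (n + 1)
    have := e8 n
    linarith
  have hsi' : ∀ n i, ∫ x, pd i (s n) x ^ 2 ≤ (2 * (1 / 4 : ℝ) ^ n) ^ 2 := by
    intro n i
    have h1 := sq_integral_sub_le (hw' (n + 1) i) (hw' n i) (hu.memLp_grad i)
    have h2 : ∫ x, pd i (s n) x ^ 2 =
        ((2:ℝ) ^ n) ^ 2 * ∫ x, (pd i (w (n + 1)) x - pd i (w n) x) ^ 2 := by
      rw [← integral_const_mul]; congr 1; ext x; rw [hspd]; ring
    rw [h2, ← e4 n]
    apply mul_le_mul_of_nonneg_left _ (by positivity)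
    have := hwg n i
    have := hwg (n + 1) i
    have := e8 n
    linarith
  -- the comparison functions
  set ψ : ℕ → V d → ℝ := fun n x => Th (s n x) with hψ
  have hψs : ∀ n, ContDiff ℝ ∞ (ψ n) := fun n => Th_contDiff.comp (hss n)
  have hψm : ∀ n, MemLp (ψ n) 2 volume := fun n =>
    memLp_of_abs_le (C := 1) (hsm n) (hψs n).continuous (fun x => by simpa using Th_le (s n x))
  have hψm' : ∀ n i, MemLp (pd i (ψ n)) 2 volume := fun n i =>
    memLp_of_abs_le (C := 2) (hsm' n i) (contDiff_pd (hψs n) i).continuous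
      (fun x => pd_Th (hss n) i x)
  have hψH : ∀ n, IsH1 (ψ n) (fun i => pd i (ψ n)) := fun n =>
    isH1_of_smooth (hψs n) (hψm n) (hψm' n)
  have hψi : ∀ n, ∫ x, ψ n x ^ 2 ≤ (4 * (1 / 4 : ℝ) ^ n) ^ 2 := by
    intro n
    have h1 := sq_integral_le (C := 1) (hsm n) (hψm n)
      (fun x => by simpa using Th_le (s n x))
    have h2 := hsi n
    have h3 : (2 * (1 / 4 : ℝ) ^ n) ^ 2 ≤ (4 * (1 / 4 : ℝ) ^ n) ^ 2 := by
      apply pow_le_pow_left₀ (by positivity)
      apply mul_le_mul_of_nonneg_right (by norm_num) (by positivity)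
    linarith
  have hψi' : ∀ n i, ∫ x, pd i (ψ n) x ^ 2 ≤ (4 * (1 / 4 : ℝ) ^ n) ^ 2 := by
    intro n i
    have h1 := sq_integral_le (C := 2) (hsm' n i) (hψm' n i)
      (fun x => pd_Th (hss n) i x)
    have h2 := hsi' n i
    nlinarith
  -- the exceptional sets
  set G : ℕ → Set (V d) := fun k => ⋃ n, {x | 1 < |s (n + k) x|} with hG
  have hGo : ∀ k, IsOpen (G k) := fun k => isOpen_iUnion (fun n =>
    isOpen_lt continuous_const (hss (n + k)).continuous.abs)
  have hGcap : ∀ k, cap (G k) ≤ ENNReal.ofReal ((d + 1) * (4 * (1 / 4 : ℝ) ^ k * (4 / 3)) ^ 2) := by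
    intro k
    have hsum : HasSum (fun n : ℕ => 4 * (1 / 4 : ℝ) ^ (n + k)) (4 * (1 / 4 : ℝ) ^ k * (4 / 3)) := by
      have h1 := (hasSum_geometric_of_lt_one (r := (1 / 4 : ℝ)) (by norm_num) (by norm_num)).mul_left
        (4 * (1 / 4 : ℝ) ^ k)
      have h2 : (fun n : ℕ => 4 * (1 / 4 : ℝ) ^ (n + k)) =
          fun i : ℕ => 4 * (1 / 4 : ℝ) ^ k * (1 / 4) ^ i := by
        ext n; rw [pow_add]; ring
      have h3 : 4 * (1 / 4 : ℝ) ^ k * (4 / 3) = 4 * (1 / 4 : ℝ) ^ k * (1 - 1 / 4)⁻¹ := by norm_num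
      rw [h2, h3]
      exact h1
    obtain ⟨S, Γ, hS, hS1, hS2⟩ := IsH1.series (w := fun n => ψ (n + k))
      (h := fun n i => pd i (ψ (n + k))) (fun n => hψH (n + k)) (c := fun n => 4 * (1 / 4 : ℝ) ^ (n + k))
      (fun n => by positivity) hsum.summable (fun n => hψi (n + k)) (fun n i => hψi' (n + k) i)
    rw [hsum.tsum_eq] at hS2
    refine (cap_le hS (hGo k) (subset_refl _) ?_).trans (ENNReal.ofReal_le_ofReal hS2)
    filter_upwards [hS1] with x hx hxG
    obtain ⟨n, hn⟩ := mem_iUnion.1 hxG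
    have h1 : ψ (n + k) x ≤ S x := le_hasSum hx n (fun m _ => Th_nonneg _)
    exact (Th_ge hn).trans h1
  have hlim : Tendsto (fun k : ℕ => ENNReal.ofReal ((d + 1) * (4 * (1 / 4 : ℝ) ^ k * (4 / 3)) ^ 2))
      atTop (𝓝 0) := by
    have h1 : Tendsto (fun k : ℕ => (1 / 4 : ℝ) ^ k) atTop (𝓝 0) :=
      tendsto_pow_atTop_nhds_zero_of_lt_one (by norm_num) (by norm_num)
    have h2 := ((((h1.const_mul 4).mul_const (4 / 3)).pow 2).const_mul ((d:ℝ) + 1))
    have h3 := (ENNReal.continuous_ofReal.tendsto _).comp h2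
    simpa [Function.comp_def] using h3
  -- the representative
  set f : V d → ℝ := fun x => limUnder atTop (fun n => w n x) with hf
  have hconv : ∀ k, ∀ x ∈ (G k)ᶜ, Tendsto (fun n => w n x) atTop (𝓝 (f x)) ∧
      ∀ n, dist (w (n + k) x) (f x) ≤ (1 / 2 : ℝ) ^ k * (1 / 2 : ℝ) ^ n / (1 - 1 / 2) := by
    intro k x hx
    have hd : ∀ n, dist (w (n + k) x) (w (n + 1 + k) x) ≤ (1 / 2 : ℝ) ^ k * (1 / 2 : ℝ) ^ n := by
      intro n
      have h1 : ¬ (1 < |s (n + k) x|) := fun h => hx (mem_iUnion.2 ⟨n, h⟩)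
      rw [not_lt] at h1
      simp only [hs, abs_mul, abs_of_pos (show (0:ℝ) < 2 ^ (n + k) by positivity)] at h1
      rw [Real.dist_eq, abs_sub_comm, show n + 1 + k = n + k + 1 by ring]
      have h2 : (1 / 2 : ℝ) ^ k * (1 / 2 : ℝ) ^ n * 2 ^ (n + k) = 1 := by
        rw [← pow_add, add_comm k n, ← mul_pow]; norm_num
      have h3 : (0:ℝ) < 2 ^ (n + k) := by positivity
      by_contra hcon
      rw [not_le] at hcon
      have := mul_lt_mul_of_pos_right hcon h3
      rw [h2] at this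
      linarith
    have hcs : CauchySeq (fun n => w (n + k) x) :=
      cauchySeq_of_le_geometric (1 / 2) ((1 / 2 : ℝ) ^ k) (by norm_num) hd
    obtain ⟨L, hL⟩ := cauchySeq_tendsto_of_complete hcs
    have hL' : Tendsto (fun n => w n x) atTop (𝓝 L) := (tendsto_add_atTop_iff_nat k).1 hL
    have hfL : f x = L := hL'.limUnder_eq
    rw [hfL]
    exact ⟨hL', fun n => dist_le_of_le_geometric_of_tendsto (1 / 2) ((1 / 2 : ℝ) ^ k) (by norm_num) hd hL n⟩
  have hcont : ∀ k, ContinuousOn f (G k)ᶜ := by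
    intro k
    have hu : TendstoUniformlyOn (fun n x => w (n + k) x) f atTop (G k)ᶜ := by
      rw [Metric.tendstoUniformlyOn_iff]
      intro ε hε
      have h1 : Tendsto (fun n : ℕ => (1 / 2 : ℝ) ^ k * (1 / 2 : ℝ) ^ n / (1 - 1 / 2)) atTop (𝓝 0) := by
        have := ((tendsto_pow_atTop_nhds_zero_of_lt_one (r := (1 / 2 : ℝ)) (by norm_num)
          (by norm_num)).const_mul ((1 / 2 : ℝ) ^ k)).div_const (1 - 1 / 2)
        simpa using this
      filter_upwards [h1.eventually_lt_const hε] with n hn x hx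
      rw [dist_comm]
      exact ((hconv k x hx).2 n).trans_lt hn
    exact hu.continuousOn (Frequently.of_forall (fun n => (hws (n + k)).continuous.continuousOn))
  refine ⟨f, ?_, ?_⟩
  · intro ε hε
    obtain ⟨k, hk⟩ := (hlim.eventually_lt_const hε).exists
    exact ⟨G k, hGo k, (hGcap k).trans_lt hk, hcont k⟩
  · -- a.e. equality
    have hnull : volume (⋂ k, G k) = 0 := by
      refine le_antisymm ?_ zero_le
      refine ge_of_tendsto' hlim (fun k => ?_)
      exact (measure_mono (iInter_subset _ k)).trans ((volume_le_cap _).trans (hGcap k))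
    have hW : Tendsto (fun n => (hw n).toLp (w n)) atTop (𝓝 (hu.memLp.toLp u)) := by
      rw [tendsto_iff_norm_sub_tendsto_zero]
      have h1 : ∀ n, ‖(hw n).toLp (w n) - hu.memLp.toLp u‖ ≤ (1 / 8 : ℝ) ^ n := by
        intro n
        have h2 := norm_toLp_sq' ((hw n).sub hu.memLp)
        rw [← MemLp.toLp_sub]
        have h3 : ‖((hw n).sub hu.memLp).toLp (w n - u)‖ ^ 2 ≤ ((1 / 8 : ℝ) ^ n) ^ 2 := by
          rw [h2]; exact hwu n
        exact le_of_sq_le_sq h3 (by positivity)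
      exact squeeze_zero (fun _ => norm_nonneg _) h1
        (tendsto_pow_atTop_nhds_zero_of_lt_one (by norm_num) (by norm_num))
    obtain ⟨ns, hns, hae⟩ := (tendstoInMeasure_of_tendsto_Lp hW).exists_seq_tendsto_ae
    have h1 : ∀ᵐ x, ∀ n, (hw n).toLp (w n) x = w n x := ae_all_iff.2 (fun n => (hw n).coeFn_toLp)
    have h2 : ∀ᵐ x, x ∉ ⋂ k, G k := by
      exact measure_eq_zero_iff_ae_notMem.1 hnull
    filter_upwards [hae, h1, hu.memLp.coeFn_toLp, h2] with x hx hx1 hx2 hx3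
    simp only [mem_iInter, not_forall] at hx3
    obtain ⟨k, hk⟩ := hx3
    simp only [hx1, hx2] at hx
    exact tendsto_nhds_unique ((hconv k x hk).1.comp hns.tendsto_atTop) hx


lemma VanishesOutside.ae {Ω : Set (V d)} {u : V d → ℝ} (h : VanishesOutside Ω u) :
    ∀ᵐ x, x ∉ Ω → u x = 0 := by
  obtain ⟨f, _, hf, hcap⟩ := h
  have h0 : volume {x | x ∉ Ω ∧ f x ≠ 0} = 0 :=
    le_antisymm ((volume_le_cap _).trans hcap.le) zero_le
  have h1 : ∀ᵐ x, x ∉ {x | x ∉ Ω ∧ f x ≠ 0} := measure_eq_zero_iff_ae_notMem.1 h0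
  filter_upwards [h1, hf] with x hx1 hx2 hxΩ
  by_contra hne
  exact hx1 ⟨hxΩ, by rwa [hx2]⟩

/-- Every `v ∈ H¹` lives on a quasi-open set which is (up to a null set) `D ∪ {v ≠ 0}`. -/
lemma IsH1.exists_quasiOpen {v : V d → ℝ} {g : Fin d → V d → ℝ} (hv : IsH1 v g)
    {D : Set (V d)} (hD : IsOpen D) :
    ∃ Ω : Set (V d), QuasiOpen Ω ∧ D ⊆ Ω ∧ VanishesOutside Ω v ∧
      volume (Ω \ D) = volume ({x | v x ≠ 0} \ D) := by
  obtain ⟨f, hf, hfv⟩ := hv.exists_qc
  refine ⟨D ∪ {x | f x ≠ 0}, ?_, subset_union_left, ⟨f, hf, hfv, ?_⟩, ?_⟩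
  · intro ε hε
    obtain ⟨G, hG, hcap, hcont⟩ := hf ε hε
    obtain ⟨O, hO, hO'⟩ := (continuousOn_iff'.1 hcont) {y | y ≠ 0} isOpen_ne
    have hset : {x | f x ≠ 0} ∪ G = O ∪ G := by
      ext x
      by_cases hx : x ∈ G
      · simp [hx]
      · have h1 : x ∈ f ⁻¹' {y | y ≠ 0} ∩ Gᶜ ↔ x ∈ O ∩ Gᶜ := by rw [hO']
        simp only [mem_inter_iff, mem_preimage, mem_compl_iff, hx, not_false_eq_true,
          and_true] at h1
        simp only [mem_union, hx, or_false]
        exact h1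
    refine ⟨D ∪ ({x | f x ≠ 0} ∪ G), ?_, ?_, ?_⟩
    · rw [hset]; exact hD.union (hO.union hG)
    · exact union_subset_union_right _ subset_union_left
    · refine lt_of_le_of_lt (cap_mono ?_) hcap
      rintro x ⟨h1, h2⟩
      simp only [mem_union] at h1 h2
      tauto
  · have : {x | x ∉ D ∪ {x | f x ≠ 0} ∧ f x ≠ 0} = ∅ := by
      ext x
      simp only [mem_empty_iff_false, iff_false]
      rintro ⟨h1, h2⟩
      exact h1 (Or.inr h2)
    rw [this]; exact cap_empty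
  · apply measure_congr
    filter_upwards [hfv] with x hx
    apply propext
    change (x ∈ (D ∪ {x | f x ≠ 0}) \ D) ↔ (x ∈ {x | v x ≠ 0} \ D)
    constructor
    · rintro ⟨h1 | h1, h2⟩
      · exact absurd h1 h2
      · exact ⟨show v x ≠ 0 by rw [← hx]; exact h1, h2⟩
    · rintro ⟨h1, h2⟩
      exact ⟨Or.inr (show f x ≠ 0 by rw [hx]; exact h1), h2⟩

lemma quasiOpen_of_isOpen {U : Set (V d)} (hU : IsOpen U) : QuasiOpen U := by
  intro ε hε
  exact ⟨U, hU, subset_refl _, by simpa [cap_empty] using hε⟩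

end OptSet
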