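import Pool.Agent.Lib.MP_c499db_an.Exist

open MeasureTheory Set Filter Topology
open scoped ENNReal ContDiff

namespace OptSet

variable {d : ℕ}

/-- angle function -/
noncomputable def ang (r : ℝ) : ℝ := (Real.pi / 2) * Real.smoothTransition r

lemma ang_contDiff : ContDiff ℝ ∞ ang := contDiff_const.mul Real.smoothTransition.contDiff

lemma ang_zero {r : ℝ} (h : r ≤ 0) : ang r = 0 := by
  simp [ang, Real.smoothTransition.zero_of_nonpos h]

lemma ang_one {r : ℝ} (h : 1 ≤ r) : ang r = Real.pi / 2 := by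
  simp [ang, Real.smoothTransition.one_of_one_le h]

lemma deriv_ang_left {r : ℝ} (h : r < 0) : deriv ang r = 0 := by
  have : ang =ᶠ[𝓝 r] fun _ => 0 := by
    filter_upwards [Iio_mem_nhds h] with x hx
    exact ang_zero (le_of_lt hx)
  rw [this.deriv_eq]; simp

lemma deriv_ang_right {r : ℝ} (h : 1 < r) : deriv ang r = 0 := by
  have : ang =ᶠ[𝓝 r] fun _ => Real.pi / 2 := by
    filter_upwards [Ioi_mem_nhds h] with x hx
    exact ang_one (le_of_lt hx)
  rw [this.deriv_eq]; simp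

lemma deriv_ang_continuous : Continuous (deriv ang) := ang_contDiff.continuous_deriv (by simp)

lemma deriv_ang_right' {r : ℝ} (h : 1 ≤ r) : deriv ang r = 0 := by
  have hcl : IsClosed {r : ℝ | deriv ang r = 0} := isClosed_eq deriv_ang_continuous continuous_const
  have h1 : Ioi (1:ℝ) ⊆ {r : ℝ | deriv ang r = 0} := fun r hr => deriv_ang_right hr
  have h2 := closure_minimal h1 hcl
  rw [closure_Ioi] at h2
  exact h2 h

lemma exists_ang_bound : ∃ C : ℝ, 0 < C ∧ ∀ r, |deriv ang r| ≤ C := by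
  obtain ⟨C, hC⟩ := isCompact_Icc.exists_bound_of_continuousOn (s := Icc (0:ℝ) 1)
    deriv_ang_continuous.continuousOn
  refine ⟨|C| + 1, by positivity, fun r => ?_⟩
  by_cases h0 : r < 0
  · rw [deriv_ang_left h0]; simp; positivity
  · by_cases h1 : 1 < r
    · rw [deriv_ang_right h1]; simp; positivity
    · have := hC r ⟨not_lt.1 h0, not_lt.1 h1⟩
      rw [Real.norm_eq_abs] at this
      linarith [le_abs_self C]

/-- the cut-off angle on `ℝ^d` -/
noncomputable def th (i₀ : Fin d) (t ℓ : ℝ) (x : V d) : ℝ := ang ((x i₀ - t) / ℓ)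

lemma th_contDiff (i₀ : Fin d) (t ℓ : ℝ) : ContDiff ℝ ∞ (th i₀ t ℓ) := by
  unfold th
  apply ang_contDiff.comp
  fun_prop

lemma pd_th (i₀ : Fin d) (t ℓ : ℝ) (i : Fin d) (x : V d) :
    pd i (th i₀ t ℓ) x = deriv ang ((x i₀ - t) / ℓ) / ℓ * (Pi.single i (1:ℝ) : V d) i₀ := by
  have h1 : HasDerivAt ang (deriv ang ((x i₀ - t) / ℓ)) ((x i₀ - t) / ℓ) :=
    ((ang_contDiff.differentiable (by simp)) _).hasDerivAt
  have h2 : HasFDerivAt (fun x : V d => (x i₀ - t) / ℓ)
      (ℓ⁻¹ • (ContinuousLinearMap.proj (R := ℝ) (φ := fun _ : Fin d => ℝ) i₀)) x := by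
    have h3 : HasFDerivAt (fun x : V d => x i₀)
      (ContinuousLinearMap.proj (R := ℝ) (φ := fun _ : Fin d => ℝ) i₀) x :=
      (ContinuousLinearMap.proj (R := ℝ) (φ := fun _ : Fin d => ℝ) i₀).hasFDerivAt
    have h4 := (h3.sub_const t).const_mul ℓ⁻¹
    simpa [div_eq_inv_mul] using h4
  have h3 := h1.comp_hasFDerivAt x h2
  have h4 : th i₀ t ℓ = ang ∘ (fun x : V d => (x i₀ - t) / ℓ) := rfl
  unfold pd
  rw [h4, h3.fderiv]
  simp
  ring

lemma pd_sin {θ : V d → ℝ} (hθ : ContDiff ℝ ∞ θ) (i : Fin d) (x : V d) :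
    pd i (fun x => Real.sin (θ x)) x = Real.cos (θ x) * pd i θ x := by
  unfold pd
  have h := ((hθ.differentiable (by simp)) x).hasFDerivAt.sin
  rw [h.fderiv]
  simp

lemma pd_cos {θ : V d → ℝ} (hθ : ContDiff ℝ ∞ θ) (i : Fin d) (x : V d) :
    pd i (fun x => Real.cos (θ x)) x = - Real.sin (θ x) * pd i θ x := by
  unfold pd
  have h := ((hθ.differentiable (by simp)) x).hasFDerivAt.cos
  rw [h.fderiv]
  simp

/-- cutting an `H¹` function along the slab `t ≤ x i₀ < t + ℓ` -/
lemma IsH1.cut {C : ℝ} (hC : ∀ r, |deriv ang r| ≤ C) {u : V d → ℝ} {g : Fin d → V d → ℝ}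
    (hu : IsH1 u g) (i₀ : Fin d) (t : ℝ) {ℓ : ℝ} (hℓ : 0 < ℓ) :
    ∃ (v : V d → ℝ) (gv : Fin d → V d → ℝ) (w : V d → ℝ) (gw : Fin d → V d → ℝ),
      IsH1 v gv ∧ IsH1 w gw ∧ mass v + mass w = mass u ∧
      dir gv + dir gw ≤ dir g + C ^ 2 / ℓ ^ 2 * ∫ x in slab i₀ t (t + ℓ), u x ^ 2 ∧
      (∀ x, x i₀ ≤ t → v x = 0) ∧ (∀ x, t + ℓ ≤ x i₀ → w x = 0) ∧
      (∀ x, u x = 0 → v x = 0) ∧ (∀ x, u x = 0 → w x = 0) ∧
      ∫ x in {x : V d | x i₀ < t}, ∑ i, g i x ^ 2 ≤ dir gw := by
  have hC0 : 0 ≤ C := (abs_nonneg _).trans (hC 0)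
  set θ := th i₀ t ℓ with hθd
  have hθ : ContDiff ℝ ∞ θ := th_contDiff i₀ t ℓ
  have hθpd : ∀ i x, |pd i θ x| ≤ C / ℓ := by
    intro i x
    rw [hθd, pd_th, abs_mul, abs_div, abs_of_pos hℓ]
    have h1 : |(Pi.single i (1:ℝ) : V d) i₀| ≤ 1 := by
      by_cases h : i₀ = i
      · subst h; simp
      · rw [Pi.single_eq_of_ne h]; simp
    calc |deriv ang ((x i₀ - t) / ℓ)| / ℓ * |(Pi.single i (1:ℝ) : V d) i₀|
        ≤ (C / ℓ) * 1 := mul_le_mul (div_le_div_of_nonneg_right (hC _) hℓ.le) h1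
          (abs_nonneg _) (by positivity)
      _ = C / ℓ := mul_one _
  have hss : ContDiff ℝ ∞ (fun x => Real.sin (θ x)) := hθ.sin
  have hcs : ContDiff ℝ ∞ (fun x => Real.cos (θ x)) := hθ.cos
  have hB1 : ∀ x, |Real.sin (θ x)| ≤ 1 + C / ℓ := fun x => by
    have := Real.abs_sin_le_one (θ x)
    have : 0 ≤ C / ℓ := by positivity
    linarith
  have hB2 : ∀ x, |Real.cos (θ x)| ≤ 1 + C / ℓ := fun x => by
    have := Real.abs_cos_le_one (θ x)
    have : 0 ≤ C / ℓ := by positivity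
    linarith
  have hB3 : ∀ i x, |pd i (fun x => Real.sin (θ x)) x| ≤ 1 + C / ℓ := fun i x => by
    rw [pd_sin hθ, abs_mul]
    have h1 := Real.abs_cos_le_one (θ x)
    have h2 := hθpd i x
    nlinarith [abs_nonneg (pd i θ x), abs_nonneg (Real.cos (θ x))]
  have hB4 : ∀ i x, |pd i (fun x => Real.cos (θ x)) x| ≤ 1 + C / ℓ := fun i x => by
    rw [pd_cos hθ, abs_mul, abs_neg]
    have h1 := Real.abs_sin_le_one (θ x)
    have h2 := hθpd i x
    nlinarith [abs_nonneg (pd i θ x), abs_nonneg (Real.sin (θ x))]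
  have hv := hu.mul_smooth hss hB1 hB3
  have hw := hu.mul_smooth hcs hB2 hB4
  have iv := hv.memLp.integrable_sq
  have iw := hw.memLp.integrable_sq
  have idv := dir_integrable hv
  have idw := dir_integrable hw
  have idu := dir_integrable hu
  have iu := hu.memLp.integrable_sq
  refine ⟨_, _, _, _, hv, hw, ?_, ?_, ?_, ?_, ?_, ?_, ?_⟩
  · unfold mass
    rw [← integral_add iv iw]
    congr 1; ext x
    have := Real.sin_sq_add_cos_sq (θ x)
    linear_combination (u x ^ 2) * this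
  · have hSm := slab_meas i₀ t (t + ℓ)
    rw [← integral_indicator hSm, ← integral_const_mul]
    unfold dir
    rw [← integral_add idv idw, ← integral_add idu ((iu.indicator hSm).const_mul _)]
    apply integral_mono (idv.add idw) (idu.add ((iu.indicator hSm).const_mul _))
    intro x
    simp only [Pi.add_apply]
    rw [← Finset.sum_add_distrib]
    have e1 : ∀ i, (Real.sin (θ x) * g i x + pd i (fun x => Real.sin (θ x)) x * u x) ^ 2 +
        (Real.cos (θ x) * g i x + pd i (fun x => Real.cos (θ x)) x * u x) ^ 2 =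
        g i x ^ 2 + pd i θ x ^ 2 * u x ^ 2 := by
      intro i
      rw [pd_sin hθ, pd_cos hθ]
      have := Real.sin_sq_add_cos_sq (θ x)
      linear_combination (g i x ^ 2 + pd i θ x ^ 2 * u x ^ 2) * this
    rw [Finset.sum_congr rfl (fun i _ => e1 i), Finset.sum_add_distrib]
    have e2 : ∑ i, pd i θ x ^ 2 * u x ^ 2 ≤
        C ^ 2 / ℓ ^ 2 * (slab i₀ t (t + ℓ)).indicator (fun x => u x ^ 2) x := by
      rw [← Finset.sum_mul]
      have e3 : ∑ i, pd i θ x ^ 2 = (deriv ang ((x i₀ - t) / ℓ) / ℓ) ^ 2 := by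
        rw [Finset.sum_eq_single i₀]
        · rw [hθd, pd_th]; simp
        · intro i _ hi
          rw [hθd, pd_th, Pi.single_eq_of_ne hi.symm]; simp
        · simp
      rw [e3]
      by_cases hx : x ∈ slab i₀ t (t + ℓ)
      · rw [indicator_of_mem hx]
        apply mul_le_mul_of_nonneg_right _ (sq_nonneg _)
        rw [div_pow]
        apply div_le_div_of_nonneg_right _ (by positivity)
        rw [← sq_abs]
        exact pow_le_pow_left₀ (abs_nonneg _) (hC _) 2
      · rw [indicator_of_notMem hx, mul_zero]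
        have : deriv ang ((x i₀ - t) / ℓ) = 0 := by
          by_cases h1 : x i₀ < t
          · apply deriv_ang_left; exact div_neg_of_neg_of_pos (by linarith) hℓ
          · apply deriv_ang_right'
            have h3 : ¬ (x i₀ < t + ℓ) := fun h => hx ⟨not_lt.1 h1, h⟩
            rw [le_div_iff₀ hℓ]; linarith
        rw [this]; simp
    linarith
  · intro x hx
    have : θ x = 0 := ang_zero (div_nonpos_of_nonpos_of_nonneg (by linarith) hℓ.le)
    simp only [this, Real.sin_zero, zero_mul]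
  · intro x hx
    have : θ x = Real.pi / 2 := ang_one (by rw [le_div_iff₀ hℓ]; linarith)
    simp only [this, Real.cos_pi_div_two, zero_mul]
  · intro x hx; simp only [hx, mul_zero]
  · intro x hx; simp only [hx, mul_zero]
  · have hm : MeasurableSet {x : V d | x i₀ < t} :=
      measurableSet_lt (measurable_pi_apply i₀) measurable_const
    have e : ∫ x in {x : V d | x i₀ < t}, ∑ i, g i x ^ 2 = ∫ x in {x : V d | x i₀ < t},
        ∑ i, (Real.cos (θ x) * g i x + pd i (fun x => Real.cos (θ x)) x * u x) ^ 2 := by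
      apply setIntegral_congr_fun hm
      intro x hx
      have hx' : x i₀ < t := hx
      have h1 : θ x = 0 := ang_zero (div_nonpos_of_nonpos_of_nonneg (by linarith) hℓ.le)
      have h2 : ∀ i, pd i θ x = 0 := by
        intro i
        rw [hθd, pd_th, deriv_ang_left (div_neg_of_neg_of_pos (by linarith) hℓ)]; simp
      simp only [pd_cos hθ, h1, h2, Real.cos_zero, one_mul, mul_zero, zero_mul, add_zero]
    rw [e]
    exact setIntegral_le_integral idw (Eventually.of_forall
      (fun _ => Finset.sum_nonneg (fun _ _ => sq_nonneg _)))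

end OptSet
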