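import Mathlib

/-!
# Spectral optimisation with an inclusion constraint: definitions

`V d` is `ℝ^d` (functions `Fin d → ℝ`, with Lebesgue measure `volume`).
-/

open MeasureTheory Set Filter Topology
open scoped ENNReal ContDiff

namespace OptSet

/-- `ℝ^d`. -/
abbrev V (d : ℕ) := Fin d → ℝ

/-- The `i`-th partial derivative of `φ`. -/
noncomputable def pd {d : ℕ} (i : Fin d) (φ : V d → ℝ) (x : V d) : ℝ :=
  fderiv ℝ φ x (Pi.single i 1)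

/-- `u ∈ H¹(ℝ^d)` with weak gradient `g = (g₁, …, g_d)`: `u` and all `gᵢ` are in `L²`, and
`∫ u ∂ᵢφ = - ∫ gᵢ φ` for all smooth compactly supported `φ`. -/
structure IsH1 {d : ℕ} (u : V d → ℝ) (g : Fin d → V d → ℝ) : Prop where
  memLp : MemLp u 2 volume
  memLp_grad : ∀ i, MemLp (g i) 2 volume
  weak : ∀ φ : V d → ℝ, ContDiff ℝ ∞ φ → HasCompactSupport φ →
    ∀ i, ∫ x, u x * pd i φ x = - ∫ x, g i x * φ x

/-- `∫ u²`. -/
noncomputable def mass {d : ℕ} (u : V d → ℝ) : ℝ := ∫ x, u x ^ 2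

/-- `∫ |∇u|²`, where `g` is the weak gradient of `u`. -/
noncomputable def dir {d : ℕ} (g : Fin d → V d → ℝ) : ℝ := ∫ x, ∑ i, g i x ^ 2

/-- The capacity of a set `E`: infimum of `‖u‖²_{H¹}` over `u ∈ H¹` with `u ≥ 1` a.e. on a
neighbourhood of `E` (it is `∞` if there is no such `u`). -/
noncomputable def cap {d : ℕ} (E : Set (V d)) : ℝ≥0∞ :=
  ⨅ (u : V d → ℝ) (g : Fin d → V d → ℝ) (_ : IsH1 u g)
    (_ : ∃ U : Set (V d), IsOpen U ∧ E ⊆ U ∧ ∀ᵐ x, x ∈ U → 1 ≤ u x),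
    ENNReal.ofReal (mass u + dir g)

/-- `Ω` is quasi-open. -/
def QuasiOpen {d : ℕ} (Ω : Set (V d)) : Prop :=
  ∀ ε : ℝ≥0∞, 0 < ε → ∃ U : Set (V d), IsOpen U ∧ Ω ⊆ U ∧ cap (U \ Ω) < ε

/-- `f` is quasi-continuous. -/
def QuasiCont {d : ℕ} (f : V d → ℝ) : Prop :=
  ∀ ε : ℝ≥0∞, 0 < ε → ∃ G : Set (V d), IsOpen G ∧ cap G < ε ∧ ContinuousOn f Gᶜ

/-- `u ∈ H¹₀(Ω)` (for `u ∈ H¹(ℝ^d)`): a quasi-continuous representative of `u` vanishes
quasi-everywhere outside `Ω`. -/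
def VanishesOutside {d : ℕ} (Ω : Set (V d)) (u : V d → ℝ) : Prop :=
  ∃ f : V d → ℝ, QuasiCont f ∧ f =ᵐ[volume] u ∧ cap {x | x ∉ Ω ∧ f x ≠ 0} = 0

/-- The first Dirichlet eigenvalue `λ₁(Ω)`: infimum of `∫|∇u|² / ∫u²` over `u ∈ H¹₀(Ω)`, `u ≠ 0`
(`∞` if there is no such `u`). -/
noncomputable def lam1 {d : ℕ} (Ω : Set (V d)) : ℝ≥0∞ :=
  ⨅ (u : V d → ℝ) (g : Fin d → V d → ℝ) (_ : IsH1 u g) (_ : VanishesOutside Ω u)
    (_ : ¬ u =ᵐ[volume] 0), ENNReal.ofReal (dir g / mass u)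

/-- `Ω` is an optimal set `Ω(D,m)`: a quasi-open set of measure `m` containing `D` which minimises
`λ₁` among all quasi-open sets containing `D` of measure at most `m`. -/
structure IsOptimal {d : ℕ} (D : Set (V d)) (m : ℝ) (Ω : Set (V d)) : Prop where
  quasiOpen : QuasiOpen Ω
  subset : D ⊆ Ω
  volume_eq : volume Ω = ENNReal.ofReal m
  minimal : ∀ Ω' : Set (V d), QuasiOpen Ω' → D ⊆ Ω' → volume Ω' ≤ ENNReal.ofReal m →
    lam1 Ω ≤ lam1 Ω'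

end OptSet
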