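import Pool.Agent.Lib.MP_c499db_an.Poin

open MeasureTheory Set Filter Topology Function
open scoped ENNReal ContDiff

namespace OptSet

variable {d : ℕ}

/-- half-open cube of a grid with offset `a` and side `L` -/
def cube (a : V d) (L : ℝ) (j : Fin d → ℤ) : Set (V d) :=
  Set.pi univ (fun i => Ico (a i + j i * L) (a i + (j i + 1) * L))

lemma cube_meas (a : V d) (L : ℝ) (j : Fin d → ℤ) : MeasurableSet (cube a L j) :=
  MeasurableSet.univ_pi (fun _ => measurableSet_Ico)

lemma cube_convex (a : V d) (L : ℝ) (j : Fin d → ℤ) : Convex ℝ (cube a L j) :=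
  convex_pi (fun _ _ => convex_Ico _ _)

lemma cube_volume (a : V d) {L : ℝ} (j : Fin d → ℤ) : volume (cube a L j) = ENNReal.ofReal L ^ d := by
  unfold cube
  rw [Real.volume_pi_Ico]
  have : ∀ i, a i + (j i + 1) * L - (a i + j i * L) = L := fun i => by ring
  simp [this]

lemma cube_volume_real (a : V d) {L : ℝ} (hL : 0 ≤ L) (j : Fin d → ℤ) :
    volume.real (cube a L j) = L ^ d := by
  rw [measureReal_def, cube_volume, ENNReal.toReal_pow, ENNReal.toReal_ofReal hL]

lemma cube_diam (a : V d) {L : ℝ} (j : Fin d → ℤ) :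
    ∀ x ∈ cube a L j, ∀ y ∈ cube a L j, ∀ i, |x i - y i| ≤ L := by
  intro x hx y hy i
  have h1 := hx i (mem_univ _)
  have h2 := hy i (mem_univ _)
  simp only [mem_Ico] at h1 h2
  rw [abs_le]
  constructor <;> nlinarith [h1.1, h1.2, h2.1, h2.2]

lemma mem_cube_iff (a : V d) {L : ℝ} (hL : 0 < L) (j : Fin d → ℤ) (x : V d) :
    x ∈ cube a L j ↔ ∀ i, ⌊(x i - a i) / L⌋ = j i := by
  unfold cube
  simp only [Set.mem_pi, mem_univ, true_imp_iff, mem_Ico]
  refine forall_congr' (fun i => ?_)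
  rw [Int.floor_eq_iff, le_div_iff₀ hL, div_lt_iff₀ hL]
  constructor
  · rintro ⟨h1, h2⟩; constructor <;> linarith
  · rintro ⟨h1, h2⟩; constructor <;> linarith

lemma cube_disjoint (a : V d) {L : ℝ} (hL : 0 < L) : Pairwise (Disjoint on (cube a L)) := by
  intro j j' hjj
  rw [Function.onFun, Set.disjoint_left]
  intro x hx hx'
  rw [mem_cube_iff a hL] at hx hx'
  exact hjj (funext (fun i => (hx i).symm.trans (hx' i)))

lemma cube_cover (a : V d) {L : ℝ} (hL : 0 < L) (x : V d) :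
    x ∈ cube a L (fun i => ⌊(x i - a i) / L⌋) := by
  rw [mem_cube_iff a hL]; intro i; rfl

lemma grid_sum {f h : V d → ℝ} {R : Set (V d)} (hf : IntegrableOn f R) (hh : IntegrableOn h R)
    (hRm : MeasurableSet R) (a : V d) {L : ℝ} (hL : 0 < L)
    (hR : ∀ j, cube a L j ⊆ R ∨ Disjoint (cube a L j) R) {K : ℝ}
    (hle : ∀ j, cube a L j ⊆ R → ∫ x in cube a L j, f x ≤ K * ∫ x in cube a L j, h x) :
    ∫ x in R, f x ≤ K * ∫ x in R, h x := by
  have hU : ⋃ j, (cube a L j ∩ R) = R := by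
    rw [← iUnion_inter]
    apply inter_eq_right.2
    intro x _
    exact mem_iUnion.2 ⟨_, cube_cover a hL x⟩
  have hm : ∀ j, MeasurableSet (cube a L j ∩ R) := fun j => (cube_meas a L j).inter hRm
  have hd : Pairwise (Disjoint on (fun j => cube a L j ∩ R)) := by
    intro j j' hjj
    exact (cube_disjoint a hL hjj).mono inter_subset_left inter_subset_left
  have s1 := hasSum_integral_iUnion hm hd (f := f) (μ := volume) (by rw [hU]; exact hf)
  have s2 := hasSum_integral_iUnion hm hd (f := h) (μ := volume) (by rw [hU]; exact hh)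
  rw [hU] at s1 s2
  refine hasSum_le (fun j => ?_) s1 (s2.mul_left K)
  rcases hR j with hj | hj
  · rw [inter_eq_left.2 hj]
    exact hle j hj
  · rw [hj.inter_eq]
    simp

/-- Poincaré on a region tiled by cubes. -/
lemma IsH1.grid {u : V d → ℝ} {g : Fin d → V d → ℝ} (hu : IsH1 u g)
    {R : Set (V d)} (hRm : MeasurableSet R) (a : V d) {L : ℝ} (hL : 0 < L)
    (hR : ∀ j, cube a L j ⊆ R ∨ Disjoint (cube a L j) R)
    {N : Set (V d)} (hNm : MeasurableSet N) (hN : ∀ᵐ x, x ∈ R → x ∉ N → u x = 0)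
    {β : ℝ} (hβ0 : 0 < β)
    (hβ : ∀ j, cube a L j ⊆ R → volume.real (N ∩ cube a L j) ≤ L ^ d - β) :
    ∫ x in R, u x ^ 2 ≤ (d * L ^ 2 * 2 ^ d * L ^ d / β) * ∫ x in R, ∑ i, g i x ^ 2 := by
  have i1 : IntegrableOn (fun x => u x ^ 2) R := (hu.memLp.restrict R).integrable_sq
  have i2 : IntegrableOn (fun x => ∑ i, g i x ^ 2) R :=
    integrable_finsetSum _ (fun i _ => ((hu.memLp_grad i).restrict R).integrable_sq)
  refine grid_sum i1 i2 hRm a hL hR (fun j hj => ?_)
  have h := hu.poincare_zero (cube_meas a L j) (by rw [cube_volume]; exact ENNReal.pow_lt_top ENNReal.ofReal_lt_top)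
    (cube_convex a L j) (cube_diam a j) (N := N) (by
      filter_upwards [hN] with x hx hxc
      exact hx (hj hxc)) hNm (β := β) (by rw [cube_volume_real a hL.le]; exact hβ j hj)
  rw [cube_volume_real a hL.le] at h
  rw [div_mul_eq_mul_div, le_div_iff₀ hβ0]
  linarith

lemma vol_real_inter_le {N Q : Set (V d)} (hN : volume N < ⊤) : volume.real (N ∩ Q) ≤ volume.real N :=
  measureReal_mono inter_subset_left hN.ne

/-- Faber–Krahn type inequality with a non-sharp constant. -/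
lemma IsH1.fk {u : V d → ℝ} {g : Fin d → V d → ℝ} (hu : IsH1 u g)
    {N : Set (V d)} (hNm : MeasurableSet N) (hNf : volume N < ⊤)
    (hN : ∀ᵐ x, x ∉ N → u x = 0) {L : ℝ} (hL : 0 < L) (hv : volume.real N ≤ L ^ d / 2) :
    mass u ≤ 2 * (d * 2 ^ d) * L ^ 2 * dir g := by
  have h := hu.grid (R := univ) MeasurableSet.univ 0 hL (fun j => Or.inl (subset_univ _)) hNm
    (by filter_upwards [hN] with x hx _; exact hx) (β := L ^ d / 2) (by positivity)
    (fun j _ => by
      have := vol_real_inter_le (Q := cube 0 L j) hNf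
      linarith)
  simp only [Measure.restrict_univ] at h
  unfold mass dir
  refine h.trans (le_of_eq ?_)
  have : L ^ d ≠ 0 := by positivity
  field_simp

/-- the slab `t ≤ x i₀ < t + ℓ` -/
def slab (i₀ : Fin d) (t s : ℝ) : Set (V d) := {x | t ≤ x i₀ ∧ x i₀ < s}

lemma slab_meas (i₀ : Fin d) (t s : ℝ) : MeasurableSet (slab i₀ t s) := by
  have h1 : Measurable (fun x : V d => x i₀) := measurable_pi_apply i₀
  exact (measurableSet_le measurable_const h1).inter (measurableSet_lt h1 measurable_const)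

lemma IsH1.slab_poincare {u : V d → ℝ} {g : Fin d → V d → ℝ} (hu : IsH1 u g) (i₀ : Fin d)
    {t ℓ : ℝ} (hℓ : 0 < ℓ) {p : ℕ} (hp : 0 < p)
    {N : Set (V d)} (hNm : MeasurableSet N) (hNf : volume N < ⊤)
    (hN : ∀ᵐ x, x ∉ N → u x = 0)
    (hv : volume.real (N ∩ slab i₀ t (t + ℓ)) ≤ (ℓ / p) ^ d / 2) :
    ∫ x in slab i₀ t (t + ℓ), u x ^ 2 ≤
      2 * (d * 2 ^ d) * (ℓ / p) ^ 2 * ∫ x in slab i₀ t (t + ℓ), ∑ i, g i x ^ 2 := by
  have hp' : (0:ℝ) < p := by exact_mod_cast hp
  have hL : 0 < ℓ / p := by positivity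
  have hR : ∀ j, cube (fun _ => t : V d) (ℓ / p) j ⊆ slab i₀ t (t + ℓ) ∨
      Disjoint (cube (fun _ => t : V d) (ℓ / p) j) (slab i₀ t (t + ℓ)) := by
    intro j
    by_cases hj : 0 ≤ j i₀ ∧ j i₀ < p
    · left
      intro x hx
      have h1 := hx i₀ (mem_univ _)
      simp only [mem_Ico] at h1
      have a1 : (0:ℝ) ≤ j i₀ := by exact_mod_cast hj.1
      have a2 : (j i₀ : ℝ) + 1 ≤ p := by exact_mod_cast hj.2
      have a3 : ((j i₀ : ℝ) + 1) * (ℓ / p) ≤ ℓ := by
        calc ((j i₀ : ℝ) + 1) * (ℓ / p) ≤ p * (ℓ / p) := mul_le_mul_of_nonneg_right a2 hL.le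
          _ = ℓ := by field_simp
      have a4 : 0 ≤ (j i₀ : ℝ) * (ℓ / p) := mul_nonneg a1 hL.le
      exact ⟨by linarith [h1.1], by linarith [h1.2]⟩
    · right
      rw [Set.disjoint_left]
      intro x hx hxs
      apply hj
      rw [mem_cube_iff _ hL] at hx
      have h1 := hx i₀
      obtain ⟨h2, h3⟩ := hxs
      rw [← h1]
      constructor
      · apply Int.floor_nonneg.2
        exact div_nonneg (by linarith) hL.le
      · rw [Int.floor_lt, div_lt_iff₀ hL]
        have : ((p:ℤ):ℝ) * (ℓ / p) = ℓ := by push_cast; field_simp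
        rw [this]; linarith
  have h := hu.grid (slab_meas i₀ t (t + ℓ)) (fun _ => t) hL hR hNm
    (by filter_upwards [hN] with x hx _; exact hx) (β := (ℓ / p) ^ d / 2) (by positivity)
    (fun j hj => by
      have : volume.real (N ∩ cube (fun _ => t) (ℓ / p) j) ≤ volume.real (N ∩ slab i₀ t (t + ℓ)) :=
        measureReal_mono (inter_subset_inter_right _ hj)
          (ne_top_of_le_ne_top hNf.ne (measure_mono inter_subset_left))
      linarith)
  refine h.trans (le_of_eq ?_)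
  have : (ℓ / p) ^ d ≠ 0 := by positivity
  field_simp

end OptSet
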