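import Pool.Agent.Lib.MP_c499db_an.Cap
import Pool.Agent.Lib.MP_c499db_an.Grid

open MeasureTheory Set Filter Topology
open scoped ENNReal ContDiff

namespace OptSet

variable {d : ℕ}

/-- weak compactness of bounded sequences in `L²`, along an ultrafilter -/
lemma exists_weak_limit (𝒰 : Ultrafilter ℕ) {w : ℕ → V d → ℝ} (hw : ∀ n, MemLp (w n) 2 volume)
    {B : ℝ} (hB : ∀ n, ∫ x, w n x ^ 2 ≤ B) :
    ∃ u : V d → ℝ, MemLp u 2 volume ∧ ∀ v : V d → ℝ, MemLp v 2 volume →
      Tendsto (fun n => ∫ x, w n x * v x) 𝒰 (𝓝 (∫ x, u x * v x)) := by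
  let H := Lp ℝ 2 (volume : Measure (V d))
  let W : ℕ → H := fun n => (hw n).toLp (w n)
  have hWn : ∀ n, ‖W n‖ ≤ Real.sqrt B := by
    intro n
    apply Real.le_sqrt_of_sq_le
    rw [norm_toLp_sq' (hw n)]
    exact hB n
  let Φ : ℕ → WeakDual ℝ H := fun n => StrongDual.toWeakDual (InnerProductSpace.toDual ℝ H (W n))
  have hmem : ∀ n, Φ n ∈ WeakDual.toStrongDual ⁻¹' Metric.closedBall (0 : StrongDual ℝ H) (Real.sqrt B) := by
    intro n
    simp only [mem_preimage, Metric.mem_closedBall, dist_zero_right]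
    have : WeakDual.toStrongDual (Φ n) = InnerProductSpace.toDual ℝ H (W n) := rfl
    rw [this, LinearIsometryEquiv.norm_map]
    exact hWn n
  have hK := WeakDual.isCompact_closedBall (𝕜 := ℝ) (0 : StrongDual ℝ H) (Real.sqrt B)
  obtain ⟨a, ha, hle⟩ := hK.ultrafilter_le_nhds (𝒰.map Φ) (by
    rw [Filter.le_principal_iff]
    exact Filter.mem_map.2 (Filter.univ_mem' hmem))
  have hT : Tendsto Φ 𝒰 (𝓝 a) := hle
  let u : H := (InnerProductSpace.toDual ℝ H).symm (WeakDual.toStrongDual a)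
  refine ⟨u, Lp.memLp u, fun v hv => ?_⟩
  have h1 : Tendsto (fun n => (Φ n) (hv.toLp v)) 𝒰 (𝓝 (a (hv.toLp v))) :=
    ((WeakDual.eval_continuous (hv.toLp v)).tendsto a).comp hT
  have e1 : ∀ n, (Φ n) (hv.toLp v) = ∫ x, w n x * v x := by
    intro n
    have : (Φ n) (hv.toLp v) = inner ℝ (W n) (hv.toLp v) := rfl
    rw [this, inner_toLp (hw n) hv]
  have e2 : a (hv.toLp v) = ∫ x, u x * v x := by
    have h2 : a (hv.toLp v) = inner ℝ u (hv.toLp v) := by
      have := InnerProductSpace.toDual_symm_apply (𝕜 := ℝ) (E := H) (x := hv.toLp v)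
        (y := WeakDual.toStrongDual a)
      rw [this]; rfl
    have h3 := inner_toLp (Lp.memLp u) hv
    rw [Lp.toLp_coeFn] at h3
    rw [h2, h3]
  rw [e2] at h1
  exact h1.congr e1


lemma dir_integrable {u : V d → ℝ} {g : Fin d → V d → ℝ} (hu : IsH1 u g) :
    Integrable (fun x => ∑ i, g i x ^ 2) volume :=
  integrable_finsetSum _ (fun i _ => (hu.memLp_grad i).integrable_sq)

/-- Rellich: local strong convergence -/
lemma local_strong {l : Filter ℕ} {v : ℕ → V d → ℝ} {k : ℕ → Fin d → V d → ℝ}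
    (hv : ∀ n, IsH1 (v n) (k n)) {B : ℝ} (hB : ∀ n, dir (k n) ≤ B)
    (h0 : ∀ a : V d, ∀ L : ℝ, ∀ j, Tendsto (fun n => ∫ x in cube a L j, v n x) l (𝓝 0)) (ρ : ℝ) :
    Tendsto (fun n => ∫ x in Metric.closedBall (0 : V d) ρ, v n x ^ 2) l (𝓝 0) := by
  have hB0 : 0 ≤ B := (dir_nonneg _).trans (hB 0)
  rw [Metric.tendsto_nhds]
  intro ε hε
  -- choose L
  obtain ⟨L, hL, hL1⟩ : ∃ L : ℝ, 0 < L ∧ d * L ^ 2 * 2 ^ d * B < ε / 2 := by
    have h1 : Tendsto (fun L : ℝ => d * L ^ 2 * 2 ^ d * B) (𝓝[>] 0) (𝓝 0) := by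
      have : Continuous (fun L : ℝ => d * L ^ 2 * 2 ^ d * B) := by fun_prop
      have h2 := this.tendsto 0
      simp only [ne_eq, OfNat.ofNat_ne_zero, not_false_eq_true, zero_pow, mul_zero, zero_mul] at h2
      exact h2.mono_left nhdsWithin_le_nhds
    obtain ⟨L, h3, h4⟩ := ((h1.eventually_lt_const (half_pos hε)).and self_mem_nhdsWithin).exists
    exact ⟨L, h4, h3⟩
  obtain ⟨M, hM⟩ := exists_nat_ge (ρ / L)
  let J : Finset (Fin d → ℤ) := Fintype.piFinset (fun _ => Finset.Icc (-(M:ℤ)) M)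
  have hcov : Metric.closedBall (0 : V d) ρ ⊆ ⋃ j ∈ J, cube 0 L j := by
    intro x hx
    rw [Metric.mem_closedBall, dist_zero_right] at hx
    refine mem_iUnion₂.2 ⟨_, ?_, cube_cover 0 hL x⟩
    rw [Fintype.mem_piFinset]
    intro i
    have h1 : |x i| ≤ ρ := (norm_le_pi_norm x i).trans hx
    rw [abs_le] at h1
    rw [div_le_iff₀ hL] at hM
    rw [Finset.mem_Icc]
    simp only [Pi.zero_apply, sub_zero]
    constructor
    · rw [Int.le_floor, le_div_iff₀ hL]; push_cast; linarith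
    · have : ((⌊x i / L⌋ : ℤ) : ℝ) ≤ M := by
        refine (Int.floor_le _).trans ?_
        rw [div_le_iff₀ hL]; linarith
      exact_mod_cast this
  have hfin : Tendsto (fun n => (L ^ d)⁻¹ * ∑ j ∈ J, (∫ x in cube 0 L j, v n x) ^ 2) l (𝓝 0) := by
    have h1 : Tendsto (fun n => ∑ j ∈ J, (∫ x in cube 0 L j, v n x) ^ 2) l (𝓝 (∑ j ∈ J, 0 ^ 2)) :=
      tendsto_finsetSum _ (fun j _ => (h0 0 L j).pow 2)
    have h2 := h1.const_mul (L ^ d)⁻¹
    simpa using h2
  have hLd : 0 < L ^ d := by positivity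
  filter_upwards [hfin.eventually_lt_const (half_pos hε)] with n hn
  rw [Real.dist_eq, sub_zero, abs_of_nonneg (integral_nonneg (fun _ => sq_nonneg _))]
  have i1 : Integrable (fun x => v n x ^ 2) volume := (hv n).memLp.integrable_sq
  have i2 := dir_integrable (hv n)
  have hdisj : Set.PairwiseDisjoint (J : Set (Fin d → ℤ)) (cube (0 : V d) L) :=
    fun j _ j' _ hjj => cube_disjoint 0 hL hjj
  have s1 : ∫ x in ⋃ j ∈ J, cube 0 L j, v n x ^ 2 = ∑ j ∈ J, ∫ x in cube 0 L j, v n x ^ 2 :=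
    integral_biUnion_finset J (fun j _ => cube_meas 0 L j) hdisj (fun j _ => i1.integrableOn)
  have s2 : ∫ x in ⋃ j ∈ J, cube 0 L j, ∑ i, k n i x ^ 2 =
      ∑ j ∈ J, ∫ x in cube 0 L j, ∑ i, k n i x ^ 2 :=
    integral_biUnion_finset J (fun j _ => cube_meas 0 L j) hdisj (fun j _ => i2.integrableOn)
  have s3 : ∫ x in Metric.closedBall (0 : V d) ρ, v n x ^ 2 ≤
      ∫ x in ⋃ j ∈ J, cube 0 L j, v n x ^ 2 :=
    setIntegral_mono_set i1.integrableOn (Eventually.of_forall (fun _ => sq_nonneg _))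
      (LE.le.eventuallyLE hcov)
  have s4 : ∫ x in ⋃ j ∈ J, cube 0 L j, ∑ i, k n i x ^ 2 ≤ B :=
    (setIntegral_le_integral i2 (Eventually.of_forall
      (fun _ => Finset.sum_nonneg (fun _ _ => sq_nonneg _)))).trans (hB n)
  have s5 : ∀ j, ∫ x in cube 0 L j, v n x ^ 2 ≤ (L ^ d)⁻¹ * (∫ x in cube 0 L j, v n x) ^ 2 +
      d * L ^ 2 * 2 ^ d * ∫ x in cube 0 L j, ∑ i, k n i x ^ 2 := by
    intro j
    have h := (hv n).poincare (cube_meas 0 L j)
      (by rw [cube_volume]; exact ENNReal.pow_lt_top ENNReal.ofReal_lt_top)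
      (cube_convex 0 L j) (cube_diam 0 j)
    rw [cube_volume_real 0 hL.le] at h
    rw [← mul_le_mul_iff_right₀ hLd]
    refine h.trans (le_of_eq ?_)
    field_simp
  have s6 : ∑ j ∈ J, ∫ x in cube 0 L j, v n x ^ 2 ≤
      (L ^ d)⁻¹ * ∑ j ∈ J, (∫ x in cube 0 L j, v n x) ^ 2 +
      d * L ^ 2 * 2 ^ d * ∑ j ∈ J, ∫ x in cube 0 L j, ∑ i, k n i x ^ 2 := by
    rw [Finset.mul_sum, Finset.mul_sum, ← Finset.sum_add_distrib]
    exact Finset.sum_le_sum (fun j _ => s5 j)
  have s7 : d * L ^ 2 * 2 ^ d * ∑ j ∈ J, ∫ x in cube 0 L j, ∑ i, k n i x ^ 2 ≤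
      d * L ^ 2 * 2 ^ d * B := by
    rw [← s2]
    exact mul_le_mul_of_nonneg_left s4 (by positivity)
  linarith


lemma tail_ineq {l : Filter ℕ} [l.NeBot] {v : ℕ → V d → ℝ} {k : ℕ → Fin d → V d → ℝ}
    (hv : ∀ n, IsH1 (v n) (k n)) {R : ℝ} (hR : 0 < R) {L : ℝ} (hL : 0 < L)
    (hloc : ∀ ρ : ℝ, Tendsto (fun n => ∫ x in Metric.closedBall (0 : V d) ρ, v n x ^ 2) l (𝓝 0))
    {N : ℕ → Set (V d)} (hNm : ∀ n, MeasurableSet (N n)) (hNf : ∀ n, volume (N n) < ⊤)
    (hN : ∀ n, volume.real (N n) ≤ L ^ d / 2)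
    (hz : ∀ n, ∀ᵐ x, x ∉ Metric.closedBall (0 : V d) R → x ∉ N n → v n x = 0)
    {A B : ℝ} (hA : Tendsto (fun n => mass (v n)) l (𝓝 A))
    (hB : Tendsto (fun n => dir (k n)) l (𝓝 B)) :
    A ≤ 2 * (d * 2 ^ d) * L ^ 2 * B := by
  let b : ContDiffBump (0 : V d) := ⟨R, R + 1, hR, by linarith⟩
  have hbs : ContDiff ℝ ∞ (b : V d → ℝ) := b.contDiff
  have hbc : HasCompactSupport (b : V d → ℝ) := b.hasCompactSupport
  set χ : V d → ℝ := fun x => 1 - b x with hχ
  have hχs : ContDiff ℝ ∞ χ := contDiff_const.sub hbs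
  have hpd : ∀ i x, pd i χ x = - pd i b x := by
    intro i x
    unfold pd
    have : HasFDerivAt χ (-(fderiv ℝ b x)) x :=
      ((hbs.differentiable (by simp)) x).hasFDerivAt.const_sub 1
    rw [this.fderiv]; simp
  choose M hM using fun i => (hasCompactSupport_pd hbc i).exists_bound_of_continuous
    (contDiff_pd hbs i).continuous
  obtain ⟨M0, hM0, hM0'⟩ : ∃ M0 : ℝ, 1 ≤ M0 ∧ ∀ i, M i ≤ M0 := by
    refine ⟨1 + ∑ i, |M i|, ?_, fun i => ?_⟩
    · have : 0 ≤ ∑ i, |M i| := Finset.sum_nonneg (fun _ _ => abs_nonneg _)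
      linarith
    · have : |M i| ≤ ∑ i, |M i| := Finset.single_le_sum (f := fun i => |M i|) (fun _ _ => abs_nonneg _) (Finset.mem_univ i)
      linarith [le_abs_self (M i)]
  have hχ01 : ∀ x, 0 ≤ χ x ∧ χ x ≤ 1 := fun x => ⟨by linarith [b.le_one (x := x)], by linarith [b.nonneg (x := x)]⟩
  have hχB : ∀ x, |χ x| ≤ M0 := fun x => by
    rw [abs_of_nonneg (hχ01 x).1]; linarith [(hχ01 x).2]
  have hχB' : ∀ i x, |pd i χ x| ≤ M0 := fun i x => by
    rw [hpd, abs_neg]
    exact (hM i x).trans (hM0' i)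
  set K : Set (V d) := Metric.closedBall (0 : V d) (R + 1) with hK
  have hKm : MeasurableSet K := Metric.isClosed_closedBall.measurableSet
  have hχout : ∀ x, x ∉ K → χ x = 1 := by
    intro x hx
    have : b x = 0 := by
      apply b.zero_of_le_dist
      rw [hK, Metric.mem_closedBall, not_le] at hx
      exact hx.le
    simp [hχ, this]
  have hpdout : ∀ i x, x ∉ K → pd i χ x = 0 := by
    intro i x hx
    rw [hpd]
    have : x ∉ tsupport (b : V d → ℝ) := by
      rw [b.tsupport_eq]; exact hx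
    unfold pd
    rw [fderiv_of_notMem_tsupport ℝ this]
    simp
  have hχin : ∀ x, x ∈ Metric.closedBall (0 : V d) R → χ x = 0 := by
    intro x hx
    have : b x = 1 := b.one_of_mem_closedBall hx
    simp [hχ, this]
  have hCP : (0:ℝ) ≤ 2 * (d * 2 ^ d) * L ^ 2 := by positivity
  -- the main estimate for each ε
  have key : ∀ ε : ℝ, 0 < ε → A ≤ 2 * (d * 2 ^ d) * L ^ 2 * ((1 + ε) * B) := by
    intro ε hε
    have est : ∀ n, mass (v n) - ∫ x in K, v n x ^ 2 ≤ 2 * (d * 2 ^ d) * L ^ 2 *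
        ((1 + ε) * dir (k n) + (1 + 1 / ε) * (d * M0 ^ 2) * ∫ x in K, v n x ^ 2) := by
      intro n
      have hw := (hv n).mul_smooth hχs hχB hχB'
      have i1 : Integrable (fun x => v n x ^ 2) volume := (hv n).memLp.integrable_sq
      have i2 := dir_integrable (hv n)
      have hfk := hw.fk (hNm n) (hNf n) (by
        filter_upwards [hz n] with x hx hxN
        by_cases hxR : x ∈ Metric.closedBall (0 : V d) R
        · rw [hχin x hxR, zero_mul]
        · rw [hx hxR hxN, mul_zero]) hL (hN n)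
      have l1 : mass (v n) - ∫ x in K, v n x ^ 2 ≤ mass (fun x => χ x * v n x) := by
        have e1 : mass (v n) = (∫ x in K, v n x ^ 2) + ∫ x in Kᶜ, v n x ^ 2 :=
          (integral_add_compl hKm i1).symm
        have e2 : ∫ x in Kᶜ, v n x ^ 2 = ∫ x in Kᶜ, (χ x * v n x) ^ 2 := by
          apply setIntegral_congr_fun hKm.compl
          intro x hx
          simp only [hχout x hx, one_mul]
        have e3 : ∫ x in Kᶜ, (χ x * v n x) ^ 2 ≤ mass (fun x => χ x * v n x) :=
          setIntegral_sq_mono hw.memLp _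
        linarith
      have l2 : dir (fun i x => χ x * k n i x + pd i χ x * v n x) ≤
          (1 + ε) * dir (k n) + (1 + 1 / ε) * (d * M0 ^ 2) * ∫ x in K, v n x ^ 2 := by
        have e1 : ∫ x in K, v n x ^ 2 = ∫ x, K.indicator (fun x => v n x ^ 2) x :=
          (integral_indicator hKm).symm
        rw [e1]
        unfold dir
        rw [← integral_const_mul, ← integral_const_mul, ← integral_add (i2.const_mul _)
          ((i1.indicator hKm).const_mul _)]
        apply integral_mono (dir_integrable hw) ((i2.const_mul _).add ((i1.indicator hKm).const_mul _))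
        intro x
        simp only [Pi.add_apply]
        have p1 : ∀ i, (χ x * k n i x + pd i χ x * v n x) ^ 2 ≤
            (1 + ε) * k n i x ^ 2 + (1 + 1 / ε) * (M0 ^ 2 * K.indicator (fun x => v n x ^ 2) x) := by
          intro i
          have q0 : (χ x * k n i x) ^ 2 ≤ k n i x ^ 2 := by
            rw [mul_pow]
            have : χ x ^ 2 ≤ 1 := by nlinarith [hχ01 x]
            nlinarith [sq_nonneg (k n i x)]
          have q1 : (pd i χ x * v n x) ^ 2 ≤ M0 ^ 2 * K.indicator (fun x => v n x ^ 2) x := by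
            by_cases hx : x ∈ K
            · rw [indicator_of_mem hx, mul_pow]
              apply mul_le_mul_of_nonneg_right _ (sq_nonneg _)
              rw [← sq_abs]
              exact pow_le_pow_left₀ (abs_nonneg _) (hχB' i x) 2
            · rw [hpdout i x hx, indicator_of_notMem hx]; simp
          have q2 : (χ x * k n i x + pd i χ x * v n x) ^ 2 ≤
              (1 + ε) * (χ x * k n i x) ^ 2 + (1 + 1 / ε) * (pd i χ x * v n x) ^ 2 := by
            set α := χ x * k n i x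
            set β := pd i χ x * v n x
            have : (1 + ε) * α ^ 2 + (1 + 1 / ε) * β ^ 2 - (α + β) ^ 2 = (ε * α - β) ^ 2 / ε := by
              field_simp; ring
            have h2 : 0 ≤ (ε * α - β) ^ 2 / ε := by positivity
            linarith
          have q3 : (1 + ε) * (χ x * k n i x) ^ 2 ≤ (1 + ε) * k n i x ^ 2 :=
            mul_le_mul_of_nonneg_left q0 (by positivity)
          have q4 : (1 + 1 / ε) * (pd i χ x * v n x) ^ 2 ≤
              (1 + 1 / ε) * (M0 ^ 2 * K.indicator (fun x => v n x ^ 2) x) :=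
            mul_le_mul_of_nonneg_left q1 (by positivity)
          linarith
        calc ∑ i, (χ x * k n i x + pd i χ x * v n x) ^ 2
            ≤ ∑ i, ((1 + ε) * k n i x ^ 2 +
                (1 + 1 / ε) * (M0 ^ 2 * K.indicator (fun x => v n x ^ 2) x)) :=
              Finset.sum_le_sum (fun i _ => p1 i)
          _ = _ := by
              rw [Finset.sum_add_distrib, ← Finset.mul_sum]
              simp only [Finset.sum_const, Finset.card_univ, Fintype.card_fin, nsmul_eq_mul]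
              ring
      calc mass (v n) - ∫ x in K, v n x ^ 2 ≤ mass (fun x => χ x * v n x) := l1
        _ ≤ 2 * (d * 2 ^ d) * L ^ 2 * dir (fun i x => χ x * k n i x + pd i χ x * v n x) := hfk
        _ ≤ _ := mul_le_mul_of_nonneg_left l2 hCP
    have t1 := hA.sub (hloc (R + 1))
    have t2 := (((hB.const_mul (1 + ε)).add ((hloc (R + 1)).const_mul
      ((1 + 1 / ε) * (d * M0 ^ 2)))).const_mul (2 * ((d:ℝ) * 2 ^ d) * L ^ 2))
    have := le_of_tendsto_of_tendsto t1 t2 (Eventually.of_forall est)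
    simpa using this
  have hlim : Tendsto (fun ε : ℝ => 2 * (d * 2 ^ d) * L ^ 2 * ((1 + ε) * B)) (𝓝[>] 0)
      (𝓝 (2 * (d * 2 ^ d) * L ^ 2 * B)) := by
    have : Continuous (fun ε : ℝ => 2 * (d * 2 ^ d) * L ^ 2 * ((1 + ε) * B)) := by fun_prop
    have h2 := this.tendsto 0
    simp only [add_zero, one_mul] at h2
    exact h2.mono_left nhdsWithin_le_nhds
  exact ge_of_tendsto hlim (by
    filter_upwards [self_mem_nhdsWithin] with ε hε
    exact key ε hε)


lemma mass_const_mul (c : ℝ) (u : V d → ℝ) : mass (fun x => c * u x) = c ^ 2 * mass u := by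
  unfold mass; rw [← integral_const_mul]; congr 1; ext x; ring

lemma dir_const_mul (c : ℝ) (g : Fin d → V d → ℝ) : dir (fun i x => c * g i x) = c ^ 2 * dir g := by
  unfold dir; rw [← integral_const_mul]; congr 1; ext x
  rw [Finset.mul_sum]; exact Finset.sum_congr rfl (fun i _ => by ring)

lemma dir_eq_sum {u : V d → ℝ} {g : Fin d → V d → ℝ} (hu : IsH1 u g) :
    dir g = ∑ i, ∫ x, g i x ^ 2 :=
  integral_finsetSum _ (fun i _ => (hu.memLp_grad i).integrable_sq)

/-- limit of the square norms under weak convergence -/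
lemma sq_norm_sub {f h : V d → ℝ} (hf : MemLp f 2 volume) (hh : MemLp h 2 volume) :
    ∫ x, (f x - h x) ^ 2 = (∫ x, f x ^ 2) - 2 * (∫ x, f x * h x) + ∫ x, h x ^ 2 := by
  have i1 : Integrable (fun x => f x ^ 2) volume := hf.integrable_sq
  have i2 : Integrable (fun x => f x * h x) volume := hf.integrable_mul hh
  have i3 : Integrable (fun x => h x ^ 2) volume := hh.integrable_sq
  have i12 : Integrable (fun x => f x ^ 2 - 2 * (f x * h x)) volume := i1.sub (i2.const_mul 2)
  rw [← integral_const_mul, ← integral_sub i1 (i2.const_mul 2), ← integral_add i12 i3]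
  congr 1; ext x; ring

/-- existence of a minimiser of the Rayleigh quotient among `u ∈ H¹` with `|{u ≠ 0} \ D| ≤ s`. -/
theorem exists_minimiser {D : Set (V d)} {R : ℝ} (hR : 0 < R)
    (hD : D ⊆ Metric.closedBall (0 : V d) R) {L : ℝ} (hL : 0 < L) {s : ℝ} (hs : s ≤ L ^ d / 4)
    (hex : ∃ u g, IsH1 u g ∧ 0 < mass u ∧ volume ({x | u x ≠ 0} \ D) ≤ ENNReal.ofReal s ∧
      2 * (d * 2 ^ d) * L ^ 2 * dir g < mass u) :
    ∃ Λ : ℝ, ∃ u g, IsH1 u g ∧ 0 < mass u ∧ volume ({x | u x ≠ 0} \ D) ≤ ENNReal.ofReal s ∧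
      dir g ≤ Λ * mass u ∧
      ∀ v h, IsH1 v h → volume ({x | v x ≠ 0} \ D) ≤ ENNReal.ofReal s → Λ * mass v ≤ dir h := by
  set S : Set ℝ := {r | ∃ u g, IsH1 u g ∧ 0 < mass u ∧
    volume ({x | u x ≠ 0} \ D) ≤ ENNReal.ofReal s ∧ r = dir g / mass u} with hS
  obtain ⟨u₀, g₀, hu₀, hm₀, hv₀, hd₀⟩ := hex
  have hSne : S.Nonempty := ⟨_, u₀, g₀, hu₀, hm₀, hv₀, rfl⟩
  have hSbd : BddBelow S := ⟨0, by
    rintro r ⟨u, g, _, hm, _, rfl⟩
    exact div_nonneg (dir_nonneg _) hm.le⟩
  set Λ := sInf S with hΛ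
  have hΛ0 : 0 ≤ Λ := le_csInf hSne (by
    rintro r ⟨u, g, _, hm, _, rfl⟩
    exact div_nonneg (dir_nonneg _) hm.le)
  have hΛ1 : 2 * (d * 2 ^ d) * L ^ 2 * Λ < 1 := by
    have h1 : Λ ≤ dir g₀ / mass u₀ := csInf_le hSbd ⟨u₀, g₀, hu₀, hm₀, hv₀, rfl⟩
    have h2 : 2 * (d * 2 ^ d) * L ^ 2 * (dir g₀ / mass u₀) < 1 := by
      rw [← mul_div_assoc, div_lt_one hm₀]; exact hd₀
    have h3 : 2 * ((d:ℝ) * 2 ^ d) * L ^ 2 * Λ ≤ 2 * (d * 2 ^ d) * L ^ 2 * (dir g₀ / mass u₀) :=
      mul_le_mul_of_nonneg_left h1 (by positivity)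
    linarith
  have hmin : ∀ v h, IsH1 v h → volume ({x | v x ≠ 0} \ D) ≤ ENNReal.ofReal s →
      Λ * mass v ≤ dir h := by
    intro v h hv hvv
    rcases (mass_nonneg v).eq_or_lt with h0 | h0
    · rw [← h0, mul_zero]; exact dir_nonneg _
    · have : Λ ≤ dir h / mass v := csInf_le hSbd ⟨v, h, hv, h0, hvv, rfl⟩
      rwa [le_div_iff₀ h0] at this
  refine ⟨Λ, ?_⟩
  -- minimising sequence
  have hseq : ∀ n : ℕ, ∃ u g, IsH1 u g ∧ mass u = 1 ∧
      volume ({x | u x ≠ 0} \ D) ≤ ENNReal.ofReal s ∧ dir g < Λ + 1 / ((n:ℝ) + 1) := by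
    intro n
    obtain ⟨r, ⟨u, g, hu, hm, hv, rfl⟩, hr⟩ := exists_lt_of_csInf_lt hSne
      (show sInf S < Λ + 1 / ((n:ℝ) + 1) by
        have : (0:ℝ) < 1 / ((n:ℝ) + 1) := by positivity
        linarith)
    set c := (Real.sqrt (mass u))⁻¹ with hc
    have hcpos : 0 < c := inv_pos.2 (Real.sqrt_pos.2 hm)
    have hc2 : c ^ 2 = (mass u)⁻¹ := by rw [hc, inv_pow, Real.sq_sqrt hm.le]
    refine ⟨_, _, hu.const_mul c, ?_, ?_, ?_⟩
    · rw [mass_const_mul, hc2, inv_mul_cancel₀ hm.ne']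
    · have : {x | c * u x ≠ 0} = {x | u x ≠ 0} := by
        ext x; simp [hcpos.ne']
      rw [this]; exact hv
    · rw [dir_const_mul, hc2, inv_mul_eq_div]; exact hr
  choose u g hu hm hv hd using hseq
  let 𝒰 : Ultrafilter ℕ := Filter.hyperfilter ℕ
  have h𝒰 : (𝒰 : Filter ℕ) ≤ atTop := by
    rw [← Nat.cofinite_eq_atTop]; exact Filter.hyperfilter_le_cofinite
  have hdΛ : Tendsto (fun n => dir (g n)) 𝒰 (𝓝 Λ) := by
    have h1 : Tendsto (fun n : ℕ => Λ + 1 / ((n:ℝ) + 1)) atTop (𝓝 (Λ + 0)) :=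
      tendsto_one_div_add_atTop_nhds_zero_nat.const_add Λ
    rw [add_zero] at h1
    have h2 : Tendsto (fun n => dir (g n)) atTop (𝓝 Λ) := by
      refine tendsto_of_tendsto_of_tendsto_of_le_of_le tendsto_const_nhds h1 (fun n => ?_)
        (fun n => (hd n).le)
      have := hmin _ _ (hu n) (hv n)
      rw [hm n, mul_one] at this
      exact this
    exact h2.mono_left h𝒰
  have hdB : ∀ n, dir (g n) ≤ Λ + 1 := by
    intro n
    have : 1 / ((n:ℝ) + 1) ≤ 1 := by
      rw [div_le_one (by positivity)]; have : (0:ℝ) ≤ n := Nat.cast_nonneg n; linarith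
    linarith [hd n]
  have hgB : ∀ n i, ∫ x, g n i x ^ 2 ≤ Λ + 1 := by
    intro n i
    refine le_trans ?_ (hdB n)
    rw [dir_eq_sum (hu n)]
    exact Finset.single_le_sum (f := fun i => ∫ x, g n i x ^ 2)
      (fun _ _ => integral_nonneg (fun _ => sq_nonneg _)) (Finset.mem_univ i)
  obtain ⟨U, hU, hUw⟩ := exists_weak_limit 𝒰 (fun n => (hu n).memLp) (B := 1)
    (fun n => (hm n).le)
  choose G hG hGw using fun i => exists_weak_limit 𝒰 (fun n => (hu n).memLp_grad i)
    (fun n => hgB n i)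
  have hUH : IsH1 U G := IsH1.weak_limit (l := (𝒰 : Filter ℕ)) hu hU hG hUw (fun i v hv => hGw i v hv)
  -- differences
  have hvn : ∀ n, IsH1 (fun x => u n x - U x) (fun i x => g n i x - G i x) := fun n =>
    (hu n).sub hUH
  have hA : Tendsto (fun n => mass (fun x => u n x - U x)) 𝒰 (𝓝 (1 - mass U)) := by
    have e : ∀ n, mass (fun x => u n x - U x) = 1 - 2 * (∫ x, u n x * U x) + mass U := by
      intro n
      have := sq_norm_sub (hu n).memLp hU
      unfold mass
      rw [this]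
      have h2 := hm n
      unfold mass at h2
      rw [h2]
    have h1 := (((hUw U hU).const_mul 2).const_sub 1).add_const (mass U)
    simp_rw [e]
    convert h1 using 2
    have : ∫ x, U x * U x = mass U := by unfold mass; congr 1; ext x; ring
    rw [this]; ring
  have hB : Tendsto (fun n => dir (fun i x => g n i x - G i x)) 𝒰 (𝓝 (Λ - dir G)) := by
    have e : ∀ n, dir (fun i x => g n i x - G i x) =
        dir (g n) - 2 * (∑ i, ∫ x, g n i x * G i x) + dir G := by
      intro n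
      rw [dir_eq_sum (hvn n), dir_eq_sum (hu n), dir_eq_sum hUH, Finset.mul_sum,
        ← Finset.sum_sub_distrib, ← Finset.sum_add_distrib]
      exact Finset.sum_congr rfl (fun i _ => sq_norm_sub ((hu n).memLp_grad i) (hG i))
    have h0 : Tendsto (fun n => ∑ i, ∫ x, g n i x * G i x) 𝒰 (𝓝 (∑ i, ∫ x, G i x * G i x)) :=
      tendsto_finsetSum _ (fun i _ => hGw i (G i) (hG i))
    have h1 := ((hdΛ.sub (h0.const_mul 2))).add_const (dir G)
    simp_rw [e]
    convert h1 using 2
    have : ∑ i, ∫ x, G i x * G i x = dir G := by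
      rw [dir_eq_sum hUH]
      exact Finset.sum_congr rfl (fun i _ => by congr 1; ext x; ring)
    rw [this]; ring
  have hdB' : ∀ n, dir (fun i x => g n i x - G i x) ≤ 2 * (Λ + 1) + 2 * dir G := by
    intro n
    have : dir (fun i x => g n i x - G i x) ≤ 2 * dir (g n) + 2 * dir G := by
      rw [dir_eq_sum (hvn n), dir_eq_sum (hu n), dir_eq_sum hUH, Finset.mul_sum, Finset.mul_sum,
        ← Finset.sum_add_distrib]
      apply Finset.sum_le_sum
      intro i _
      have := sq_integral_sub_le ((hu n).memLp_grad i) (hG i) (MemLp.zero (ε := ℝ))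
      simpa using this
    linarith [hdB n]
  have hcube : ∀ a : V d, ∀ L : ℝ, ∀ j, Tendsto (fun n => ∫ x in cube a L j, (u n x - U x)) 𝒰 (𝓝 0) := by
    intro a L j
    set Q := cube a L j with hQ
    have hQf : volume Q ≠ ⊤ := by
      rw [hQ, cube_volume]; exact (ENNReal.pow_lt_top ENNReal.ofReal_lt_top).ne
    have m1 : MemLp (Q.indicator (fun _ => (1:ℝ))) 2 volume :=
      memLp_indicator_const 2 (cube_meas a L j) 1 (Or.inr hQf)
    have e : ∀ f : V d → ℝ, ∫ x in Q, f x = ∫ x, f x * Q.indicator (fun _ => (1:ℝ)) x := by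
      intro f
      have hQm : MeasurableSet Q := cube_meas a L j
      rw [← integral_indicator hQm]
      congr 1; ext x
      by_cases hx : x ∈ Q
      · rw [indicator_of_mem hx, indicator_of_mem hx, mul_one]
      · rw [indicator_of_notMem hx, indicator_of_notMem hx, mul_zero]
    have hfin : IsFiniteMeasure (volume.restrict Q) := ⟨by simpa using hQf.lt_top⟩
    have e2 : ∀ n, ∫ x in Q, (u n x - U x) = (∫ x in Q, u n x) - ∫ x in Q, U x := fun n =>
      integral_sub (((hu n).memLp.restrict Q).integrable (by norm_num))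
        ((hU.restrict Q).integrable (by norm_num))
    simp_rw [e2, e]
    have := (hUw _ m1).sub_const (∫ x, U x * Q.indicator (fun _ => (1:ℝ)) x)
    simpa using this
  have hloc := local_strong (l := (𝒰 : Filter ℕ)) hvn hdB' hcube
  -- support of the limit
  have hsupp : volume ({x | U x ≠ 0} \ D) ≤ ENNReal.ofReal s := by
    have hstep : ∀ m : ℕ, volume ({x | x ∈ Metric.closedBall (0 : V d) m ∧
        1 / ((m:ℝ) + 1) < |U x|} \ D) ≤ ENNReal.ofReal s := by
      intro m
      set K : Set (V d) := Metric.closedBall (0 : V d) m with hK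
      have hKm : MeasurableSet K := Metric.isClosed_closedBall.measurableSet
      have hKf : volume K < ⊤ := measure_closedBall_lt_top
      have hfin : IsFiniteMeasure (volume.restrict K) := ⟨by simpa using hKf⟩
      set e : ℝ := 1 / ((m:ℝ) + 1) with he
      have he0 : 0 < e := by positivity
      have hb : ∀ n, volume ({x | x ∈ K ∧ e < |U x|} \ D) ≤
          ENNReal.ofReal s + ENNReal.ofReal ((e ^ 2)⁻¹ * ∫ x in K, (u n x - U x) ^ 2) := by
        intro n
        have hsub : {x | x ∈ K ∧ e < |U x|} \ D ⊆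
            ({x | u n x ≠ 0} \ D) ∪ ({x | e ^ 2 ≤ (u n x - U x) ^ 2} ∩ K) := by
          rintro x ⟨⟨hx1, hx2⟩, hx3⟩
          by_cases hx4 : u n x = 0
          · right
            refine ⟨?_, hx1⟩
            change e ^ 2 ≤ (u n x - U x) ^ 2
            rw [hx4, zero_sub, neg_sq, ← sq_abs (U x)]
            exact pow_le_pow_left₀ he0.le hx2.le 2
          · left; exact ⟨hx4, hx3⟩
        refine (measure_mono hsub).trans ((measure_union_le _ _).trans (add_le_add (hv n) ?_))
        have h1 := mul_meas_ge_le_integral_of_nonneg (μ := volume.restrict K)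
          (f := fun x => (u n x - U x) ^ 2) (Eventually.of_forall (fun _ => sq_nonneg _))
          ((((hu n).memLp.sub hU).restrict K).integrable_sq) (e ^ 2)
        have h2 : volume ({x | e ^ 2 ≤ (u n x - U x) ^ 2} ∩ K) =
            (volume.restrict K) {x | e ^ 2 ≤ (u n x - U x) ^ 2} :=
          (Measure.restrict_apply' hKm).symm
        rw [h2, ← ofReal_measureReal (measure_ne_top _ _)]
        apply ENNReal.ofReal_le_ofReal
        rw [le_inv_mul_iff₀ (by positivity)]
        exact h1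
      have ht : Tendsto (fun n => ENNReal.ofReal s +
          ENNReal.ofReal ((e ^ 2)⁻¹ * ∫ x in K, (u n x - U x) ^ 2)) 𝒰 (𝓝 (ENNReal.ofReal s + 0)) := by
        apply Tendsto.const_add
        have h3 := (hloc m).const_mul (e ^ 2)⁻¹
        have h4 := (ENNReal.continuous_ofReal.tendsto _).comp h3
        simpa [Function.comp_def] using h4
      rw [add_zero] at ht
      exact ge_of_tendsto' ht hb
    have hU' : {x | U x ≠ 0} \ D = ⋃ m : ℕ, ({x | x ∈ Metric.closedBall (0 : V d) m ∧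
        1 / ((m:ℝ) + 1) < |U x|} \ D) := by
      ext x
      constructor
      · rintro ⟨h1, h2⟩
        have h1' : 0 < |U x| := abs_pos.2 h1
        obtain ⟨m1, hm1⟩ := exists_nat_ge ‖x‖
        obtain ⟨m2, hm2⟩ := exists_nat_one_div_lt h1'
        refine mem_iUnion.2 ⟨max m1 m2, ⟨?_, ?_⟩, h2⟩
        · rw [Metric.mem_closedBall, dist_zero_right]
          exact hm1.trans (by exact_mod_cast le_max_left m1 m2)
        · refine lt_of_le_of_lt ?_ hm2
          apply one_div_le_one_div_of_le (by positivity)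
          have : (m2:ℝ) ≤ (max m1 m2 : ℕ) := by exact_mod_cast le_max_right m1 m2
          linarith
      · intro h
        obtain ⟨m, ⟨_, h2⟩, h3⟩ := mem_iUnion.1 h
        refine ⟨?_, h3⟩
        have : 0 < |U x| := lt_trans (by positivity) h2
        exact abs_pos.1 this
    rw [hU']
    have hmono : Monotone (fun m : ℕ => {x | x ∈ Metric.closedBall (0 : V d) m ∧
        1 / ((m:ℝ) + 1) < |U x|} \ D) := by
      intro m m' hmm x
      rintro ⟨⟨h1, h2⟩, h3⟩
      have hmm' : (m:ℝ) ≤ m' := by exact_mod_cast hmm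
      refine ⟨⟨Metric.closedBall_subset_closedBall hmm' h1, lt_of_le_of_lt ?_ h2⟩, h3⟩
      apply one_div_le_one_div_of_le (by positivity)
      linarith
    rw [hmono.directed_le.measure_iUnion]
    exact iSup_le hstep
  -- tail
  have htail : 1 - mass U ≤ 2 * (d * 2 ^ d) * L ^ 2 * (Λ - dir G) := by
    have hNv : ∀ n, volume (toMeasurable volume (({x | u n x ≠ 0} \ D) ∪ ({x | U x ≠ 0} \ D))) ≤
        ENNReal.ofReal (L ^ d / 2) := by
      intro n
      rw [measure_toMeasurable]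
      refine (measure_union_le _ _).trans ((add_le_add (hv n) hsupp).trans ?_)
      have h1 : ENNReal.ofReal s ≤ ENNReal.ofReal (L ^ d / 4) := ENNReal.ofReal_le_ofReal hs
      refine (add_le_add h1 h1).trans ?_
      rw [← ENNReal.ofReal_add (by positivity) (by positivity)]
      exact ENNReal.ofReal_le_ofReal (by linarith [pow_pos hL d])
    refine tail_ineq (l := (𝒰 : Filter ℕ)) hvn hR hL hloc
      (N := fun n => toMeasurable volume (({x | u n x ≠ 0} \ D) ∪ ({x | U x ≠ 0} \ D)))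
      (fun n => measurableSet_toMeasurable _ _) (fun n => (hNv n).trans_lt ENNReal.ofReal_lt_top)
      (fun n => ?_) (fun n => ?_) hA hB
    · rw [measureReal_def]
      exact ENNReal.toReal_le_of_le_ofReal (by positivity) (hNv n)
    · refine Eventually.of_forall (fun x hxR hxN => ?_)
      have hxD : x ∉ D := fun h => hxR (hD h)
      have h1 : x ∉ ({x | u n x ≠ 0} \ D) ∪ ({x | U x ≠ 0} \ D) := fun h =>
        hxN (subset_toMeasurable _ _ h)
      have h2 : u n x = 0 := by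
        by_contra hne
        exact h1 (Or.inl ⟨hne, hxD⟩)
      have h3 : U x = 0 := by
        by_contra hne
        exact h1 (Or.inr ⟨hne, hxD⟩)
      rw [h2, h3, sub_zero]
  have hBnn : 0 ≤ Λ - dir G := ge_of_tendsto' hB (fun n => dir_nonneg _)
  have hG0 := dir_nonneg G
  have hU0 := mass_nonneg U
  refine ⟨U, G, hUH, ?_, hsupp, ?_, hmin⟩
  · by_contra hcon
    have hU00 : mass U = 0 := le_antisymm (not_lt.1 hcon) hU0
    rw [hU00] at htail
    have h3 : 2 * ((d:ℝ) * 2 ^ d) * L ^ 2 * (Λ - dir G) ≤ 2 * (d * 2 ^ d) * L ^ 2 * Λ :=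
      mul_le_mul_of_nonneg_left (by linarith) (by positivity)
    linarith
  · have h4 : Λ * (1 - mass U) ≤ Λ * (2 * (d * 2 ^ d) * L ^ 2 * (Λ - dir G)) :=
      mul_le_mul_of_nonneg_left htail hΛ0
    have h5 : Λ * (2 * (d * 2 ^ d) * L ^ 2 * (Λ - dir G)) ≤ 1 * (Λ - dir G) := by
      have : Λ * (2 * (d * 2 ^ d) * L ^ 2 * (Λ - dir G)) = (2 * (d * 2 ^ d) * L ^ 2 * Λ) * (Λ - dir G) := by ring
      rw [this]
      exact mul_le_mul_of_nonneg_right hΛ1.le hBnn
    nlinarith

end OptSet
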