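import Pool.Agent.Lib.MP_c499db_an.Main

open MeasureTheory Set Filter Topology
open scoped ENNReal ContDiff

namespace OptSet

/-- The choice of parameters. -/
lemma params (d : ℕ) (hd : 0 < d) {κ C : ℝ} (hκ : 0 < κ) :
    ∃ (q N p : ℕ) (η A K ℓ₀ : ℝ), 0 < q ∧ 0 < N ∧ 0 < p ∧ 0 < η ∧ η ≤ 1 / 4 ∧ 1 ≤ A ∧
      2 * (d * 2 ^ d) * κ < η * A ^ 2 ∧ 4 * (d * 2 ^ d) * κ ≤ (q:ℝ) ^ 2 ∧
      η * (N:ℝ) ^ d = ((N:ℝ) / q) ^ d / 4 ∧
      η * (N:ℝ) ^ d + A ^ d ≤ ((N:ℝ) / q) ^ d / 2 ∧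
      2 ^ d * (η * N ^ d) + N * (d * (N * (2 * N) ^ (d - 1))) + η * N ^ d ≤ K ∧ 0 < K ∧
      4 * (d * 2 ^ d) * C ^ 2 / p ^ 2 ≤ (1 / 2) ^ d ∧ 0 < ℓ₀ ∧ 2 * K ≤ (ℓ₀ / p) ^ d / 2 ∧
      η / 2 < η * (N:ℝ) ^ d := by
  obtain ⟨q, hq⟩ := exists_nat_ge (4 * ((d:ℝ) * 2 ^ d) * κ + 1)
  have hd' : (0:ℝ) < d := by exact_mod_cast hd
  have hCP : (0:ℝ) < (d:ℝ) * 2 ^ d := by positivity
  have hq1 : (1:ℝ) ≤ q := by
    have : 0 < 4 * ((d:ℝ) * 2 ^ d) * κ := by positivity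
    linarith
  have hq0 : (0:ℝ) < q := by linarith
  set η : ℝ := 1 / (4 * (q:ℝ) ^ d) with hη
  have hqd : (1:ℝ) ≤ (q:ℝ) ^ d := one_le_pow₀ hq1
  have hη0 : 0 < η := by positivity
  have hη1 : η ≤ 1 / 4 := by
    rw [hη]; apply one_div_le_one_div_of_le (by norm_num); linarith
  set A : ℝ := 2 * (d * 2 ^ d) * κ / η + 1 with hA
  have hA1 : 1 ≤ A := by
    have : 0 < 2 * (d * 2 ^ d) * κ / η := by positivity
    linarith
  have hA2 : 2 * (d * 2 ^ d) * κ < η * A ^ 2 := by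
    have h1 : η * A = 2 * (d * 2 ^ d) * κ + η := by rw [hA]; field_simp
    have h2 : η * A ≤ η * A ^ 2 := mul_le_mul_of_nonneg_left (by nlinarith) hη0.le
    linarith
  obtain ⟨N, hN⟩ := exists_nat_ge (4 * q * A)
  have hN0 : (0:ℝ) < N := lt_of_lt_of_le (by positivity) hN
  have hN1 : (1:ℝ) ≤ N := by
    have : (1:ℝ) ≤ 4 * q * A := by nlinarith
    linarith
  have hN4 : (4:ℝ) ≤ N := by
    have : (4:ℝ) ≤ 4 * q * A := by nlinarith
    linarith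
  have e1 : η * (N:ℝ) ^ d = ((N:ℝ) / q) ^ d / 4 := by
    rw [hη, div_pow]; field_simp
  have e2 : A ^ d ≤ ((N:ℝ) / q) ^ d / 4 := by
    have h1 : 4 * A ≤ N / q := by rw [le_div_iff₀ hq0]; linarith
    have h2 : (4 * A) ^ d ≤ (N / q) ^ d := pow_le_pow_left₀ (by positivity) h1 d
    rw [mul_pow] at h2
    have h3 : (4:ℝ) ≤ 4 ^ d := le_self_pow₀ (by norm_num) hd.ne'
    have h4 : 0 < A ^ d := by positivity
    nlinarith
  set K : ℝ := 2 ^ d * (η * N ^ d) + N * (d * (N * (2 * N) ^ (d - 1))) + η * N ^ d + 1 with hK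
  have hK0 : 0 < K := by positivity
  obtain ⟨p, hp⟩ := exists_nat_ge (4 * ((d:ℝ) * 2 ^ d) * C ^ 2 * 2 ^ d + 1)
  have hp1 : (1:ℝ) ≤ p := by
    have : 0 ≤ 4 * ((d:ℝ) * 2 ^ d) * C ^ 2 * 2 ^ d := by positivity
    linarith
  have hp0 : (0:ℝ) < p := by linarith
  refine ⟨q, N, p, η, A, K, p * (4 * K + 1), by exact_mod_cast hq0, by exact_mod_cast hN0,
    by exact_mod_cast hp0, hη0, hη1, hA1, hA2, ?_, e1, by linarith, by linarith, hK0, ?_,
    by positivity, ?_, ?_⟩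
  · nlinarith
  · rw [div_le_iff₀ (by positivity)]
    have h1 : (1 / 2 : ℝ) ^ d * 2 ^ d = 1 := by rw [← mul_pow]; norm_num
    have h2 : 4 * ((d:ℝ) * 2 ^ d) * C ^ 2 * 2 ^ d ≤ (p:ℝ) ^ 2 := by nlinarith
    have h3 : 0 < (1 / 2 : ℝ) ^ d := by positivity
    calc 4 * ((d:ℝ) * 2 ^ d) * C ^ 2 = (1 / 2 : ℝ) ^ d * (4 * ((d:ℝ) * 2 ^ d) * C ^ 2 * 2 ^ d) := by
          linear_combination (-(4 * ((d:ℝ) * 2 ^ d) * C ^ 2)) * h1
      _ ≤ _ := mul_le_mul_of_nonneg_left h2 h3.le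
  · rw [mul_div_cancel_left₀ _ hp0.ne']
    have : (4 * K + 1) ≤ (4 * K + 1) ^ d := le_self_pow₀ (by linarith) hd.ne'
    linarith
  · have : (1:ℝ) ≤ (N:ℝ) ^ d := one_le_pow₀ hN1
    nlinarith

/-- Main theorem: monotonicity in the measure fails. -/
theorem main (d : ℕ) (hd : 0 < d) :
    ∃ (D : Set (V d)) (m m' : ℝ) (Ω : Set (V d)), IsOpen D ∧ Bornology.IsBounded D ∧
      volume D < ENNReal.ofReal m ∧ m < m' ∧ IsOptimal D m Ω ∧ (∃ Ω', IsOptimal D m' Ω') ∧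
      ∀ Ω', IsOptimal D m' Ω' → 0 < volume (Ω \ Ω') := by
  obtain ⟨κ, hκ, htest⟩ := exists_test d
  obtain ⟨C, hC0, hC⟩ := exists_ang_bound
  obtain ⟨q, N, p, η, A, K, ℓ₀, hq, hN, hp, hη0, hη1, hA1, hA2, hq2, hηN, hηq, hK, hK0, hp2, hℓ₀,
    hKℓ, hss⟩ := params d hd (C := C) hκ
  set i₀ : Fin d := ⟨0, hd⟩ with hi₀
  have hA0 : 0 < A := by linarith
  have hN' : (0:ℝ) < N := by exact_mod_cast hN
  have hq' : (0:ℝ) < q := by exact_mod_cast hq
  have hd' : (0:ℝ) < d := by exact_mod_cast hd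
  set D : Set (V d) := DA i₀ A ∪ DB i₀ (2 * ℓ₀) η N with hD
  have hDo : IsOpen D := (DA_open _ _).union (DB_open _ _ _ _)
  have hDR : D ⊆ Metric.closedBall (0 : V d) (A + 1 + 2 * ℓ₀ + N) :=
    D_bounded hA0.le (by positivity) hη0.le
  have hDf : volume D < ⊤ := (measure_mono hDR).trans_lt measure_closedBall_lt_top
  set M : ℝ := A + 1 + 2 * ℓ₀ + N with hM
  have hM0 : 0 < M := by positivity
  -- dilation bound
  have hy : ∀ τ, 0 ≤ τ → τ ≤ 1 → volume ((ctr (aa i₀ A) τ) ⁻¹' D \ D) ≤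
      ENNReal.ofReal (((N + 1) * (d * (M * (2 * M) ^ (d - 1)))) * τ) := by
    intro τ h0 h1
    have s1 : (ctr (aa i₀ A) τ) ⁻¹' D \ D ⊆ ((ctr (aa i₀ A) τ) ⁻¹' (DA i₀ A) \ DA i₀ A) ∪
        ((ctr (aa i₀ A) τ) ⁻¹' (DB i₀ (2 * ℓ₀) η N) \ DB i₀ (2 * ℓ₀) η N) := by
      rintro x ⟨hx1 | hx1, hx2⟩
      · exact Or.inl ⟨hx1, fun h => hx2 (Or.inl h)⟩
      · exact Or.inr ⟨hx1, fun h => hx2 (Or.inr h)⟩
    have b1 := dil_box (a := aa i₀ A) (b := fun i => aa i₀ A i + A) (c := aa i₀ A) (M := M)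
        (fun _ => le_rfl) (fun i => by linarith) h0 h1 hM0.le
    have b2 := dil_DB (i₀ := i₀) (T := 2 * ℓ₀) (η := η) (N := N) (c := aa i₀ A) (M := M)
        (τ := τ) (by simp only [aa, if_true]; linarith) (fun i hi => by simp [aa, hi])
        (by simp only [aa, if_true]; linarith)
        (fun i hi => by simp only [aa, hi, if_false]; linarith) hη0.le h0 h1 hM0.le
    refine (measure_mono s1).trans ((measure_union_le _ _).trans ((add_le_add b1 b2).trans ?_))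
    rw [← ENNReal.ofReal_add (by positivity) (by positivity)]
    apply ENNReal.ofReal_le_ofReal
    apply le_of_eq; ring
  -- test function in the cube `D_a`
  obtain ⟨ua, ga, hua, hma, hea, hsa⟩ := htest (aa i₀ A) A hA0
  have hva : volume ({x | ua x ≠ 0} \ D) ≤ ENNReal.ofReal (η / 2) := by
    have : {x | ua x ≠ 0} \ D = ∅ := by
      rw [Set.sdiff_eq_empty]
      exact fun x hx => Or.inl (hsa x hx)
    rw [this, measure_empty]; exact zero_le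
  -- test function in the cube `Q_b`
  obtain ⟨ub, gb, hub, hmb, heb, hsb⟩ := htest (cb i₀ (2 * ℓ₀)) N hN'
  have hvb : volume ({x | ub x ≠ 0} \ D) ≤ ENNReal.ofReal (η * N ^ d) := by
    refine le_trans (measure_mono ?_) (walls_volume (i₀ := i₀) (T := 2 * ℓ₀) (N := N) hη0.le hd)
    rintro x ⟨hx1, hx2⟩
    exact ⟨hsb x hx1, fun h => hx2 (Or.inr h)⟩
  have hCP : (0:ℝ) < 2 * (d * 2 ^ d) := by positivity
  obtain ⟨Λ, u, g, Ω, hΛ, hu, hm, hv, hle, hmin, hDΩ, hvan, hvol, hopt⟩ :=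
    exists_optimal hd hDo (R := M) hM0 hDR (L := 1) one_pos (s := η / 2) (by positivity)
      (by rw [one_pow]; linarith) ⟨ua, ga, hua, hma, hva, by
        have h1 : A ^ 2 * (2 * (d * 2 ^ d) * 1 ^ 2 * dir ga) < A ^ 2 * mass ua := by
          calc A ^ 2 * (2 * (d * 2 ^ d) * 1 ^ 2 * dir ga)
              = 2 * (d * 2 ^ d) * (A ^ 2 * dir ga) := by ring
            _ ≤ 2 * (d * 2 ^ d) * (κ * mass ua) := mul_le_mul_of_nonneg_left hea hCP.le
            _ = (2 * (d * 2 ^ d) * κ) * mass ua := by ring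
            _ < (η * A ^ 2) * mass ua := mul_lt_mul_of_pos_right hA2 hma
            _ ≤ A ^ 2 * mass ua := by
                apply mul_le_mul_of_nonneg_right _ hma.le
                nlinarith [sq_nonneg A]
        exact lt_of_mul_lt_mul_left h1 (by positivity)⟩
      (aa i₀ A) (by positivity) hy
  obtain ⟨_, _, _, Ω₂, _, _, _, _, _, _, _, _, _, hopt₂⟩ :=
    exists_optimal hd hDo (R := M) hM0 hDR (L := N / q) (by positivity) (s := η * N ^ d)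
      (by positivity) (by linarith) ⟨ub, gb, hub, hmb, hvb, by
        have h1 : 2 * ((d:ℝ) * 2 ^ d) * (N / q) ^ 2 * dir gb ≤ (1 / 2) * mass ub := by
          have e1 : 2 * ((d:ℝ) * 2 ^ d) * (N / q) ^ 2 * dir gb =
              2 * ((d:ℝ) * 2 ^ d) * (N ^ 2 * dir gb) / q ^ 2 := by ring
          rw [e1, div_le_iff₀ (by positivity)]
          calc 2 * ((d:ℝ) * 2 ^ d) * (N ^ 2 * dir gb)
              ≤ 2 * ((d:ℝ) * 2 ^ d) * (κ * mass ub) := mul_le_mul_of_nonneg_left heb hCP.le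
            _ = (1 / 2) * (4 * (d * 2 ^ d) * κ) * mass ub := by ring
            _ ≤ (1 / 2) * (q:ℝ) ^ 2 * mass ub := by
                apply mul_le_mul_of_nonneg_right _ hmb.le
                linarith
            _ = _ := by ring
        linarith⟩
      (aa i₀ A) (by positivity) hy
  refine ⟨D, volume.real D + η / 2, volume.real D + η * N ^ d, Ω, hDo,
    Metric.isBounded_closedBall.subset hDR, ?_, by linarith, hopt, ⟨Ω₂, hopt₂⟩, ?_⟩
  · conv_lhs => rw [← ofReal_measureReal hDf.ne]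
    have : 0 ≤ volume.real D := measureReal_nonneg
    rw [ENNReal.ofReal_lt_ofReal_iff (by positivity)]
    linarith
  intro Ω' hΩ'
  -- extra mass on the left for `Ω`
  have hΛκ : Λ * A ^ 2 ≤ κ := by
    have h1 := hmin ua ga hua hva
    have h2 : (Λ * A ^ 2) * mass ua ≤ κ * mass ua := by
      calc (Λ * A ^ 2) * mass ua = A ^ 2 * (Λ * mass ua) := by ring
        _ ≤ A ^ 2 * dir ga := mul_le_mul_of_nonneg_left h1 (by positivity)
        _ ≤ _ := hea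
    exact le_of_mul_le_mul_right h2 hma
  have hleft := left_mass hd i₀ (T := 2 * ℓ₀) (N := N) hA0 (by positivity) hη0 (by linarith) hA2 hΛ
    hΛκ hu hm hv hle hmin
  -- no extra mass on the left for `Ω'`
  obtain ⟨Λ', hΛ', hΛ'2, hmin', hvol', hε'⟩ := optimal_facts hd hDo hDf (s := η * N ^ d)
    (by positivity) hΩ' (Λ₀ := κ / N ^ 2) ⟨ub, gb, hub, hmb, hvb, by
      rw [div_mul_eq_mul_div, le_div_iff₀ (by positivity)]
      linarith⟩
  have hno := no_left_mass hd i₀ hA0 hη0 hN hq hp hC hq2 hηq hK hK0 hp2 hℓ₀ hKℓ hΛ'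
    (by rw [le_div_iff₀ (by positivity)] at hΛ'2; exact hΛ'2) hmin' hvol' (fun ε hε => by
      obtain ⟨u, g, h1, h2, h3, h4⟩ := hε' ε hε
      refine ⟨u, g, h1, h2, h3, ?_⟩
      filter_upwards [h4] with x hx hx2
      by_cases h : x ∈ D
      · exact Or.inl h
      · exact Or.inr ⟨hx hx2, h⟩)
  rw [pos_iff_ne_zero]
  intro h0
  apply hleft.ne'
  refine le_antisymm ?_ zero_le
  have h1 : volume (({x | u x ≠ 0} \ D) ∩ {x | x i₀ < 0}) ≤
      volume ((Ω \ Ω') ∪ ((Ω' \ D) ∩ {x | x i₀ < 0})) := by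
    apply measure_mono_ae
    filter_upwards [hvan.ae] with x hx hx2
    obtain ⟨⟨h1, h2⟩, h3⟩ := hx2
    have h4 : x ∈ Ω := by
      by_contra hne
      exact h1 (hx hne)
    by_cases h5 : x ∈ Ω'
    · exact Or.inr ⟨⟨h5, h2⟩, h3⟩
    · exact Or.inl ⟨h4, h5⟩
  refine h1.trans ((measure_union_le _ _).trans ?_)
  rw [h0, hno, add_zero]

end OptSet
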