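import Pool.Agent.Lib.MP_c499db_an.Iter

open MeasureTheory Set Filter Topology
open scoped ENNReal ContDiff

namespace OptSet

variable {d : ℕ}

/-- open box -/
def obox (a b : V d) : Set (V d) := Set.pi univ (fun i => Ioo (a i) (b i))

lemma obox_open (a b : V d) : IsOpen (obox a b) := isOpen_set_pi finite_univ (fun _ _ => isOpen_Ioo)

lemma mem_obox {a b x : V d} : x ∈ obox a b ↔ ∀ i, a i < x i ∧ x i < b i := by
  simp [obox, Set.mem_pi]

/-- closed box with a special side `i₀` -/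
def sbox (i₀ : Fin d) (l u : ℝ) (a b : V d) : Set (V d) :=
  Set.pi univ (fun i => if i = i₀ then Icc l u else Icc (a i) (b i))

lemma mem_sbox {i₀ : Fin d} {l u : ℝ} {a b x : V d} :
    x ∈ sbox i₀ l u a b ↔ (l ≤ x i₀ ∧ x i₀ ≤ u) ∧ ∀ i, i ≠ i₀ → a i ≤ x i ∧ x i ≤ b i := by
  unfold sbox
  simp only [Set.mem_pi, mem_univ, true_imp_iff]
  constructor
  · intro h
    refine ⟨by simpa using h i₀, fun i hi => ?_⟩
    have := h i
    simpa [hi] using this
  · rintro ⟨h1, h2⟩ i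
    by_cases hi : i = i₀
    · subst hi; simpa using h1
    · simpa [hi] using h2 i hi

lemma sbox_volume_le {i₀ : Fin d} {l u : ℝ} {a b : V d} {α β : ℝ} (h1 : u - l ≤ α) (hα : 0 ≤ α)
    (hβ : 0 ≤ β) (h2 : ∀ i, b i - a i ≤ β) :
    volume (sbox i₀ l u a b) ≤ ENNReal.ofReal (α * β ^ (d - 1)) := by
  unfold sbox
  rw [volume_pi_pi]
  rw [← Finset.mul_prod_erase Finset.univ _ (Finset.mem_univ i₀)]
  simp only [if_true]
  rw [ENNReal.ofReal_mul hα, ENNReal.ofReal_pow hβ]
  refine mul_le_mul' ?_ ?_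
  · rw [Real.volume_Icc]; exact ENNReal.ofReal_le_ofReal h1
  · calc ∏ i ∈ Finset.univ.erase i₀, volume (if i = i₀ then Icc l u else Icc (a i) (b i))
        ≤ ∏ _i ∈ Finset.univ.erase i₀, ENNReal.ofReal β := by
          apply Finset.prod_le_prod' 
          intro i hi
          rw [if_neg (Finset.ne_of_mem_erase hi), Real.volume_Icc]
          exact ENNReal.ofReal_le_ofReal (h2 i)
      _ = ENNReal.ofReal β ^ (d - 1) := by
          rw [Finset.prod_const, Finset.card_erase_of_mem (Finset.mem_univ _)]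
          simp

lemma exists_test (d : ℕ) : ∃ κ : ℝ, 0 < κ ∧ ∀ (a : V d) (A : ℝ), 0 < A →
    ∃ u g, IsH1 u g ∧ 0 < mass u ∧ A ^ 2 * dir g ≤ κ * mass u ∧
      ∀ x, u x ≠ 0 → x ∈ obox a (fun i => a i + A) := by
  let c0 : V d := fun _ => 1 / 2
  let b : ContDiffBump c0 := ⟨1 / 4, 1 / 2, by norm_num, by norm_num⟩
  have hbs : ContDiff ℝ ∞ (b : V d → ℝ) := b.contDiff
  have hbc : HasCompactSupport (b : V d → ℝ) := b.hasCompactSupport
  have hH : IsH1 (b : V d → ℝ) (fun i => pd i b) := isH1_of_smooth hbs (memLp_test hbs hbc)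
    (fun i => memLp_test (contDiff_pd hbs i) (hasCompactSupport_pd hbc i))
  have hm : 0 < mass (b : V d → ℝ) := by
    unfold mass
    apply Continuous.integral_pos_of_hasCompactSupport_nonneg_nonzero (x := c0)
    · exact hbs.continuous.pow 2
    · exact hbc.comp_left (g := fun t : ℝ => t ^ 2) (by norm_num)
    · intro x; exact sq_nonneg _
    · have : b c0 = 1 := b.one_of_mem_closedBall (Metric.mem_closedBall_self b.rIn_pos.le)
      rw [this]; norm_num
  have hd0 := dir_nonneg (fun i => pd i (b : V d → ℝ))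
  refine ⟨dir (fun i => pd i (b : V d → ℝ)) / mass (b : V d → ℝ) + 1, by positivity, ?_⟩
  intro a A hA
  have hr : 0 < A⁻¹ := inv_pos.2 hA
  refine ⟨_, _, hH.affine (-(A⁻¹ • a)) hr, ?_, ?_, ?_⟩
  · rw [mass_affine _ _ hr]; positivity
  · rw [mass_affine _ _ hr, dir_affine _ _ hr]
    have h1 : A ^ 2 * (A⁻¹ ^ 2 * ((A⁻¹ ^ d)⁻¹ * dir (fun i => pd i (b : V d → ℝ)))) =
        (A⁻¹ ^ d)⁻¹ * dir (fun i => pd i (b : V d → ℝ)) := by
      field_simp
    rw [h1]
    have h2 : (dir (fun i => pd i (b : V d → ℝ)) / mass (b : V d → ℝ) + 1) *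
        ((A⁻¹ ^ d)⁻¹ * mass (b : V d → ℝ)) = (A⁻¹ ^ d)⁻¹ * dir (fun i => pd i (b : V d → ℝ)) +
        (A⁻¹ ^ d)⁻¹ * mass (b : V d → ℝ) := by
      field_simp
    rw [h2]
    have : 0 < (A⁻¹ ^ d)⁻¹ * mass (b : V d → ℝ) := by positivity
    linarith
  · intro x hx
    have h1 : (-(A⁻¹ • a) + A⁻¹ • x) ∈ Metric.ball c0 (1 / 2) := by
      have : (-(A⁻¹ • a) + A⁻¹ • x) ∈ Function.support (b : V d → ℝ) := hx
      rwa [b.support_eq] at this
    rw [Metric.mem_ball, dist_pi_lt_iff (by norm_num)] at h1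
    rw [mem_obox]
    intro i
    have h2 := h1 i
    simp only [Pi.add_apply, Pi.neg_apply, Pi.smul_apply, smul_eq_mul, c0, Real.dist_eq] at h2
    rw [abs_lt] at h2
    have e : -(A⁻¹ * a i) + A⁻¹ * x i = (x i - a i) / A := by field_simp; ring
    rw [e] at h2
    constructor
    · have : 0 < (x i - a i) / A := by linarith [h2.1]
      have := (div_pos_iff_of_pos_right hA).1 this
      linarith
    · have : (x i - a i) / A < 1 := by linarith [h2.2]
      rw [div_lt_one hA] at this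
      linarith

lemma ctr_apply (c : V d) (τ : ℝ) (x : V d) (i : Fin d) :
    ctr c τ x i = c i + (1 + τ)⁻¹ * (x i - c i) := by
  simp only [ctr, Pi.add_apply, Pi.sub_apply, Pi.smul_apply, smul_eq_mul]; ring

lemma dil_box {a b c : V d} {M τ : ℝ} (h0 : ∀ i, c i ≤ a i) (hab : ∀ i, b i ≤ c i + M)
    (hτ0 : 0 ≤ τ) (hτ1 : τ ≤ 1) (hM : 0 ≤ M) :
    volume ((ctr c τ) ⁻¹' (obox a b) \ obox a b) ≤ ENNReal.ofReal (d * (τ * M * (2 * M) ^ (d - 1))) := by
  have h1τ : 0 < 1 + τ := by linarith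
  have hsub : (ctr c τ) ⁻¹' (obox a b) \ obox a b ⊆
      ⋃ i : Fin d, sbox i (b i) (b i + τ * M) c (fun j => c j + 2 * M) := by
    rintro x ⟨hx1, hx2⟩
    have hx1' : ∀ i, a i < ctr c τ x i ∧ ctr c τ x i < b i := mem_obox.1 hx1
    rw [mem_obox] at hx2
    push Not at hx2
    obtain ⟨i, hi⟩ := hx2
    have hlow : ∀ j, a j < x j := by
      intro j
      have h := (hx1' j).1
      rw [ctr_apply] at h
      have h2 : (a j - c j) < (1 + τ)⁻¹ * (x j - c j) := by linarith
      rw [inv_mul_eq_div, lt_div_iff₀ h1τ] at h2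
      have := h0 j
      nlinarith
    have hup : ∀ j, x j < c j + (1 + τ) * (b j - c j) := by
      intro j
      have h := (hx1' j).2
      rw [ctr_apply] at h
      have h2 : (1 + τ)⁻¹ * (x j - c j) < b j - c j := by linarith
      rw [inv_mul_eq_div, div_lt_iff₀ h1τ] at h2
      linarith
    refine mem_iUnion.2 ⟨i, mem_sbox.2 ⟨⟨hi (hlow i), ?_⟩, fun j _ => ⟨?_, ?_⟩⟩⟩
    · have := hup i
      have := hab i
      nlinarith
    · linarith [h0 j, hlow j]
    · have := hup j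
      have := hab j
      nlinarith
  refine (measure_mono hsub).trans ((measure_iUnion_le _).trans ?_)
  rw [tsum_fintype]
  calc ∑ i : Fin d, volume (sbox i (b i) (b i + τ * M) c (fun j => c j + 2 * M))
      ≤ ∑ _i : Fin d, ENNReal.ofReal (τ * M * (2 * M) ^ (d - 1)) :=
        Finset.sum_le_sum (fun i _ => sbox_volume_le (by linarith) (by positivity) (by positivity)
          (fun j => by linarith))
    _ = _ := by
        rw [Finset.sum_const, Finset.card_univ, Fintype.card_fin, nsmul_eq_mul,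
          ENNReal.ofReal_mul (Nat.cast_nonneg d), ENNReal.ofReal_natCast]

lemma one_add_pow_le (d : ℕ) {τ : ℝ} (h0 : 0 ≤ τ) (h1 : τ ≤ 1) : (1 + τ) ^ d ≤ 1 + 2 ^ d * τ := by
  have : (1 + τ) ^ d ≤ 1 + (2 ^ d - 1) * τ := by
    induction d with
    | zero => simp
    | succ d ih =>
      rw [pow_succ, pow_succ]
      have h2 : (1:ℝ) ≤ 2 ^ d := one_le_pow₀ (by norm_num)
      have h3 : (1 + τ) ^ d * (1 + τ) ≤ (1 + (2 ^ d - 1) * τ) * (1 + τ) :=
        mul_le_mul_of_nonneg_right ih (by linarith)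
      nlinarith [mul_nonneg (sub_nonneg.2 h2) (mul_nonneg h0 (sub_nonneg.2 h1))]
  linarith

end OptSet
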