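import Pool.Agent.Lib.MP_c499db_an.Geo

open MeasureTheory Set Filter Topology
open scoped ENNReal ContDiff

namespace OptSet

variable {d : ℕ}

def wlo (i₀ : Fin d) (T : ℝ) (k : ℕ) : V d := fun i => if i = i₀ then T + k else 0
def whi (i₀ : Fin d) (T η : ℝ) (N : ℕ) (k : ℕ) : V d :=
  fun i => if i = i₀ then T + k + 1 - η else N
def cb (i₀ : Fin d) (T : ℝ) : V d := fun i => if i = i₀ then T else 0
def aa (i₀ : Fin d) (A : ℝ) : V d := fun i => if i = i₀ then -A - 1 else 0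

/-- the cube `Q_b` with walls removed -/
def DB (i₀ : Fin d) (T η : ℝ) (N : ℕ) : Set (V d) :=
  ⋃ k ∈ Finset.range N, obox (wlo i₀ T k) (whi i₀ T η N k)

/-- the cube `D_a` -/
def DA (i₀ : Fin d) (A : ℝ) : Set (V d) := obox (aa i₀ A) (fun i => aa i₀ A i + A)

lemma DB_open (i₀ : Fin d) (T η : ℝ) (N : ℕ) : IsOpen (DB i₀ T η N) :=
  isOpen_biUnion (fun _ _ => obox_open _ _)

lemma DA_open (i₀ : Fin d) (A : ℝ) : IsOpen (DA i₀ A) := obox_open _ _

lemma mem_DB {i₀ : Fin d} {T η : ℝ} {N : ℕ} {x : V d} : x ∈ DB i₀ T η N ↔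
    (∃ k : ℕ, k < N ∧ T + k < x i₀ ∧ x i₀ < T + k + 1 - η) ∧
      ∀ i, i ≠ i₀ → 0 < x i ∧ x i < N := by
  unfold DB
  simp only [mem_iUnion, Finset.mem_range, mem_obox, exists_prop]
  constructor
  · rintro ⟨k, hk, h⟩
    refine ⟨⟨k, hk, ?_⟩, fun i hi => ?_⟩
    · simpa [wlo, whi] using h i₀
    · simpa [wlo, whi, hi] using h i
  · rintro ⟨⟨k, hk, h⟩, h2⟩
    refine ⟨k, hk, fun i => ?_⟩
    by_cases hi : i = i₀
    · subst hi; simpa [wlo, whi] using h
    · simpa [wlo, whi, hi] using h2 i hi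

lemma mem_DA {i₀ : Fin d} {A : ℝ} {x : V d} : x ∈ DA i₀ A ↔
    (-A - 1 < x i₀ ∧ x i₀ < -1) ∧ ∀ i, i ≠ i₀ → 0 < x i ∧ x i < A := by
  unfold DA
  rw [mem_obox]
  constructor
  · intro h
    refine ⟨?_, fun i hi => ?_⟩
    · have := h i₀
      simp only [aa, if_true] at this
      exact ⟨this.1, by linarith [this.2]⟩
    · simpa [aa, hi] using h i
  · rintro ⟨h1, h2⟩ i
    by_cases hi : i = i₀
    · subst hi
      simp only [aa, if_true]
      exact ⟨h1.1, by linarith [h1.2]⟩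
    · simpa [aa, hi] using h2 i hi

lemma dil_DB {i₀ : Fin d} {T η : ℝ} {N : ℕ} {c : V d} {M τ : ℝ} (hc : c i₀ ≤ T)
    (hc' : ∀ i, i ≠ i₀ → c i ≤ 0) (hM0 : T + N ≤ c i₀ + M) (hM1 : ∀ i, i ≠ i₀ → N ≤ c i + M)
    (hη : 0 ≤ η) (hτ0 : 0 ≤ τ) (hτ1 : τ ≤ 1) (hM : 0 ≤ M) :
    volume ((ctr c τ) ⁻¹' (DB i₀ T η N) \ DB i₀ T η N) ≤
      ENNReal.ofReal (N * (d * (τ * M * (2 * M) ^ (d - 1)))) := by
  have hsub : (ctr c τ) ⁻¹' (DB i₀ T η N) \ DB i₀ T η N ⊆
      ⋃ k ∈ Finset.range N, ((ctr c τ) ⁻¹' (obox (wlo i₀ T k) (whi i₀ T η N k)) \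
        obox (wlo i₀ T k) (whi i₀ T η N k)) := by
    rintro x ⟨h1, h2⟩
    unfold DB at h1 h2
    simp only [mem_preimage, mem_iUnion, exists_prop] at h1 h2 ⊢
    obtain ⟨k, hk, hk2⟩ := h1
    exact ⟨k, hk, hk2, fun h => h2 ⟨k, hk, h⟩⟩
  refine (measure_mono hsub).trans ((measure_biUnion_finset_le _ _).trans ?_)
  calc ∑ k ∈ Finset.range N, volume ((ctr c τ) ⁻¹' (obox (wlo i₀ T k) (whi i₀ T η N k)) \
        obox (wlo i₀ T k) (whi i₀ T η N k))
      ≤ ∑ _k ∈ Finset.range N, ENNReal.ofReal (d * (τ * M * (2 * M) ^ (d - 1))) := by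
        apply Finset.sum_le_sum
        intro k hk
        have hkN : (k:ℝ) + 1 ≤ N := by exact_mod_cast Finset.mem_range.1 hk
        have hk0 : (0:ℝ) ≤ k := Nat.cast_nonneg k
        apply dil_box _ _ hτ0 hτ1 hM
        · intro i
          by_cases hi : i = i₀
          · subst hi; simp only [wlo, if_true]; linarith
          · simp only [wlo, if_neg hi]; exact hc' i hi
        · intro i
          by_cases hi : i = i₀
          · subst hi; simp only [whi, if_true]; linarith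
          · simp only [whi, if_neg hi]; exact hM1 i hi
    _ = _ := by
        rw [Finset.sum_const, Finset.card_range, nsmul_eq_mul,
          ENNReal.ofReal_mul (Nat.cast_nonneg N), ENNReal.ofReal_natCast]

lemma walls_volume {i₀ : Fin d} {T η : ℝ} {N : ℕ} (hη : 0 ≤ η) (hd : 0 < d) :
    volume (obox (cb i₀ T) (fun i => cb i₀ T i + N) \ DB i₀ T η N) ≤ ENNReal.ofReal (η * N ^ d) := by
  have hsub : obox (cb i₀ T) (fun i => cb i₀ T i + N) \ DB i₀ T η N ⊆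
      ⋃ k ∈ Finset.range N, sbox i₀ (T + k + 1 - η) (T + k + 1) (fun _ => 0) (fun _ => (N:ℝ)) := by
    rintro x ⟨h1, h2⟩
    rw [mem_obox] at h1
    rw [mem_DB] at h2
    have h3 : ∀ i, i ≠ i₀ → 0 < x i ∧ x i < N := by
      intro i hi
      have := h1 i
      simpa [cb, hi] using this
    have h4 := h1 i₀
    simp only [cb, if_true] at h4
    have h5 : ¬ ∃ k : ℕ, k < N ∧ T + k < x i₀ ∧ x i₀ < T + k + 1 - η := fun h => h2 ⟨h, h3⟩
    -- k = ⌈x i₀ - T⌉ - 1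
    have hpos : 0 < x i₀ - T := by linarith
    obtain ⟨k, hk⟩ : ∃ k : ℕ, ⌈x i₀ - T⌉₊ = k + 1 :=
      ⟨⌈x i₀ - T⌉₊ - 1, by have := Nat.ceil_pos.2 hpos; omega⟩
    have hk1 : x i₀ - T ≤ k + 1 := by
      have := Nat.le_ceil (x i₀ - T)
      rw [hk] at this; push_cast at this; exact this
    have hk2 : (k:ℝ) < x i₀ - T := by
      have : k < ⌈x i₀ - T⌉₊ := by omega
      exact Nat.lt_ceil.1 this
    have hkN : k < N := by
      have : (k:ℝ) < N := by linarith [h4.2]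
      exact_mod_cast this
    refine mem_iUnion₂.2 ⟨k, Finset.mem_range.2 hkN, mem_sbox.2 ⟨⟨?_, by linarith⟩, fun i hi => ⟨(h3 i hi).1.le, (h3 i hi).2.le⟩⟩⟩
    by_contra hcon
    exact h5 ⟨k, hkN, by linarith, by linarith⟩
  refine (measure_mono hsub).trans ((measure_biUnion_finset_le _ _).trans ?_)
  calc ∑ k ∈ Finset.range N, volume (sbox i₀ (T + k + 1 - η) (T + k + 1) (fun _ => 0) (fun _ => (N:ℝ)))
      ≤ ∑ _k ∈ Finset.range N, ENNReal.ofReal (η * N ^ (d - 1)) :=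
        Finset.sum_le_sum (fun k _ => sbox_volume_le (by linarith) hη (Nat.cast_nonneg N)
          (fun i => by simp))
    _ = ENNReal.ofReal (η * N ^ d) := by
        rw [Finset.sum_const, Finset.card_range, nsmul_eq_mul, ← ENNReal.ofReal_natCast,
          ← ENNReal.ofReal_mul (Nat.cast_nonneg N)]
        congr 1
        obtain ⟨e, rfl⟩ : ∃ e, d = e + 1 := ⟨d - 1, by omega⟩
        rw [Nat.add_sub_cancel, pow_succ]; ring

lemma cell_volume {i₀ : Fin d} {T η : ℝ} {N : ℕ} (hη0 : 0 ≤ η) (hη : η ≤ 1) (j : Fin d → ℤ) :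
    volume (DB i₀ T η N ∩ cube (cb i₀ T) 1 j) ≤ ENNReal.ofReal (1 - η) := by
  have hsub : DB i₀ T η N ∩ cube (cb i₀ T) 1 j ⊆
      sbox i₀ (T + j i₀) (T + j i₀ + 1 - η) (fun i => (j i : ℝ)) (fun i => (j i : ℝ) + 1) := by
    rintro x ⟨h1, h2⟩
    rw [mem_DB] at h1
    obtain ⟨⟨k, hk, hk1, hk2⟩, _⟩ := h1
    have h3 := h2 i₀ (mem_univ _)
    simp only [cb, if_true, mem_Ico, mul_one] at h3
    have e1 : (k:ℤ) < j i₀ + 1 := by
      have : ((k:ℤ):ℝ) < (j i₀ : ℝ) + 1 := by push_cast; linarith [h3.2]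
      exact_mod_cast this
    have e2 : j i₀ < (k:ℤ) + 1 := by
      have : (j i₀ : ℝ) < ((k:ℤ):ℝ) + 1 := by push_cast; linarith [h3.1]
      exact_mod_cast this
    have e3 : (k:ℤ) = j i₀ := by omega
    have e4 : (k:ℝ) = (j i₀ : ℝ) := by exact_mod_cast e3
    refine mem_sbox.2 ⟨⟨h3.1, by linarith⟩, fun i hi => ?_⟩
    have h4 := h2 i (mem_univ _)
    simp only [cb, if_neg hi, mem_Ico, mul_one, zero_add] at h4
    exact ⟨h4.1, h4.2.le⟩
  refine (measure_mono hsub).trans ?_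
  have := sbox_volume_le (i₀ := i₀) (l := T + j i₀) (u := T + j i₀ + 1 - η)
    (a := fun i => (j i : ℝ)) (b := fun i => (j i : ℝ) + 1) (α := 1 - η) (β := 1)
    (by linarith) (by linarith) (by norm_num) (fun i => by linarith)
  simpa using this

lemma DA_volume {i₀ : Fin d} {A : ℝ} (hA : 0 ≤ A) : volume (DA i₀ A) ≤ ENNReal.ofReal (A ^ d) := by
  unfold DA obox
  rw [Real.volume_pi_Ioo]
  have : ∀ i, aa i₀ A i + A - aa i₀ A i = A := fun i => by ring
  simp only [this]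
  rw [Finset.prod_const, ENNReal.ofReal_pow hA]
  simp

lemma D_bounded {i₀ : Fin d} {A T η : ℝ} {N : ℕ} (hA : 0 ≤ A) (hT : 0 ≤ T) (hη : 0 ≤ η) :
    DA i₀ A ∪ DB i₀ T η N ⊆ Metric.closedBall (0 : V d) (A + 1 + T + N) := by
  have hN : (0:ℝ) ≤ N := Nat.cast_nonneg N
  intro x hx
  rw [Metric.mem_closedBall, dist_zero_right, pi_norm_le_iff_of_nonneg (by positivity)]
  intro i
  rw [Real.norm_eq_abs, abs_le]
  rcases hx with hx | hx
  · rw [mem_DA] at hx
    by_cases hi : i = i₀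
    · subst hi; constructor <;> linarith [hx.1.1, hx.1.2]
    · have := hx.2 i hi; constructor <;> linarith [this.1, this.2]
  · rw [mem_DB] at hx
    obtain ⟨⟨k, hk, h1, h2⟩, h3⟩ := hx
    have hk' : (k:ℝ) + 1 ≤ N := by exact_mod_cast hk
    have hk0 : (0:ℝ) ≤ k := Nat.cast_nonneg k
    by_cases hi : i = i₀
    · subst hi; constructor <;> linarith
    · have := h3 i hi; constructor <;> linarith [this.1, this.2]

end OptSet
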