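import Pool.Agent.Lib.MP_c499db_an.Cut

open MeasureTheory Set Filter Topology
open scoped ENNReal ContDiff

namespace OptSet

variable {d : ℕ}

lemma vol_affine_preimage (S : Set (V d)) (a : V d) {r : ℝ} (hr : 0 < r) :
    volume ((fun x : V d => a + r • x) ⁻¹' S) = ENNReal.ofReal ((r ^ d)⁻¹) * volume S := by
  have h1 : (fun x : V d => a + r • x) ⁻¹' S = (fun x : V d => r • x) ⁻¹' ((fun x => a + x) ⁻¹' S) := rfl
  rw [h1, Measure.addHaar_preimage_smul _ hr.ne', measure_preimage_add]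
  simp only [Module.finrank_fintype_fun_eq_card, Fintype.card_fin]
  rw [abs_of_pos (by positivity)]

/-- contraction towards `c` by the factor `1 / (1 + τ)` -/
noncomputable def ctr (c : V d) (τ : ℝ) (x : V d) : V d := (c - (1 + τ)⁻¹ • c) + (1 + τ)⁻¹ • x

lemma dil {D Db X : Set (V d)} (hDb : Db ⊆ D) (c : V d) {τ : ℝ} (hτ : 0 ≤ τ) {Λ s' x y : ℝ}
    (hmin : ∀ v h, IsH1 v h → volume ({z | v z ≠ 0} \ D) ≤ ENNReal.ofReal s' → Λ * mass v ≤ dir h)
    (hx0 : 0 ≤ x) (hy0 : 0 ≤ y)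
    (hX : volume X ≤ ENNReal.ofReal x)
    (hy : volume ((ctr c τ) ⁻¹' Db \ Db) ≤ ENNReal.ofReal y)
    (hxy : (1 + τ) ^ d * x + y ≤ s') {v : V d → ℝ} {h : Fin d → V d → ℝ} (hv : IsH1 v h)
    (hsupp : ∀ᵐ z, v z ≠ 0 → z ∈ Db ∪ X) :
    (1 + τ) ^ 2 * Λ * mass v ≤ dir h := by
  have h1τ : 0 < 1 + τ := by linarith
  have hr : 0 < (1 + τ)⁻¹ := inv_pos.2 h1τ
  have hH := hv.affine (c - (1 + τ)⁻¹ • c) hr
  set B : Set (V d) := {z | v z ≠ 0 ∧ z ∉ Db ∪ X} with hB
  have hB0 : volume B = 0 := by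
    have : ∀ᵐ z, z ∉ B := by
      filter_upwards [hsupp] with z hz hzB
      exact hzB.2 (hz hzB.1)
    exact measure_eq_zero_iff_ae_notMem.2 this
  have hsub : {z | v ((c - (1 + τ)⁻¹ • c) + (1 + τ)⁻¹ • z) ≠ 0} \ D ⊆
      ((ctr c τ) ⁻¹' B ∪ (ctr c τ) ⁻¹' X) ∪ ((ctr c τ) ⁻¹' Db \ Db) := by
    rintro z ⟨hz1, hz2⟩
    by_cases h1 : ctr c τ z ∈ Db
    · exact Or.inr ⟨h1, fun h => hz2 (hDb h)⟩
    · left
      by_cases h2 : ctr c τ z ∈ X
      · exact Or.inr h2
      · left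
        exact ⟨hz1, fun h => h.elim h1 h2⟩
  have hvol : volume ({z | v ((c - (1 + τ)⁻¹ • c) + (1 + τ)⁻¹ • z) ≠ 0} \ D) ≤ ENNReal.ofReal s' := by
    refine (measure_mono hsub).trans ((measure_union_le _ _).trans ?_)
    have e1 : volume ((ctr c τ) ⁻¹' B ∪ (ctr c τ) ⁻¹' X) ≤ ENNReal.ofReal ((1 + τ) ^ d * x) := by
      refine (measure_union_le _ _).trans ?_
      have e2 : volume ((ctr c τ) ⁻¹' B) = 0 := by
        have := vol_affine_preimage B (c - (1 + τ)⁻¹ • c) hr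
        rw [hB0, mul_zero] at this
        exact this
      have e3 : volume ((ctr c τ) ⁻¹' X) ≤ ENNReal.ofReal ((1 + τ) ^ d * x) := by
        have := vol_affine_preimage X (c - (1 + τ)⁻¹ • c) hr
        have e4 : (((1 + τ)⁻¹) ^ d)⁻¹ = (1 + τ) ^ d := by rw [inv_pow, inv_inv]
        rw [e4] at this
        have e5 : volume ((ctr c τ) ⁻¹' X) = ENNReal.ofReal ((1 + τ) ^ d) * volume X := this
        rw [e5, ENNReal.ofReal_mul (by positivity)]
        gcongr
      rw [e2, zero_add]; exact e3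
    refine (add_le_add e1 hy).trans ?_
    rw [← ENNReal.ofReal_add (by positivity) hy0]
    exact ENNReal.ofReal_le_ofReal hxy
  have hfin := hmin _ _ hH hvol
  rw [mass_affine v _ hr, dir_affine h _ hr] at hfin
  have hrd : 0 < (((1 + τ)⁻¹) ^ d)⁻¹ := by positivity
  have h2 : Λ * mass v ≤ ((1 + τ)⁻¹) ^ 2 * dir h := by
    have : (((1 + τ)⁻¹) ^ d)⁻¹ * (Λ * mass v) ≤ (((1 + τ)⁻¹) ^ d)⁻¹ * (((1 + τ)⁻¹) ^ 2 * dir h) := by
      linarith
    exact le_of_mul_le_mul_left this hrd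
  have h3 : (1 + τ) ^ 2 * (Λ * mass v) ≤ (1 + τ) ^ 2 * (((1 + τ)⁻¹) ^ 2 * dir h) :=
    mul_le_mul_of_nonneg_left h2 (by positivity)
  have h4 : (1 + τ) ^ 2 * (((1 + τ)⁻¹) ^ 2 * dir h) = dir h := by
    rw [← mul_assoc, ← mul_pow, mul_inv_cancel₀ h1τ.ne']; ring
  linarith

lemma left_meas (i₀ : Fin d) (t : ℝ) : MeasurableSet {x : V d | x i₀ < t} :=
  measurableSet_lt (measurable_pi_apply i₀) measurable_const

theorem iteration {C : ℝ} (hC : ∀ r, |deriv ang r| ≤ C) (i₀ : Fin d) {Da Db X : Set (V d)}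
    (hDam : MeasurableSet Da) (hDbm : MeasurableSet Db) (hXm : MeasurableSet X)
    (hDaf : volume Da < ⊤) (hDbf : volume Db < ⊤)
    {s' Λ K ℓ₀ ρ : ℝ} {p : ℕ} (hp : 0 < p) (hℓ₀ : 0 < ℓ₀) (hs' : 0 ≤ s') (hK : s' ≤ K) (hK0 : 0 < K)
    (hΛ : 0 < Λ) (hρ : ρ = 4 * (d * 2 ^ d) * C ^ 2 / p ^ 2) (hρ1 : ρ ≤ (1 / 2) ^ d) (hd : 0 < d)
    (hKℓ : 2 * K ≤ (ℓ₀ / p) ^ d / 2)
    (hX : volume X ≤ ENNReal.ofReal s')
    (hDa : ∀ x ∈ Da, x i₀ < 0) (hDb : ∀ x ∈ Db, 2 * ℓ₀ < x i₀)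
    (H1 : ∀ w h, IsH1 w h → (∀ᵐ x, w x ≠ 0 → x ∈ Da ∪ X) → 2 * Λ * mass w ≤ dir h)
    (H2 : ∀ t, 0 ≤ t → t ≤ 2 * ℓ₀ → ∀ v h, IsH1 v h →
      (∀ᵐ x, v x ≠ 0 → x ∈ Db ∪ (X ∩ {x | t ≤ x i₀})) →
      (1 + volume.real (X ∩ {x | x i₀ < t}) / K) ^ 2 * Λ * mass v ≤ dir h)
    (H3 : ∀ ε, 0 < ε → ∃ u g, IsH1 u g ∧ mass u = 1 ∧ dir g ≤ Λ * (1 + ε) ∧
      ∀ᵐ x, u x ≠ 0 → x ∈ (Da ∪ Db) ∪ X) :
    volume (X ∩ {x | x i₀ < 0}) = 0 := by
  have hXf : volume X < ⊤ := hX.trans_lt ENNReal.ofReal_lt_top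
  have hp' : (0:ℝ) < p := by exact_mod_cast hp
  set F : ℝ → ℝ := fun t => volume.real (X ∩ {x | x i₀ < t}) with hF
  have hFfin : ∀ t, volume (X ∩ {x | x i₀ < t}) ≠ ⊤ := fun t =>
    ne_top_of_le_ne_top hXf.ne (measure_mono inter_subset_left)
  have hFmono : Monotone F := by
    intro t t' htt
    exact measureReal_mono (inter_subset_inter_right _ (fun x (hx : x i₀ < t) => lt_of_lt_of_le hx htt))
      (hFfin t')
  have hF0 : ∀ t, 0 ≤ F t := fun t => measureReal_nonneg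
  have hFs : ∀ t, F t ≤ s' := by
    intro t
    have h1 : volume (X ∩ {x | x i₀ < t}) ≤ ENNReal.ofReal s' := (measure_mono inter_subset_left).trans hX
    exact ENNReal.toReal_le_of_le_ofReal hs' h1
  have hρ0 : 0 ≤ ρ := by rw [hρ]; positivity
  have hρ2 : ρ ≤ 1 / 2 := by
    refine hρ1.trans ?_
    calc ((1:ℝ) / 2) ^ d ≤ (1 / 2) ^ 1 := pow_le_pow_of_le_one (by norm_num) (by norm_num) hd
      _ = 1 / 2 := pow_one _
  have key : ∀ j : ℕ, F (2 * ℓ₀ * (1 / 2) ^ j) ≤ 2 * K * ρ ^ j ∧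
      ∀ ε, 0 < ε → ε ≤ 1 / 8 → ∀ u g, IsH1 u g → mass u = 1 → dir g ≤ Λ * (1 + ε) →
        (∀ᵐ x, u x ≠ 0 → x ∈ (Da ∪ Db) ∪ X) →
        ∫ x in {x : V d | x i₀ < 2 * ℓ₀ * (1 / 2) ^ j}, ∑ i, g i x ^ 2 ≤ Λ * (2 * ρ ^ j + 4 * ε) := by
    intro j
    induction j with
    | zero =>
      refine ⟨?_, ?_⟩
      · have := hFs (2 * ℓ₀ * (1 / 2) ^ 0)
        simp only [pow_zero, mul_one] at this ⊢
        linarith
      · intro ε hε hε8 u g hu hm hdg _
        have h1 : ∫ x in {x : V d | x i₀ < 2 * ℓ₀ * (1 / 2) ^ 0}, ∑ i, g i x ^ 2 ≤ dir g :=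
          setIntegral_le_integral (dir_integrable hu) (Eventually.of_forall
            (fun _ => Finset.sum_nonneg (fun _ _ => sq_nonneg _)))
        simp only [pow_zero, mul_one] at h1 ⊢
        nlinarith
    | succ j ih =>
      obtain ⟨ihF, ihE⟩ := ih
      set tj : ℝ := 2 * ℓ₀ * (1 / 2) ^ j with htj
      set ℓ : ℝ := ℓ₀ * (1 / 2) ^ j with hℓd
      have hℓ : 0 < ℓ := by positivity
      have ht' : 2 * ℓ₀ * (1 / 2) ^ (j + 1) = tj - ℓ := by
        rw [htj, hℓd, pow_succ]; ring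
      have htt : (tj - ℓ) + ℓ = tj := by ring
      have ht0 : 0 ≤ tj - ℓ := by rw [← ht']; positivity
      have htT : tj ≤ 2 * ℓ₀ := by
        rw [htj]
        have : ((1:ℝ) / 2) ^ j ≤ 1 := pow_le_one₀ (by norm_num) (by norm_num)
        nlinarith
      rw [ht']
      -- the basic estimate
      have basic : ∀ ε, 0 < ε → ε ≤ 1 / 8 → ∀ u g, IsH1 u g → mass u = 1 → dir g ≤ Λ * (1 + ε) →
        (∀ᵐ x, u x ≠ 0 → x ∈ (Da ∪ Db) ∪ X) →
        ∫ x in {x : V d | x i₀ < tj - ℓ}, ∑ i, g i x ^ 2 ≤ Λ * (2 * ρ ^ (j + 1) + 4 * ε) ∧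
          F (tj - ℓ) / K ≤ 2 * ρ ^ (j + 1) + 4 * ε := by
        intro ε hε hε8 u g hu hm hdg hsupp
        obtain ⟨v, gv, w, gw, hv, hw, hmm, hdd, hv0, hw0, huv, huw, hE⟩ := hu.cut hC i₀ (tj - ℓ) hℓ
        rw [htt] at hdd hw0
        have hEj := ihE ε hε hε8 u g hu hm hdg hsupp
        set Ej := ∫ x in {x : V d | x i₀ < tj}, ∑ i, g i x ^ 2 with hEjd
        -- cost
        have hslab : C ^ 2 / ℓ ^ 2 * ∫ x in slab i₀ (tj - ℓ) tj, u x ^ 2 ≤ ρ / 2 * Ej := by
          have hNm : MeasurableSet ((Da ∪ Db) ∪ X) := (hDam.union hDbm).union hXm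
          have hNf : volume ((Da ∪ Db) ∪ X) < ⊤ :=
            measure_union_lt_top (measure_union_lt_top hDaf hDbf) hXf
          have hNs : volume.real (((Da ∪ Db) ∪ X) ∩ slab i₀ (tj - ℓ) ((tj - ℓ) + ℓ)) ≤
              (ℓ / p) ^ d / 2 := by
            have hsub : ((Da ∪ Db) ∪ X) ∩ slab i₀ (tj - ℓ) ((tj - ℓ) + ℓ) ⊆ X ∩ {x | x i₀ < tj} := by
              rintro x ⟨hx1, hx2, hx3⟩
              rw [htt] at hx3
              refine ⟨?_, hx3⟩
              rcases hx1 with (hx1 | hx1) | hx1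
              · exact absurd (hDa x hx1) (by linarith)
              · exact absurd (hDb x hx1) (by linarith)
              · exact hx1
            have h1 : volume.real (((Da ∪ Db) ∪ X) ∩ slab i₀ (tj - ℓ) ((tj - ℓ) + ℓ)) ≤ F tj :=
              measureReal_mono hsub (hFfin tj)
            refine h1.trans (ihF.trans ?_)
            have h2 : ρ ^ j ≤ ((1 / 2) ^ j) ^ d := by
              rw [← pow_mul, mul_comm j d, pow_mul]
              exact pow_le_pow_left₀ hρ0 hρ1 j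
            have h3 : (ℓ / p) ^ d = (ℓ₀ / p) ^ d * ((1 / 2) ^ j) ^ d := by
              rw [← mul_pow, hℓd]; congr 1; ring
            rw [h3]
            have h4 : 0 ≤ ((1 / 2 : ℝ) ^ j) ^ d := by positivity
            calc 2 * K * ρ ^ j ≤ 2 * K * ((1 / 2) ^ j) ^ d :=
                  mul_le_mul_of_nonneg_left h2 (by positivity)
              _ ≤ (ℓ₀ / p) ^ d / 2 * ((1 / 2) ^ j) ^ d := mul_le_mul_of_nonneg_right hKℓ h4
              _ = _ := by ring
          have hsp := hu.slab_poincare i₀ (t := tj - ℓ) hℓ hp hNm hNf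
            (by filter_upwards [hsupp] with x hx hxN
                by_contra hne
                exact hxN (hx hne)) hNs
          rw [htt] at hsp
          have h5 : ∫ x in slab i₀ (tj - ℓ) tj, ∑ i, g i x ^ 2 ≤ Ej :=
            setIntegral_mono_set (dir_integrable hu).integrableOn
              (Eventually.of_forall (fun _ => Finset.sum_nonneg (fun _ _ => sq_nonneg _)))
              (LE.le.eventuallyLE (show slab i₀ (tj - ℓ) tj ≤ {x : V d | x i₀ < tj} from
                fun x hx => hx.2))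
          calc C ^ 2 / ℓ ^ 2 * ∫ x in slab i₀ (tj - ℓ) tj, u x ^ 2
              ≤ C ^ 2 / ℓ ^ 2 * (2 * (d * 2 ^ d) * (ℓ / p) ^ 2 *
                  ∫ x in slab i₀ (tj - ℓ) tj, ∑ i, g i x ^ 2) :=
                mul_le_mul_of_nonneg_left hsp (by positivity)
            _ = ρ / 2 * ∫ x in slab i₀ (tj - ℓ) tj, ∑ i, g i x ^ 2 := by
                rw [hρ]; field_simp; ring
            _ ≤ ρ / 2 * Ej := mul_le_mul_of_nonneg_left h5 (by positivity)
        have hw1 := H1 w gw hw (by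
          filter_upwards [hsupp] with x hx hwx
          have hux : u x ≠ 0 := fun h => hwx (huw x h)
          have hxt : x i₀ < tj := by
            by_contra hcon
            exact hwx (hw0 x (not_lt.1 hcon))
          rcases hx hux with (h1 | h1) | h1
          · exact Or.inl h1
          · exact absurd (hDb x h1) (by linarith)
          · exact Or.inr h1)
        have hv1 := H2 (tj - ℓ) ht0 (by linarith) v gv hv (by
          filter_upwards [hsupp] with x hx hvx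
          have hux : u x ≠ 0 := fun h => hvx (huv x h)
          have hxt : tj - ℓ < x i₀ := by
            by_contra hcon
            exact hvx (hv0 x (not_lt.1 hcon))
          rcases hx hux with (h1 | h1) | h1
          · exact absurd (hDa x h1) (by linarith)
          · exact Or.inl h1
          · exact Or.inr ⟨h1, hxt.le⟩)
        set τ := F (tj - ℓ) / K with hτ
        have hτ0 : 0 ≤ τ := div_nonneg (hF0 _) hK0.le
        have hv2 : (1 + 2 * τ) * Λ * mass v ≤ dir gv := by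
          refine le_trans ?_ hv1
          have hmv := mass_nonneg v
          have : (1 + 2 * τ) ≤ (1 + τ) ^ 2 := by nlinarith
          have h0 : 0 ≤ Λ * mass v := mul_nonneg hΛ.le hmv
          nlinarith
        have hmv := mass_nonneg v
        have hmw := mass_nonneg w
        rw [hm] at hmm
        -- combine
        have comb : 2 * τ * Λ * mass v + dir gw / 2 ≤ Λ * ε + ρ / 2 * Ej := by
          have h1 : dir gv + dir gw ≤ Λ * (1 + ε) + ρ / 2 * Ej := by linarith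
          have h2 : Λ * mass v + Λ * mass w = Λ := by rw [← mul_add, hmm, mul_one]
          nlinarith
        have hρj : ρ ^ j ≤ 1 := pow_le_one₀ hρ0 (by linarith)
        have hρj0 : 0 ≤ ρ ^ j := by positivity
        have hEρ : ρ * Ej ≤ Λ * (2 * ρ ^ (j + 1) + 4 * ρ * ε) := by
          have := mul_le_mul_of_nonneg_left hEj hρ0
          refine this.trans (le_of_eq ?_)
          rw [pow_succ]; ring
        have hEρ' : ρ * Ej ≤ Λ * (2 * ρ ^ (j + 1) + 2 * ε) := by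
          refine hEρ.trans (mul_le_mul_of_nonneg_left ?_ hΛ.le)
          nlinarith
        have hgw0 := dir_nonneg gw
        have hτv : 0 ≤ 2 * τ * Λ * mass v := by positivity
        refine ⟨?_, ?_⟩
        · refine hE.trans ?_
          have : dir gw ≤ 2 * (Λ * ε) + ρ * Ej := by linarith
          nlinarith
        · -- mass v ≥ 1/4
          have hmw1 : mass w ≤ 3 / 4 := by
            have h1 : 2 * Λ * mass w ≤ 2 * (Λ * ε) + ρ * Ej := by linarith
            have h2 : ρ ^ (j + 1) ≤ 1 / 2 := by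
              rw [pow_succ]
              nlinarith
            have h3 : 2 * Λ * mass w ≤ Λ * (4 * ε + 1) := by nlinarith
            have h4 : 2 * mass w ≤ 4 * ε + 1 := by
              have : Λ * (2 * mass w) ≤ Λ * (4 * ε + 1) := by linarith
              exact le_of_mul_le_mul_left this hΛ
            linarith
          have hmv1 : 1 / 4 ≤ mass v := by linarith
          have h1 : 2 * τ * Λ * (1 / 4) ≤ 2 * τ * Λ * mass v :=
            mul_le_mul_of_nonneg_left hmv1 (by positivity)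
          have h2 : Λ * τ ≤ Λ * (2 * ρ ^ (j + 1) + 4 * ε) := by nlinarith
          exact le_of_mul_le_mul_left h2 hΛ
      refine ⟨?_, fun ε hε hε8 u g hu hm hdg hsupp => (basic ε hε hε8 u g hu hm hdg hsupp).1⟩
      -- let ε → 0
      have h1 : ∀ ε, 0 < ε → ε ≤ 1 / 8 → F (tj - ℓ) / K ≤ 2 * ρ ^ (j + 1) + 4 * ε := by
        intro ε hε hε8
        obtain ⟨u, g, hu, hm, hdg, hsupp⟩ := H3 ε hε
        exact (basic ε hε hε8 u g hu hm hdg hsupp).2
      have h2 : F (tj - ℓ) / K ≤ 2 * ρ ^ (j + 1) := by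
        by_contra hcon
        rw [not_le] at hcon
        set δ := F (tj - ℓ) / K - 2 * ρ ^ (j + 1) with hδ
        have hδ0 : 0 < δ := by linarith
        have := h1 (min (δ / 8) (1 / 8)) (lt_min (by linarith) (by norm_num)) (min_le_right _ _)
        have h3 : min (δ / 8) (1 / 8) ≤ δ / 8 := min_le_left _ _
        linarith
      rw [div_le_iff₀ hK0] at h2
      linarith
  have hlim : Tendsto (fun j : ℕ => 2 * K * ρ ^ j) atTop (𝓝 0) := by
    have := (tendsto_pow_atTop_nhds_zero_of_lt_one hρ0 (by linarith)).const_mul (2 * K)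
    simpa using this
  have hF00 : F 0 ≤ 0 := ge_of_tendsto' hlim (fun j => (hFmono (by positivity)).trans (key j).1)
  have hF01 : volume.real (X ∩ {x | x i₀ < 0}) = 0 := le_antisymm hF00 (hF0 0)
  exact (measureReal_eq_zero_iff (hFfin 0)).1 hF01

end OptSet
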