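import Pool.Agent.Lib.MP_c499db_an.Opt

open MeasureTheory Set Filter Topology
open scoped ENNReal ContDiff

namespace OptSet

variable {d : ℕ}

/-- Step (ii): the optimal set at the small measure has extra mass on the left. -/
lemma left_mass (hd : 0 < d) (i₀ : Fin d) {A T η κ : ℝ} {N : ℕ} (hA : 0 < A) (hT : 0 ≤ T)
    (hη0 : 0 < η) (hη1 : η ≤ 1) (hκ : 2 * (d * 2 ^ d) * κ < η * A ^ 2)
    {Λ : ℝ} (hΛ : 0 < Λ) (hΛκ : Λ * A ^ 2 ≤ κ)
    {u : V d → ℝ} {g : Fin d → V d → ℝ} (hu : IsH1 u g) (hm : 0 < mass u)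
    (hv : volume ({x | u x ≠ 0} \ (DA i₀ A ∪ DB i₀ T η N)) ≤ ENNReal.ofReal (η / 2))
    (hle : dir g ≤ Λ * mass u)
    (hmin : ∀ v h, IsH1 v h → volume ({x | v x ≠ 0} \ (DA i₀ A ∪ DB i₀ T η N)) ≤
      ENNReal.ofReal (η / 2) → Λ * mass v ≤ dir h) :
    0 < volume (({x | u x ≠ 0} \ (DA i₀ A ∪ DB i₀ T η N)) ∩ {x | x i₀ < 0}) := by
  rw [pos_iff_ne_zero]
  intro h0
  set D := DA i₀ A ∪ DB i₀ T η N with hD
  set X : Set (V d) := toMeasurable volume ({x | u x ≠ 0} \ D) with hX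
  have hXm : MeasurableSet X := measurableSet_toMeasurable _ _
  have hXv : volume X ≤ ENNReal.ofReal (η / 2) := by rw [hX, measure_toMeasurable]; exact hv
  have hDleft : ∀ x, x ∈ D → x i₀ < 0 → x ∈ DA i₀ A := by
    rintro x (hx | hx) h
    · exact hx
    · exfalso
      obtain ⟨⟨k, _, h1, _⟩, _⟩ := mem_DB.1 hx
      have : (0:ℝ) ≤ k := Nat.cast_nonneg k
      linarith
  have hae : ∀ᵐ x, x i₀ < 0 → u x ≠ 0 → x ∈ DA i₀ A := by
    filter_upwards [measure_eq_zero_iff_ae_notMem.1 h0] with x hx h1 h2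
    by_contra h3
    exact hx ⟨⟨h2, fun h4 => h3 (hDleft x h4 h1)⟩, h1⟩
  obtain ⟨C, hC0, hC⟩ := exists_ang_bound
  obtain ⟨v, gv, w, gw, hvH, hwH, hmass, hdir, hv1, hw1, hv2, hw2, -⟩ :=
    hu.cut hC i₀ (-1) one_pos
  have hslab : ∫ x in slab i₀ (-1) (-1 + 1), u x ^ 2 = 0 := by
    have : ∫ x in slab i₀ (-1) (-1 + 1), u x ^ 2 = ∫ x in slab i₀ (-1) (-1 + 1), (0:ℝ) := by
      apply setIntegral_congr_ae (slab_meas _ _ _)
      filter_upwards [hae] with x hx hxs
      have h1 : x i₀ < 0 := by have := hxs.2; linarith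
      by_contra hne
      have h2 : u x ≠ 0 := fun h => hne (by rw [h]; simp)
      have h3 := (mem_DA.1 (hx h1 h2)).1.2
      have := hxs.1
      linarith
    rw [this]; simp
  rw [hslab, mul_zero, add_zero] at hdir
  -- the part `w`
  have hwsupp : ∀ᵐ x, w x ≠ 0 → x ∈ DA i₀ A ∪ (∅ : Set (V d)) := by
    filter_upwards [hae] with x hx hw
    left
    apply hx
    · by_contra h; exact hw (hw1 x (by linarith [not_lt.1 h]))
    · intro h; exact hw (hw2 x h)
  obtain ⟨τ, hτ, hτw⟩ := dil_strict (D := D) (Db := DA i₀ A) (X := ∅) subset_union_left (aa i₀ A)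
    (K := d * (A * (2 * A) ^ (d - 1))) (by positivity) (fun τ h0 h1 => by
      have := dil_box (a := aa i₀ A) (b := fun i => aa i₀ A i + A) (c := aa i₀ A) (M := A)
        (fun _ => le_rfl) (fun _ => le_rfl) h0 h1 hA.le
      refine this.trans (ENNReal.ofReal_le_ofReal ?_)
      apply le_of_eq; ring) hmin (x := 0) le_rfl (by simp) (by positivity) hwH hwsupp
  -- the part `v`
  have hvsupp : ∀ᵐ x, x ∉ DB i₀ T η N ∪ X → v x = 0 := by
    filter_upwards [hae] with x hx hxn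
    by_contra hne
    have h1 : -1 < x i₀ := by
      by_contra h; exact hne (hv1 x (not_lt.1 h))
    have h2 : u x ≠ 0 := fun h => hne (hv2 x h)
    by_cases h3 : x i₀ < 0
    · have := (mem_DA.1 (hx h3 h2)).1.2
      linarith
    · by_cases h4 : x ∈ D
      · rcases h4 with h4 | h4
        · have := (mem_DA.1 h4).1.2; linarith
        · exact hxn (Or.inl h4)
      · exact hxn (Or.inr (subset_toMeasurable _ _ ⟨h2, h4⟩))
  have hgrid : mass v ≤ (d * 1 ^ 2 * 2 ^ d * 1 ^ d / (η / 2)) * dir gv := by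
    have := hvH.grid (R := univ) MeasurableSet.univ (cb i₀ T) one_pos (fun j => Or.inl (subset_univ _))
      (N := DB i₀ T η N ∪ X) ((DB_open _ _ _ _).measurableSet.union hXm)
      (by filter_upwards [hvsupp] with x hx _; exact hx) (β := η / 2) (by positivity) (fun j _ => by
        rw [one_pow]
        have e1 : volume ((DB i₀ T η N ∪ X) ∩ cube (cb i₀ T) 1 j) ≤
            ENNReal.ofReal (1 - η / 2) := by
          rw [union_inter_distrib_right]
          refine (measure_union_le _ _).trans ((add_le_add (cell_volume hη0.le hη1 j)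
            ((measure_mono inter_subset_left).trans hXv)).trans ?_)
          rw [← ENNReal.ofReal_add (by linarith) (by positivity)]
          exact ENNReal.ofReal_le_ofReal (by linarith)
        exact ENNReal.toReal_le_of_le_ofReal (by linarith) e1)
    simpa [mass, dir] using this
  have hd' : (0:ℝ) < d := by exact_mod_cast hd
  have hgrid2 : η * mass v ≤ 2 * (d * 2 ^ d) * dir gv := by
    have e1 : (d * 1 ^ 2 * 2 ^ d * 1 ^ d / (η / 2)) * dir gv = (2 * (d * 2 ^ d) * dir gv) / η := by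
      simp only [one_pow]; field_simp
    rw [e1, le_div_iff₀ hη0] at hgrid
    linarith
  have hmv := mass_nonneg v
  have hmw := mass_nonneg w
  have hgv := dir_nonneg gv
  -- Λ mass v ≤ dir gv with strictness
  have hA2 : 0 < A ^ 2 := by positivity
  have hCP : (0:ℝ) < 2 * (d * 2 ^ d) := by positivity
  have k1 : (2 * (d * 2 ^ d)) * Λ < η := by
    have : (2 * (d * 2 ^ d)) * Λ * A ^ 2 < η * A ^ 2 := by
      calc (2 * (d * 2 ^ d)) * Λ * A ^ 2 = (2 * (d * 2 ^ d)) * (Λ * A ^ 2) := by ring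
        _ ≤ (2 * (d * 2 ^ d)) * κ := mul_le_mul_of_nonneg_left hΛκ hCP.le
        _ < _ := hκ
    exact lt_of_mul_lt_mul_right this hA2.le
  rcases hmv.eq_or_lt with hmv0 | hmv0
  · have hmw0 : 0 < mass w := by linarith
    have p1 : 0 < Λ * mass w := mul_pos hΛ hmw0
    have p2 : (1 + τ) ^ 2 * (Λ * mass w) ≤ Λ * mass w := by
      calc (1 + τ) ^ 2 * (Λ * mass w) = (1 + τ) ^ 2 * Λ * mass w := by ring
        _ ≤ dir gw := hτw
        _ ≤ dir g := by linarith
        _ ≤ Λ * mass u := hle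
        _ = Λ * mass w := by rw [← hmass, ← hmv0, zero_add]
    nlinarith [mul_pos p1 hτ]
  · have p1 : Λ * mass v < dir gv := by
      have : (2 * (d * 2 ^ d)) * (Λ * mass v) < (2 * (d * 2 ^ d)) * dir gv := by
        calc (2 * (d * 2 ^ d)) * (Λ * mass v) = ((2 * (d * 2 ^ d)) * Λ) * mass v := by ring
          _ < η * mass v := mul_lt_mul_of_pos_right k1 hmv0
          _ ≤ _ := hgrid2
      exact lt_of_mul_lt_mul_left this hCP.le
    have p2 : Λ * mass w ≤ dir gw := by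
      have : Λ * mass w ≤ (1 + τ) ^ 2 * Λ * mass w := by
        have : 0 ≤ Λ * mass w := mul_nonneg hΛ.le hmw
        nlinarith [mul_nonneg this hτ.le, mul_nonneg this (mul_nonneg hτ.le hτ.le)]
      linarith
    have p3 : Λ * mass u = Λ * mass v + Λ * mass w := by rw [← hmass]; ring
    linarith

/-- Step (iii): at the large measure there is no extra mass on the left. -/
lemma no_left_mass (hd : 0 < d) (i₀ : Fin d) {A η κ ℓ₀ K C : ℝ} {N q p : ℕ} (hA : 0 < A)
    (hη0 : 0 < η) (hN : 0 < N) (hq : 0 < q) (hp : 0 < p)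
    (hC : ∀ r, |deriv ang r| ≤ C)
    (hq2 : 4 * (d * 2 ^ d) * κ ≤ (q:ℝ) ^ 2) (hηq : η * (N:ℝ) ^ d + A ^ d ≤ ((N:ℝ) / q) ^ d / 2)
    (hK : 2 ^ d * (η * N ^ d) + N * (d * (N * (2 * N) ^ (d - 1))) + η * N ^ d ≤ K) (hK0 : 0 < K)
    (hp2 : 4 * (d * 2 ^ d) * C ^ 2 / p ^ 2 ≤ (1 / 2) ^ d)
    (hℓ₀ : 0 < ℓ₀) (hKℓ : 2 * K ≤ (ℓ₀ / p) ^ d / 2)
    {Λ : ℝ} (hΛ : 0 < Λ) (hΛκ : Λ * (N:ℝ) ^ 2 ≤ κ)
    (hmin : ∀ v h, IsH1 v h → volume ({x | v x ≠ 0} \ (DA i₀ A ∪ DB i₀ (2 * ℓ₀) η N)) ≤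
      ENNReal.ofReal (η * N ^ d) → Λ * mass v ≤ dir h)
    {Y : Set (V d)} (hY : volume Y ≤ ENNReal.ofReal (η * N ^ d))
    (hε : ∀ ε : ℝ, 0 < ε → ∃ u g, IsH1 u g ∧ mass u = 1 ∧ dir g ≤ Λ * (1 + ε) ∧
        ∀ᵐ x, u x ≠ 0 → x ∈ (DA i₀ A ∪ DB i₀ (2 * ℓ₀) η N) ∪ Y) :
    volume (Y ∩ {x | x i₀ < 0}) = 0 := by
  set X : Set (V d) := toMeasurable volume Y with hX
  have hXm : MeasurableSet X := measurableSet_toMeasurable _ _
  have hXv : volume X ≤ ENNReal.ofReal (η * N ^ d) := by rw [hX, measure_toMeasurable]; exact hY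
  have hN' : (0:ℝ) < N := by exact_mod_cast hN
  have hq' : (0:ℝ) < q := by exact_mod_cast hq
  have hd' : (0:ℝ) < d := by exact_mod_cast hd
  have hs' : 0 ≤ η * (N:ℝ) ^ d := by positivity
  have hDAv : volume (DA i₀ A) < ⊤ := (DA_volume hA.le).trans_lt ENNReal.ofReal_lt_top
  have hDBv : volume (DB i₀ (2 * ℓ₀) η N) < ⊤ :=
    (measure_mono (subset_union_right.trans (D_bounded (i₀ := i₀) (A := A) (T := 2 * ℓ₀) (η := η)
      (N := N) hA.le (by positivity) hη0.le))).trans_lt measure_closedBall_lt_top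
  have hfinal : volume (X ∩ {x | x i₀ < 0}) = 0 := by
    refine iteration (Da := DA i₀ A) (Db := DB i₀ (2 * ℓ₀) η N) (s' := η * N ^ d) (Λ := Λ) (K := K)
      (ℓ₀ := ℓ₀) (ρ := 4 * (d * 2 ^ d) * C ^ 2 / p ^ 2) (p := p) hC i₀
      (DA_open _ _).measurableSet (DB_open _ _ _ _).measurableSet hXm hDAv hDBv
      hp hℓ₀ hs' ?_ hK0 hΛ rfl hp2 hd hKℓ hXv ?_ ?_ ?_ ?_ ?_
    · have : 0 ≤ 2 ^ d * (η * (N:ℝ) ^ d) + N * (d * (N * (2 * N) ^ (d - 1))) := by positivity
      linarith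
    · intro x hx
      have := (mem_DA.1 hx).1.2
      linarith
    · intro x hx
      obtain ⟨⟨k, _, h1, _⟩, _⟩ := mem_DB.1 hx
      have : (0:ℝ) ≤ k := Nat.cast_nonneg k
      linarith
    · -- H1
      intro w h hw hsupp
      have hv1 : volume (DA i₀ A ∪ X) ≤ ENNReal.ofReal ((N / q) ^ d / 2) := by
        refine (measure_union_le _ _).trans ((add_le_add (DA_volume hA.le) hXv).trans ?_)
        rw [← ENNReal.ofReal_add (by positivity) hs']
        exact ENNReal.ofReal_le_ofReal (by linarith)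
      have hfk := hw.fk (N := DA i₀ A ∪ X) ((DA_open _ _).measurableSet.union hXm)
        (hv1.trans_lt ENNReal.ofReal_lt_top)
        (by filter_upwards [hsupp] with x hx hx2; by_contra hne; exact hx2 (hx hne))
        (L := N / q) (by positivity) (ENNReal.toReal_le_of_le_ofReal (by positivity) hv1)
      -- 2Λ mass w ≤ 2Λ·2CP (N/q)² dir h ≤ dir h
      have hm := mass_nonneg w
      have hdn := dir_nonneg h
      have h1 : 2 * Λ * (2 * (d * 2 ^ d) * (N / q) ^ 2) ≤ 1 := by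
        have e1 : 2 * Λ * (2 * (d * 2 ^ d) * (N / q) ^ 2) = 4 * (d * 2 ^ d) * (Λ * N ^ 2) / (q:ℝ) ^ 2 := by
          field_simp; ring
        rw [e1, div_le_one (by positivity)]
        refine le_trans ?_ hq2
        exact mul_le_mul_of_nonneg_left hΛκ (by positivity)
      calc 2 * Λ * mass w ≤ 2 * Λ * (2 * (d * 2 ^ d) * (N / q) ^ 2 * dir h) :=
            mul_le_mul_of_nonneg_left hfk (by positivity)
        _ = (2 * Λ * (2 * (d * 2 ^ d) * (N / q) ^ 2)) * dir h := by ring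
        _ ≤ 1 * dir h := mul_le_mul_of_nonneg_right h1 hdn
        _ = dir h := one_mul _
    · -- H2
      intro t ht0 ht1 v h hv hsupp
      set F := volume.real (X ∩ {x | x i₀ < t}) with hF
      have hF0 : 0 ≤ F := measureReal_nonneg
      have hXf : volume X < ⊤ := hXv.trans_lt ENNReal.ofReal_lt_top
      have hFs : F ≤ η * N ^ d :=
        ENNReal.toReal_le_of_le_ofReal hs' ((measure_mono inter_subset_left).trans hXv)
      have hτ0 : 0 ≤ F / K := div_nonneg hF0 hK0.le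
      have hb0 : 0 ≤ (N:ℝ) * (d * (N * (2 * N) ^ (d - 1))) := by positivity
      have hFK : F ≤ K := by
        have : 0 ≤ 2 ^ d * (η * (N:ℝ) ^ d) := by positivity
        linarith
      have hτ1 : F / K ≤ 1 := (div_le_one hK0).2 hFK
      have hX2 : volume (X ∩ {x | t ≤ x i₀}) ≤ ENNReal.ofReal (η * N ^ d - F) := by
        have e1 : volume X = volume (X ∩ {x | x i₀ < t}) + volume (X \ {x | x i₀ < t}) :=
          (measure_inter_add_sdiff X (left_meas i₀ t)).symm
        have e2 : X \ {x | x i₀ < t} = X ∩ {x | t ≤ x i₀} := by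
          ext x; simp
        rw [e2] at e1
        have e3 : volume (X ∩ {x | x i₀ < t}) ≠ ⊤ :=
          ne_top_of_le_ne_top hXf.ne (measure_mono inter_subset_left)
        have e4 : volume (X ∩ {x | x i₀ < t}) = ENNReal.ofReal F := (ofReal_measureReal e3).symm
        rw [ENNReal.ofReal_sub _ hF0, ← e4]
        apply ENNReal.le_sub_of_add_le_left e3
        rw [← e1]; exact hXv
      have hy := dil_DB (i₀ := i₀) (T := 2 * ℓ₀) (η := η) (N := N) (c := cb i₀ (2 * ℓ₀)) (M := N)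
        (τ := F / K) (by simp [cb]) (fun i hi => by simp [cb, hi]) (by simp [cb])
        (fun i hi => by simp [cb, hi]) hη0.le hτ0 hτ1 hN'.le
      refine dil (D := DA i₀ A ∪ DB i₀ (2 * ℓ₀) η N) subset_union_right (cb i₀ (2 * ℓ₀)) hτ0 hmin
        (x := η * N ^ d - F) (by linarith) (by positivity) hX2 hy ?_ hv hsupp
      have h1 := one_add_pow_le d hτ0 hτ1
      have h2 : (1 + F / K) ^ d * (η * N ^ d - F) ≤ (1 + 2 ^ d * (F / K)) * (η * N ^ d - F) :=
        mul_le_mul_of_nonneg_right h1 (by linarith)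
      have h3 : (N:ℝ) * (d * (F / K * N * (2 * N) ^ (d - 1))) =
          (N * (d * (N * (2 * N) ^ (d - 1)))) * (F / K) := by ring
      have h4 : (2 ^ d * (η * N ^ d) + N * (d * (N * (2 * N) ^ (d - 1)))) * (F / K) ≤ F := by
        calc (2 ^ d * (η * N ^ d) + N * (d * (N * (2 * N) ^ (d - 1)))) * (F / K)
            ≤ K * (F / K) := mul_le_mul_of_nonneg_right (by linarith) hτ0
          _ = F := mul_div_cancel₀ F hK0.ne'
      rw [h3]
      have h5 : (1 + 2 ^ d * (F / K)) * (η * N ^ d - F) =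
        η * N ^ d - F + 2 ^ d * (η * N ^ d) * (F / K) - 2 ^ d * (F / K) * F := by ring
      have h6 : 0 ≤ 2 ^ d * (F / K) * F := by positivity
      have h7 : (2 ^ d * (η * N ^ d) + N * (d * (N * (2 * N) ^ (d - 1)))) * (F / K) =
        2 ^ d * (η * N ^ d) * (F / K) + (N * (d * (N * (2 * N) ^ (d - 1)))) * (F / K) := by ring
      linarith
    · intro ε hε0
      obtain ⟨u, g, h1, h2, h3, h4⟩ := hε ε hε0
      refine ⟨u, g, h1, h2, h3, ?_⟩
      filter_upwards [h4] with x hx hx2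
      rcases hx hx2 with h | h
      · exact Or.inl h
      · exact Or.inr (subset_toMeasurable _ _ h)
  refine le_antisymm ?_ zero_le
  rw [← hfinal]
  exact measure_mono (inter_subset_inter_left _ (subset_toMeasurable _ _))

end OptSet
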