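import Pool.Agent.Lib.MP_c499db_an.Sob

open MeasureTheory Set Filter Topology
open scoped ENNReal ContDiff Convolution

namespace OptSet

variable {d : ℕ}

lemma norm_toLp_sq {f : V d → ℝ} (hf : MemLp f 2 volume) : ‖hf.toLp f‖ ^ 2 = ∫ x, f x ^ 2 := by
  rw [← real_inner_self_eq_norm_sq, L2.inner_def]
  apply integral_congr_ae
  filter_upwards [hf.coeFn_toLp] with x hx
  rw [hx]
  simp [pow_two]

lemma ofReal_integral_sq {f : V d → ℝ} (hf : MemLp f 2 volume) :
    ENNReal.ofReal (∫ x, f x ^ 2) = ∫⁻ x, ‖f x‖ₑ ^ 2 := by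
  rw [ofReal_integral_eq_lintegral_ofReal (integrable_sq' hf) (Eventually.of_forall (fun x => sq_nonneg _))]
  congr 1; ext x
  rw [← ofReal_norm, ← ENNReal.ofReal_pow (norm_nonneg _)]
  simp

/-- continuity of translations in `L²` -/
lemma translation_small {f : V d → ℝ} (hf : MemLp f 2 volume) {ε : ℝ} (hε : 0 < ε) :
    ∃ δ > 0, ∀ t : V d, ‖t‖ < δ → ∫⁻ x, ‖f (x - t) - f x‖ₑ ^ 2 ≤ ENNReal.ofReal ε := by
  let F : V d → Lp ℝ 2 (volume : Measure (V d)) := fun t =>
    Lp.compMeasurePreserving (fun x => x - t) (measurePreserving_sub_right volume t) (hf.toLp f)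
  let G : C(V d, C(V d, V d)) := ContinuousMap.curry ⟨fun p : V d × V d => p.2 - p.1, by fun_prop⟩
  have hF : Continuous F := by
    rw [continuous_iff_continuousAt]
    intro t
    exact Filter.Tendsto.compMeasurePreservingLp (g := fun t => G t) (f := fun _ => hf.toLp f)
      (f₀ := hf.toLp f) (g₀ := G t) tendsto_const_nhds
      (G.continuous.tendsto t) (fun t => measurePreserving_sub_right volume t)
      (measurePreserving_sub_right volume t) (by simp)
  have h0 : Tendsto (fun t => ‖F t - F 0‖ ^ 2) (𝓝 0) (𝓝 0) := by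
    have := ((hF.tendsto 0).sub_const (F 0)).norm.pow 2
    simpa using this
  have h1 : ∀ᶠ t in 𝓝 (0 : V d), ‖F t - F 0‖ ^ 2 < ε := h0.eventually_lt_const hε
  rw [Metric.eventually_nhds_iff] at h1
  obtain ⟨δ, hδ, h1⟩ := h1
  refine ⟨δ, hδ, fun t ht => ?_⟩
  have h2 := h1 (y := t) (by simpa using ht)
  have m1 : MemLp (fun x => f (x - t)) 2 volume := hf.comp_measurePreserving (measurePreserving_sub_right volume t)
  have e1 : F t - F 0 = (m1.sub hf).toLp _ := by
    have a1 : F t = m1.toLp _ := Lp.toLp_compMeasurePreserving hf (measurePreserving_sub_right volume t)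
    have a0 : F 0 = hf.toLp _ := by
      have := Lp.toLp_compMeasurePreserving hf (measurePreserving_sub_right (volume : Measure (V d)) 0)
      simp only [F]
      rw [this]
      congr 1
      ext x; simp
    rw [a1, a0, ← MemLp.toLp_sub]
  rw [e1, norm_toLp_sq] at h2
  have h3 := ofReal_integral_sq (m1.sub hf)
  simp only [Pi.sub_apply] at h3 h2
  rw [← h3]
  exact ENNReal.ofReal_le_ofReal h2.le

/-- the mollification -/
noncomputable def moll (b : ContDiffBump (0 : V d)) (f : V d → ℝ) (x : V d) : ℝ :=
  ∫ t, b.normed volume t * f (x - t)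

lemma moll_eq (b : ContDiffBump (0 : V d)) (f : V d → ℝ) :
    moll b f = (b.normed volume ⋆[ContinuousLinearMap.lsmul ℝ ℝ, volume] f) := by
  ext x
  simp [moll, convolution_def]

lemma moll_eq_swap (b : ContDiffBump (0 : V d)) (f : V d → ℝ) (x : V d) :
    moll b f x = ∫ t, b.normed volume (x - t) * f t := by
  rw [moll_eq, convolution_eq_swap]
  simp

lemma moll_contDiff (b : ContDiffBump (0 : V d)) {f : V d → ℝ} (hf : MemLp f 2 volume) :
    ContDiff ℝ ∞ (moll b f) := by
  rw [moll_eq]
  exact b.hasCompactSupport_normed.contDiff_convolution_left _ b.contDiff_normed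
    (hf.locallyIntegrable (by norm_num))

lemma pd_moll (b : ContDiffBump (0 : V d)) {u : V d → ℝ} {g : Fin d → V d → ℝ} (hu : IsH1 u g)
    (i : Fin d) (x : V d) : pd i (moll b u) x = moll b (g i) x := by
  have hli : LocallyIntegrable u (volume : Measure (V d)) := hu.memLp.locallyIntegrable (by norm_num)
  have hcs := b.hasCompactSupport_normed (μ := (volume : Measure (V d)))
  have hsm : ContDiff ℝ ∞ (b.normed (volume : Measure (V d))) := b.contDiff_normed
  have h1 := hcs.hasFDerivAt_convolution_left
    (ContinuousLinearMap.lsmul ℝ ℝ) (μ := (volume : Measure (V d)))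
    (b.contDiff_normed (n := 1)) hli x
  rw [← moll_eq] at h1
  have hex : Integrable (fun t => (ContinuousLinearMap.precompL (V d) (ContinuousLinearMap.lsmul ℝ ℝ : ℝ →L[ℝ] ℝ →L[ℝ] ℝ))
      (fderiv ℝ (b.normed volume) (x - t)) (u t)) volume := by
    have := (hcs.fderiv ℝ).convolutionExists_left (μ := (volume : Measure (V d)))
      (ContinuousLinearMap.precompL (V d) (ContinuousLinearMap.lsmul ℝ ℝ : ℝ →L[ℝ] ℝ →L[ℝ] ℝ))
      (hsm.continuous_fderiv (by simp)) hli x
    exact this.integrable_swap
  unfold pd
  rw [h1.fderiv, convolution_eq_swap, ContinuousLinearMap.integral_apply hex]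
  simp only [ContinuousLinearMap.precompL_apply, ContinuousLinearMap.lsmul_apply, smul_eq_mul]
  -- test function
  set Φ : V d → ℝ := fun y => b.normed volume (x - y) with hΦ
  have hΦs : ContDiff ℝ ∞ Φ := hsm.comp (by fun_prop)
  have hΦc : HasCompactSupport Φ := by
    have hh : IsHomeomorph (fun y : V d => x - y) := (Homeomorph.subLeft x).isHomeomorph
    exact hcs.comp_isClosedEmbedding hh.isClosedEmbedding
  have hw := hu.weak Φ hΦs hΦc i
  have hpd : ∀ y, pd i Φ y = - (fderiv ℝ (b.normed volume) (x - y)) (Pi.single i 1) := by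
    intro y
    unfold pd
    have a1 : HasFDerivAt (b.normed (volume : Measure (V d))) (fderiv ℝ (b.normed volume) (x - y)) (x - y) :=
      ((hsm.differentiable (by simp)) _).hasFDerivAt
    have a2 : HasFDerivAt (fun y : V d => x - y) (-ContinuousLinearMap.id ℝ (V d)) y :=
      (hasFDerivAt_id (𝕜 := ℝ) y).const_sub x
    have a3 := a1.comp y a2
    have a4 : Φ = (b.normed volume) ∘ (fun y => x - y) := rfl
    rw [a4, a3.fderiv]
    simp
  simp only [hpd] at hw
  rw [moll_eq_swap]
  have e1 : ∫ y, (fderiv ℝ (b.normed volume) (x - y)) (Pi.single i 1) * u y =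
      - ∫ y, u y * -(fderiv ℝ (b.normed volume) (x - y)) (Pi.single i 1) := by
    rw [← integral_neg]; congr 1; ext y; ring
  rw [e1, hw, neg_neg]
  congr 1; ext y; ring

lemma moll_sub_le (b : ContDiffBump (0 : V d)) {f : V d → ℝ} (hf : MemLp f 2 volume) (x : V d) :
    ‖moll b f x - f x‖ₑ ^ 2 ≤
      ∫⁻ t, ENNReal.ofReal (b.normed volume t) * ‖f (x - t) - f x‖ₑ ^ 2 := by
  have hρ0 : ∀ t, 0 ≤ b.normed (volume : Measure (V d)) t := fun t => b.nonneg_normed t
  have hcs := b.hasCompactSupport_normed (μ := (volume : Measure (V d)))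
  have hcont : Continuous (b.normed (volume : Measure (V d))) := b.continuous_normed
  have hρ2 : MemLp (b.normed (volume : Measure (V d))) 2 volume :=
    hcont.memLp_of_hasCompactSupport hcs
  have hfx : MemLp (fun t => f (x - t)) 2 volume :=
    hf.comp_measurePreserving (Measure.measurePreserving_sub_left volume x)
  have I1 : Integrable (fun t => b.normed volume t * f (x - t)) volume := integrable_mul hρ2 hfx
  have I3 : Integrable (fun t => b.normed (volume : Measure (V d)) t) volume := b.integrable_normed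
  obtain ⟨B, hB⟩ := hcs.exists_bound_of_continuous hcont
  have I2 : Integrable (fun t => b.normed volume t * f (x - t) ^ 2) volume :=
    (integrable_sq' hfx).bdd_mul hcont.aestronglyMeasurable (Eventually.of_forall hB)
  set c := moll b f x - f x with hc
  have hcint : c = ∫ t, b.normed volume t * (f (x - t) - f x) := by
    have : (fun t => b.normed volume t * (f (x - t) - f x)) =
        fun t => b.normed volume t * f (x - t) - b.normed volume t * f x := by ext t; ring
    rw [this, integral_sub I1 (I3.mul_const _), integral_mul_const, b.integral_normed]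
    simp [hc, moll]
  have I4 : Integrable (fun t => b.normed volume t * (f (x - t) - f x) ^ 2) volume := by
    have : (fun t => b.normed volume t * (f (x - t) - f x) ^ 2) =
        fun t => b.normed volume t * f (x - t) ^ 2 - 2 * f x * (b.normed volume t * f (x - t))
          + f x ^ 2 * b.normed volume t := by ext t; ring
    rw [this]
    exact (I2.sub (I1.const_mul _)).add (I3.const_mul _)
  have I5 : Integrable (fun t => b.normed volume t * (f (x - t) - f x)) volume := by
    have : (fun t => b.normed volume t * (f (x - t) - f x)) =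
        fun t => b.normed volume t * f (x - t) - b.normed volume t * f x := by ext t; ring
    rw [this]; exact I1.sub (I3.mul_const _)
  have key : c ^ 2 ≤ ∫ t, b.normed volume t * (f (x - t) - f x) ^ 2 := by
    have h0 : 0 ≤ ∫ t, b.normed volume t * ((f (x - t) - f x) - c) ^ 2 :=
      integral_nonneg (fun t => mul_nonneg (hρ0 t) (sq_nonneg _))
    have : (fun t => b.normed volume t * ((f (x - t) - f x) - c) ^ 2) =
        fun t => (b.normed volume t * (f (x - t) - f x) ^ 2 -
          2 * c * (b.normed volume t * (f (x - t) - f x))) + c ^ 2 * b.normed volume t := by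
      ext t; ring
    have I45 : Integrable (fun t => b.normed volume t * (f (x - t) - f x) ^ 2 -
          2 * c * (b.normed volume t * (f (x - t) - f x))) volume := I4.sub (I5.const_mul _)
    rw [this, integral_add I45 (I3.const_mul _),
      integral_sub I4 (I5.const_mul _), integral_const_mul, integral_const_mul, ← hcint,
      b.integral_normed] at h0
    nlinarith
  have e1 : ‖c‖ₑ ^ 2 = ENNReal.ofReal (c ^ 2) := by
    rw [← ofReal_norm, ← ENNReal.ofReal_pow (norm_nonneg _)]; simp
  rw [e1]
  refine (ENNReal.ofReal_le_ofReal key).trans (le_of_eq ?_)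
  rw [ofReal_integral_eq_lintegral_ofReal I4
    (Eventually.of_forall (fun t => mul_nonneg (hρ0 t) (sq_nonneg _)))]
  congr 1; ext t
  rw [ENNReal.ofReal_mul (hρ0 t)]
  congr 1
  rw [← ofReal_norm, ← ENNReal.ofReal_pow (norm_nonneg _)]; simp

lemma moll_close {f : V d → ℝ} (hf : MemLp f 2 volume) {ε : ℝ} (hε : 0 < ε) :
    ∃ δ > 0, ∀ b : ContDiffBump (0 : V d), b.rOut < δ →
      MemLp (moll b f) 2 volume ∧ ∫ x, (moll b f x - f x) ^ 2 ≤ ε := by
  obtain ⟨δ, hδ, h⟩ := translation_small hf hε
  refine ⟨δ, hδ, fun b hb => ?_⟩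
  have hsm := moll_contDiff b hf
  have h1 : ∫⁻ x, ‖moll b f x - f x‖ₑ ^ 2 ≤ ENNReal.ofReal ε := by
    calc ∫⁻ x, ‖moll b f x - f x‖ₑ ^ 2
        ≤ ∫⁻ x, ∫⁻ t, ENNReal.ofReal (b.normed volume t) * ‖f (x - t) - f x‖ₑ ^ 2 :=
          lintegral_mono (fun x => moll_sub_le b hf x)
      _ = ∫⁻ t, ∫⁻ x, ENNReal.ofReal (b.normed volume t) * ‖f (x - t) - f x‖ₑ ^ 2 := by
          apply lintegral_lintegral_swap
          have m1 : AEStronglyMeasurable (fun p : V d × V d => f (p.1 - p.2)) (volume.prod volume) :=
            hf.aestronglyMeasurable.comp_quasiMeasurePreserving (quasiMeasurePreserving_sub _ _)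
          have m2 : AEStronglyMeasurable (fun p : V d × V d => f p.1) (volume.prod volume) :=
            hf.aestronglyMeasurable.comp_fst
          have m3 : Measurable (fun p : V d × V d => ENNReal.ofReal (b.normed volume p.2)) := by
            have : Continuous (b.normed (volume : Measure (V d))) := b.continuous_normed
            fun_prop
          exact m3.aemeasurable.mul ((m1.sub m2).enorm.pow_const 2)
      _ ≤ ∫⁻ t, ENNReal.ofReal (b.normed volume t) * ENNReal.ofReal ε := by
          apply lintegral_mono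
          intro t
          simp only
          rw [lintegral_const_mul' _ _ ENNReal.ofReal_ne_top]
          by_cases ht : ‖t‖ < δ
          · exact mul_le_mul_right (h t ht) _
          · have : b.normed (volume : Measure (V d)) t = 0 := by
              have hs := b.support_normed_eq (μ := (volume : Measure (V d)))
              by_contra hne
              have : t ∈ Function.support (b.normed (volume : Measure (V d))) := hne
              rw [hs, Metric.mem_ball, dist_zero_right] at this
              linarith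
            simp [this]
      _ = ENNReal.ofReal ε := by
          rw [lintegral_mul_const' _ _ ENNReal.ofReal_ne_top,
            ← ofReal_integral_eq_lintegral_ofReal b.integrable_normed
              (Eventually.of_forall (fun t => b.nonneg_normed t)), b.integral_normed]
          simp
  have m0 : AEStronglyMeasurable (fun x => moll b f x - f x) volume :=
    hsm.continuous.aestronglyMeasurable.sub hf.aestronglyMeasurable
  have h2 : MemLp (fun x => moll b f x - f x) 2 volume := by
    refine ⟨m0, ?_⟩
    rw [eLpNorm_lt_top_iff_lintegral_rpow_enorm_lt_top (by simp) (by simp)]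
    simp only [ENNReal.toReal_ofNat, ENNReal.rpow_ofNat]
    exact h1.trans_lt ENNReal.ofReal_lt_top
  have h3 : MemLp (moll b f) 2 volume := by
    have := h2.add hf
    convert this using 1
    ext x; simp
  refine ⟨h3, ?_⟩
  have h4 := ofReal_integral_sq h2
  rw [← ENNReal.ofReal_le_ofReal_iff hε.le, h4]
  exact h1

/-- smooth functions are dense in `H¹` -/
lemma exists_smooth_close {u : V d → ℝ} {g : Fin d → V d → ℝ} (hu : IsH1 u g) {ε : ℝ} (hε : 0 < ε) :
    ∃ w : V d → ℝ, ContDiff ℝ ∞ w ∧ MemLp w 2 volume ∧ (∀ i, MemLp (pd i w) 2 volume) ∧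
      ∫ x, (w x - u x) ^ 2 ≤ ε ∧ ∀ i, ∫ x, (pd i w x - g i x) ^ 2 ≤ ε := by
  obtain ⟨δ, hδ, h⟩ := moll_close hu.memLp hε
  choose δ' hδ' h' using fun i => moll_close (hu.memLp_grad i) hε
  obtain ⟨r, hr, hr1, hr2⟩ : ∃ r > 0, r < δ ∧ ∀ i, r < δ' i := by
    have h1 : ∀ᶠ r in 𝓝[>] (0 : ℝ), r < δ := Filter.Eventually.filter_mono nhdsWithin_le_nhds (eventually_lt_nhds hδ)
    have h2 : ∀ᶠ r in 𝓝[>] (0 : ℝ), ∀ i, r < δ' i := by
      rw [eventually_all]
      intro i
      exact Filter.Eventually.filter_mono nhdsWithin_le_nhds (eventually_lt_nhds (hδ' i))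
    obtain ⟨r, ⟨h1, h2⟩, h3⟩ := ((h1.and h2).and self_mem_nhdsWithin).exists
    exact ⟨r, h3, h1, h2⟩
  let b : ContDiffBump (0 : V d) := ⟨r / 2, r, half_pos hr, half_lt_self hr⟩
  have e : ∀ i, pd i (moll b u) = moll b (g i) := fun i => by ext x; exact pd_moll b hu i x
  refine ⟨moll b u, moll_contDiff b hu.memLp, (h b hr1).1, fun i => ?_, (h b hr1).2, fun i => ?_⟩
  · rw [e i]; exact (h' i b (hr2 i)).1
  · rw [e i]; exact (h' i b (hr2 i)).2

end OptSet
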