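import Pool.Agent.Lib.MP_c499db_an.Geo2

open MeasureTheory Set Filter Topology
open scoped ENNReal ContDiff

namespace OptSet

variable {d : ℕ}

/-- uniform Faber–Krahn type bound -/
lemma fk_unif (hd : 0 < d) {B : ℝ} (hB : 0 ≤ B) : ∃ c : ℝ, 0 < c ∧ ∀ (u : V d → ℝ) (g : Fin d → V d → ℝ),
    IsH1 u g → volume {x | u x ≠ 0} ≤ ENNReal.ofReal B → c * mass u ≤ dir g := by
  set L : ℝ := 2 * B + 1 with hL
  have hL1 : 1 ≤ L := by linarith
  have hL0 : 0 < L := by linarith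
  have hd' : (0:ℝ) < d := by exact_mod_cast hd
  have hCP : (0:ℝ) < 2 * (d * 2 ^ d) * L ^ 2 := by positivity
  refine ⟨(2 * (d * 2 ^ d) * L ^ 2)⁻¹, inv_pos.2 hCP, fun u g hu hv => ?_⟩
  have hN : volume (toMeasurable volume {x | u x ≠ 0}) ≤ ENNReal.ofReal B := by
    rw [measure_toMeasurable]; exact hv
  have h1 : volume.real (toMeasurable volume {x | u x ≠ 0}) ≤ L ^ d / 2 := by
    rw [measureReal_def]
    have h2 := ENNReal.toReal_le_of_le_ofReal hB hN
    have h3 : L ≤ L ^ d := le_self_pow₀ hL1 hd.ne'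
    linarith
  have := hu.fk (measurableSet_toMeasurable volume {x | u x ≠ 0}) (hN.trans_lt ENNReal.ofReal_lt_top)
    (Eventually.of_forall (fun x hx => by
      by_contra hne
      exact hx (subset_toMeasurable _ _ hne))) hL0 h1
  rw [inv_mul_le_iff₀ hCP]
  exact this

lemma dil_strict {D Db X : Set (V d)} (hDb : Db ⊆ D) (c : V d) {Λ s x K : ℝ} (hK : 0 ≤ K)
    (hy : ∀ τ, 0 ≤ τ → τ ≤ 1 → volume ((ctr c τ) ⁻¹' Db \ Db) ≤ ENNReal.ofReal (K * τ))
    (hmin : ∀ v h, IsH1 v h → volume ({z | v z ≠ 0} \ D) ≤ ENNReal.ofReal s → Λ * mass v ≤ dir h)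
    (hx0 : 0 ≤ x) (hX : volume X ≤ ENNReal.ofReal x) (hxs : x < s)
    {v : V d → ℝ} {h : Fin d → V d → ℝ} (hv : IsH1 v h)
    (hsupp : ∀ᵐ z, v z ≠ 0 → z ∈ Db ∪ X) :
    ∃ τ : ℝ, 0 < τ ∧ (1 + τ) ^ 2 * Λ * mass v ≤ dir h := by
  set M : ℝ := 2 ^ d * x + K + 1 with hM
  have hM0 : 0 < M := by positivity
  set τ : ℝ := min 1 ((s - x) / M) with hτ
  have hτ0 : 0 < τ := lt_min one_pos (div_pos (by linarith) hM0)
  have hτ1 : τ ≤ 1 := min_le_left _ _
  have hτ2 : M * τ ≤ s - x := by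
    have : τ ≤ (s - x) / M := min_le_right _ _
    rw [le_div_iff₀ hM0] at this
    linarith
  refine ⟨τ, hτ0, dil hDb c hτ0.le hmin hx0 (mul_nonneg hK hτ0.le) hX (hy τ hτ0.le hτ1) ?_ hv hsupp⟩
  have h1 := one_add_pow_le d hτ0.le hτ1
  have h2 : (1 + τ) ^ d * x ≤ (1 + 2 ^ d * τ) * x := mul_le_mul_of_nonneg_right h1 hx0
  have h3 : M * τ = 2 ^ d * x * τ + K * τ + τ := by rw [hM]; ring
  nlinarith

lemma volume_diff_le {D Ω : Set (V d)} (hDm : MeasurableSet D) (hDf : volume D < ⊤) (hDΩ : D ⊆ Ω)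
    {s : ℝ} (hs : 0 ≤ s) (hΩ : volume Ω ≤ ENNReal.ofReal (volume.real D + s)) :
    volume (Ω \ D) ≤ ENNReal.ofReal s := by
  rw [measure_sdiff hDΩ hDm.nullMeasurableSet hDf.ne]
  rw [ENNReal.ofReal_add measureReal_nonneg hs, ofReal_measureReal hDf.ne] at hΩ
  exact tsub_le_iff_left.2 hΩ

lemma volume_eq_of_diff {D Ω : Set (V d)} (hDm : MeasurableSet D) (hDf : volume D < ⊤) (hDΩ : D ⊆ Ω)
    {s : ℝ} (hs : 0 ≤ s) (hΩ : volume (Ω \ D) = ENNReal.ofReal s) :
    volume Ω = ENNReal.ofReal (volume.real D + s) := by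
  rw [ENNReal.ofReal_add measureReal_nonneg hs, ofReal_measureReal hDf.ne, ← hΩ,
    ← measure_union' disjoint_sdiff_right hDm, union_sdiff_cancel hDΩ]

/-- a minimiser on the level of functions gives an optimal set -/
lemma optimal_of_min {D : Set (V d)} (hDm : MeasurableSet D) (hDf : volume D < ⊤) {s Λ : ℝ}
    (hs : 0 ≤ s) {u : V d → ℝ} {g : Fin d → V d → ℝ} (hu : IsH1 u g) (hm : 0 < mass u)
    (hle : dir g ≤ Λ * mass u)
    (hmin : ∀ v h, IsH1 v h → volume ({z | v z ≠ 0} \ D) ≤ ENNReal.ofReal s → Λ * mass v ≤ dir h)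
    {Ω : Set (V d)} (hΩ : QuasiOpen Ω) (hDΩ : D ⊆ Ω) (hvan : VanishesOutside Ω u)
    (hvol : volume (Ω \ D) = ENNReal.ofReal s) : IsOptimal D (volume.real D + s) Ω := by
  refine ⟨hΩ, hDΩ, volume_eq_of_diff hDm hDf hDΩ hs hvol, ?_⟩
  intro Ω' hΩ' hDΩ' hvol'
  have h1 : lam1 Ω ≤ ENNReal.ofReal Λ := by
    have hne : ¬ u =ᵐ[volume] 0 := by
      intro h0
      have : mass u = 0 := by
        unfold mass
        rw [integral_congr_ae (g := fun _ => (0:ℝ))]
        · simp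
        · filter_upwards [h0] with x hx; rw [hx]; simp
      linarith
    refine (iInf₂_le u g).trans ((iInf₂_le hu hvan).trans ((iInf_le _ hne).trans ?_))
    apply ENNReal.ofReal_le_ofReal
    rw [div_le_iff₀ hm]; exact hle
  refine h1.trans ?_
  refine le_iInf₂ (fun v h => le_iInf₂ (fun hv hvan' => le_iInf (fun hne => ?_)))
  apply ENNReal.ofReal_le_ofReal
  have hmv : 0 < mass v := by
    rcases (mass_nonneg v).eq_or_lt with h0 | h0
    · exfalso
      apply hne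
      have h2 : (fun x => v x ^ 2) =ᵐ[volume] 0 :=
        (integral_eq_zero_iff_of_nonneg (fun x => sq_nonneg _) hv.memLp.integrable_sq).1 h0.symm
      filter_upwards [h2] with x hx
      simpa using hx
    · exact h0
  rw [le_div_iff₀ hmv]
  apply hmin v h hv
  have h3 : volume ({z | v z ≠ 0} \ D) ≤ volume (Ω' \ D) := by
    apply measure_mono_ae
    filter_upwards [hvan'.ae] with x hx hx2
    refine ⟨?_, hx2.2⟩
    by_contra hne2
    exact hx2.1 (hx hne2)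
  exact h3.trans (volume_diff_le hDm hDf hDΩ' hs hvol')

/-- existence of optimal sets of measure `|D| + s` -/
theorem exists_optimal (hd : 0 < d) {D : Set (V d)} (hDo : IsOpen D) {R : ℝ} (hR : 0 < R)
    (hDR : D ⊆ Metric.closedBall (0 : V d) R) {L : ℝ} (hL : 0 < L) {s : ℝ} (hs0 : 0 < s)
    (hs : s ≤ L ^ d / 4)
    (hex : ∃ u g, IsH1 u g ∧ 0 < mass u ∧ volume ({x | u x ≠ 0} \ D) ≤ ENNReal.ofReal s ∧
      2 * (d * 2 ^ d) * L ^ 2 * dir g < mass u)
    (c : V d) {K : ℝ} (hK : 0 ≤ K)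
    (hy : ∀ τ, 0 ≤ τ → τ ≤ 1 → volume ((ctr c τ) ⁻¹' D \ D) ≤ ENNReal.ofReal (K * τ)) :
    ∃ Λ : ℝ, ∃ u g, ∃ Ω : Set (V d), 0 < Λ ∧ IsH1 u g ∧ 0 < mass u ∧
      volume ({x | u x ≠ 0} \ D) ≤ ENNReal.ofReal s ∧ dir g ≤ Λ * mass u ∧
      (∀ v h, IsH1 v h → volume ({x | v x ≠ 0} \ D) ≤ ENNReal.ofReal s → Λ * mass v ≤ dir h) ∧
      D ⊆ Ω ∧ VanishesOutside Ω u ∧ volume (Ω \ D) = ENNReal.ofReal s ∧
      IsOptimal D (volume.real D + s) Ω := by
  have hDm := hDo.measurableSet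
  have hDf : volume D < ⊤ := (measure_mono hDR).trans_lt measure_closedBall_lt_top
  obtain ⟨Λ, u, g, hu, hm, hv, hle, hmin⟩ := exists_minimiser hR hDR hL hs hex
  obtain ⟨Ω, hΩ, hDΩ, hvan, hvol⟩ := hu.exists_quasiOpen hDo
  have hΛ : 0 < Λ := by
    obtain ⟨c', hc', hfk⟩ := fk_unif hd (B := volume.real D + s) (by positivity)
    have h1 : volume {x | u x ≠ 0} ≤ ENNReal.ofReal (volume.real D + s) := by
      rw [ENNReal.ofReal_add measureReal_nonneg hs0.le, ofReal_measureReal hDf.ne]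
      have : {x | u x ≠ 0} ⊆ D ∪ ({x | u x ≠ 0} \ D) := by
        intro x hx
        by_cases h : x ∈ D
        · exact Or.inl h
        · exact Or.inr ⟨hx, h⟩
      exact (measure_mono this).trans ((measure_union_le _ _).trans (add_le_add le_rfl hv))
    have h2 := hfk u g hu h1
    by_contra hcon
    have h3 : Λ * mass u ≤ 0 := mul_nonpos_of_nonpos_of_nonneg (not_lt.1 hcon) hm.le
    have h4 : 0 < c' * mass u := mul_pos hc' hm
    linarith
  have hvol2 : volume (Ω \ D) = ENNReal.ofReal s := by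
    rw [hvol]
    by_contra hne
    have hlt : volume ({x | u x ≠ 0} \ D) < ENNReal.ofReal s := lt_of_le_of_ne hv hne
    set x := (volume ({x | u x ≠ 0} \ D)).toReal with hx
    have hfin : volume ({x | u x ≠ 0} \ D) ≠ ⊤ := hlt.ne_top
    have hxs : x < s := by
      rw [hx]
      exact (ENNReal.toReal_lt_of_lt_ofReal hlt)
    obtain ⟨τ, hτ, hτ2⟩ := dil_strict (le_refl D) c hK hy hmin (x := x) ENNReal.toReal_nonneg
      (by rw [hx, ENNReal.ofReal_toReal hfin]) hxs hu (Eventually.of_forall (fun z hz => by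
        by_cases h : z ∈ D
        · exact Or.inl h
        · exact Or.inr ⟨hz, h⟩))
    have h5 : 0 < Λ * mass u := mul_pos hΛ hm
    have h6 : (1 + τ) ^ 2 * (Λ * mass u) ≤ Λ * mass u := by
      calc (1 + τ) ^ 2 * (Λ * mass u) = (1 + τ) ^ 2 * Λ * mass u := by ring
        _ ≤ _ := hτ2.trans hle
    nlinarith [mul_pos h5 hτ]
  exact ⟨Λ, u, g, Ω, hΛ, hu, hm, hv, hle, hmin, hDΩ, hvan, hvol2,
    optimal_of_min hDm hDf hs0.le hu hm hle hmin hΩ hDΩ hvan hvol2⟩

/-- facts on an arbitrary optimal set -/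
theorem optimal_facts (hd : 0 < d) {D : Set (V d)} (hDo : IsOpen D) (hDf : volume D < ⊤) {s : ℝ}
    (hs : 0 ≤ s) {Ω : Set (V d)} (hΩ : IsOptimal D (volume.real D + s) Ω) {Λ₀ : ℝ}
    (hex : ∃ u g, IsH1 u g ∧ 0 < mass u ∧ volume ({x | u x ≠ 0} \ D) ≤ ENNReal.ofReal s ∧
      dir g ≤ Λ₀ * mass u) :
    ∃ Λ : ℝ, 0 < Λ ∧ Λ ≤ Λ₀ ∧
      (∀ v h, IsH1 v h → volume ({x | v x ≠ 0} \ D) ≤ ENNReal.ofReal s → Λ * mass v ≤ dir h) ∧
      volume (Ω \ D) ≤ ENNReal.ofReal s ∧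
      ∀ ε : ℝ, 0 < ε → ∃ u g, IsH1 u g ∧ mass u = 1 ∧ dir g ≤ Λ * (1 + ε) ∧
        ∀ᵐ x, u x ≠ 0 → x ∈ Ω := by
  have hDm := hDo.measurableSet
  have hle_of : ∀ v h, IsH1 v h → volume ({x | v x ≠ 0} \ D) ≤ ENNReal.ofReal s → 0 < mass v →
      lam1 Ω ≤ ENNReal.ofReal (dir h / mass v) := by
    intro v h hv hvv hm
    obtain ⟨Ω', hΩ', hDΩ', hvan, hvol⟩ := hv.exists_quasiOpen hDo
    have h1 : volume Ω' ≤ ENNReal.ofReal (volume.real D + s) := by
      rw [ENNReal.ofReal_add measureReal_nonneg hs, ofReal_measureReal hDf.ne]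
      have : Ω' ⊆ D ∪ (Ω' \ D) := by rw [union_sdiff_self]; exact subset_union_right
      refine (measure_mono this).trans ((measure_union_le _ _).trans (add_le_add le_rfl ?_))
      rw [hvol]; exact hvv
    refine (hΩ.minimal Ω' hΩ' hDΩ' h1).trans ?_
    have hne : ¬ v =ᵐ[volume] 0 := by
      intro h0
      have : mass v = 0 := by
        unfold mass
        rw [integral_congr_ae (g := fun _ => (0:ℝ))]
        · simp
        · filter_upwards [h0] with x hx; rw [hx]; simp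
      linarith
    exact (iInf₂_le v h).trans ((iInf₂_le hv hvan).trans (iInf_le _ hne))
  obtain ⟨u₀, g₀, hu₀, hm₀, hv₀, hle₀⟩ := hex
  have hfin : lam1 Ω ≠ ⊤ := ((hle_of _ _ hu₀ hv₀ hm₀).trans_lt ENNReal.ofReal_lt_top).ne
  have hvΩ : volume Ω ≤ ENNReal.ofReal (volume.real D + s) := hΩ.volume_eq.le
  obtain ⟨c', hc', hfk⟩ := fk_unif hd (B := volume.real D + s) (by positivity)
  have hpos' : ENNReal.ofReal c' ≤ lam1 Ω := by
    refine le_iInf₂ (fun v h => le_iInf₂ (fun hv hvan' => le_iInf (fun hne => ?_)))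
    apply ENNReal.ofReal_le_ofReal
    have hmv : 0 < mass v := by
      rcases (mass_nonneg v).eq_or_lt with h0 | h0
      · exfalso
        apply hne
        have h2 : (fun x => v x ^ 2) =ᵐ[volume] 0 :=
          (integral_eq_zero_iff_of_nonneg (fun x => sq_nonneg _) hv.memLp.integrable_sq).1 h0.symm
        filter_upwards [h2] with x hx
        simpa using hx
      · exact h0
    rw [le_div_iff₀ hmv]
    apply hfk v h hv
    refine le_trans ?_ hvΩ
    apply measure_mono_ae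
    filter_upwards [hvan'.ae] with x hx hx2
    by_contra hne2
    exact hx2 (hx hne2)
  refine ⟨(lam1 Ω).toReal, ?_, ?_, ?_, volume_diff_le hDm hDf hΩ.subset hs hvΩ, ?_⟩
  · exact ENNReal.toReal_pos ((lt_of_lt_of_le (ENNReal.ofReal_pos.2 hc') hpos').ne') hfin
  · have h1 := hle_of _ _ hu₀ hv₀ hm₀
    have h2 : dir g₀ / mass u₀ ≤ Λ₀ := by rw [div_le_iff₀ hm₀]; exact hle₀
    have h3 : (0:ℝ) ≤ dir g₀ / mass u₀ := div_nonneg (dir_nonneg _) hm₀.le
    exact (ENNReal.toReal_le_of_le_ofReal h3 h1).trans h2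
  · intro v h hv hvv
    rcases (mass_nonneg v).eq_or_lt with h0 | h0
    · rw [← h0, mul_zero]; exact dir_nonneg _
    · have h1 := ENNReal.toReal_le_of_le_ofReal (div_nonneg (dir_nonneg h) h0.le) (hle_of v h hv hvv h0)
      rwa [le_div_iff₀ h0] at h1
  · intro ε hε
    have hΛpos : 0 < (lam1 Ω).toReal :=
      ENNReal.toReal_pos ((lt_of_lt_of_le (ENNReal.ofReal_pos.2 hc') hpos').ne') hfin
    have hlt : lam1 Ω < ENNReal.ofReal ((lam1 Ω).toReal * (1 + ε)) := by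
      conv_lhs => rw [← ENNReal.ofReal_toReal hfin]
      rw [ENNReal.ofReal_lt_ofReal_iff (by positivity)]
      nlinarith
    unfold lam1 at hlt
    simp only [iInf_lt_iff] at hlt
    obtain ⟨u, g, hu, hvan, hne, hlt⟩ := hlt
    have hm : 0 < mass u := by
      rcases (mass_nonneg u).eq_or_lt with h0 | h0
      · exfalso
        apply hne
        have h2 : (fun x => u x ^ 2) =ᵐ[volume] 0 :=
          (integral_eq_zero_iff_of_nonneg (fun x => sq_nonneg _) hu.memLp.integrable_sq).1 h0.symm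
        filter_upwards [h2] with x hx
        simpa using hx
      · exact h0
    have hlt' : dir g / mass u < (lam1 Ω).toReal * (1 + ε) :=
      (ENNReal.ofReal_lt_ofReal_iff (by positivity)).1 hlt
    set c := (Real.sqrt (mass u))⁻¹ with hc
    have hcpos : 0 < c := inv_pos.2 (Real.sqrt_pos.2 hm)
    have hc2 : c ^ 2 = (mass u)⁻¹ := by rw [hc, inv_pow, Real.sq_sqrt hm.le]
    refine ⟨_, _, hu.const_mul c, ?_, ?_, ?_⟩
    · rw [mass_const_mul, hc2, inv_mul_cancel₀ hm.ne']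
    · rw [dir_const_mul, hc2, inv_mul_eq_div]; exact hlt'.le
    · filter_upwards [hvan.ae] with x hx hx2
      by_contra hne2
      exact hx2 (by rw [hx hne2, mul_zero])

end OptSet
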