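import Pool.Agent.Lib.MP_c499db_an.Moll

open MeasureTheory Set Filter Topology
open scoped ENNReal ContDiff

namespace OptSet

variable {d : ℕ}

lemma fderiv_apply_eq_sum (φ : V d → ℝ) (z v : V d) : fderiv ℝ φ z v = ∑ i, v i * pd i φ z := by
  conv_lhs => rw [pi_eq_sum_univ' v]
  rw [map_sum]
  apply Finset.sum_congr rfl
  intro i _
  rw [map_smul, smul_eq_mul]
  rfl

lemma cs_sum (v w : Fin d → ℝ) : (∑ i, v i * w i) ^ 2 ≤ (∑ i, v i ^ 2) * ∑ i, w i ^ 2 :=
  Finset.sum_mul_sq_le_sq_mul_sq _ _ _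

/-- squared gradient -/
noncomputable def gs (φ : V d → ℝ) (x : V d) : ℝ := ∑ i, pd i φ x ^ 2

lemma gs_nonneg (φ : V d → ℝ) (x : V d) : 0 ≤ gs φ x := Finset.sum_nonneg (fun _ _ => sq_nonneg _)

lemma gs_continuous {φ : V d → ℝ} (hφ : ContDiff ℝ ∞ φ) : Continuous (gs φ) := by
  unfold gs
  exact continuous_finsetSum _ (fun i _ => (contDiff_pd hφ i).continuous.pow 2)

lemma segment_bound {φ : V d → ℝ} (hφ : ContDiff ℝ ∞ φ) {L : ℝ} (x y : V d)
    (hL : ∀ i, |x i - y i| ≤ L) :
    (φ x - φ y) ^ 2 ≤ d * L ^ 2 * ∫ t in (0:ℝ)..1, gs φ (y + t • (x - y)) := by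
  set γ : ℝ → V d := fun t => y + t • (x - y) with hγ
  have hγd : ∀ t, HasDerivAt γ (x - y) t := by
    intro t
    have := ((hasDerivAt_id t).smul_const (x - y)).const_add y
    simpa [hγ] using this
  have hd : ∀ t, HasDerivAt (fun t => φ (γ t)) (fderiv ℝ φ (γ t) (x - y)) t := by
    intro t
    have h1 : HasFDerivAt φ (fderiv ℝ φ (γ t)) (γ t) :=
      ((hφ.differentiable (by simp)) _).hasFDerivAt
    exact h1.comp_hasDerivAt t (hγd t)
  have hcγ : Continuous γ := by fun_prop
  have hcont : Continuous (fun t => fderiv ℝ φ (γ t) (x - y)) := by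
    have : Continuous (fderiv ℝ φ) := hφ.continuous_fderiv (by simp)
    exact (this.comp hcγ).clm_apply continuous_const
  have hcontG : Continuous (fun t => gs φ (γ t)) := (gs_continuous hφ).comp hcγ
  have hint : ∫ t in (0:ℝ)..1, fderiv ℝ φ (γ t) (x - y) = φ x - φ y := by
    rw [intervalIntegral.integral_eq_sub_of_hasDerivAt (fun t _ => hd t)
      (hcont.intervalIntegrable _ _)]
    simp [hγ]
  set c := φ x - φ y with hc
  have h1 : c ^ 2 ≤ ∫ t in (0:ℝ)..1, (fderiv ℝ φ (γ t) (x - y)) ^ 2 := by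
    have h0 : 0 ≤ ∫ t in (0:ℝ)..1, (fderiv ℝ φ (γ t) (x - y) - c) ^ 2 :=
      intervalIntegral.integral_nonneg (by norm_num) (fun t _ => sq_nonneg _)
    have e : (fun t => (fderiv ℝ φ (γ t) (x - y) - c) ^ 2) =
        fun t => ((fderiv ℝ φ (γ t) (x - y)) ^ 2 - 2 * c * (fderiv ℝ φ (γ t) (x - y))) + c ^ 2 := by
      ext t; ring
    have c1 : Continuous (fun t => (fderiv ℝ φ (γ t) (x - y)) ^ 2) := hcont.pow 2
    have c2 : Continuous (fun t => 2 * c * (fderiv ℝ φ (γ t) (x - y))) := hcont.const_mul (2 * c)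
    have c3 : Continuous (fun t => (fderiv ℝ φ (γ t) (x - y)) ^ 2 -
      2 * c * (fderiv ℝ φ (γ t) (x - y))) := c1.sub c2
    rw [e, intervalIntegral.integral_add (c3.intervalIntegrable _ _)
      (continuous_const.intervalIntegrable _ _),
      intervalIntegral.integral_sub (c1.intervalIntegrable _ _) (c2.intervalIntegrable _ _),
      intervalIntegral.integral_const_mul, hint] at h0
    simp only [intervalIntegral.integral_const, sub_zero, one_smul] at h0
    nlinarith
  refine h1.trans ?_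
  rw [← intervalIntegral.integral_const_mul]
  have c1 : Continuous (fun t => (fderiv ℝ φ (γ t) (x - y)) ^ 2) := hcont.pow 2
  apply intervalIntegral.integral_mono_on (by norm_num) (c1.intervalIntegrable _ _)
    ((hcontG.const_mul _).intervalIntegrable _ _)
  intro t _
  rw [fderiv_apply_eq_sum]
  refine (cs_sum _ _).trans ?_
  have h2 : ∑ i, ((x - y) i) ^ 2 ≤ d * L ^ 2 := by
    calc ∑ i, ((x - y) i) ^ 2 ≤ ∑ _i : Fin d, L ^ 2 := by
          apply Finset.sum_le_sum
          intro i _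
          have := hL i
          rw [Pi.sub_apply, ← sq_abs]
          exact pow_le_pow_left₀ (abs_nonneg _) this 2
      _ = d * L ^ 2 := by simp
  exact mul_le_mul_of_nonneg_right h2 (gs_nonneg φ _)

lemma lintegral_affine (f : V d → ℝ≥0∞) (hf : Measurable f) (a : V d) {r : ℝ} (hr : 0 < r) :
    ∫⁻ x, f (a + r • x) = ENNReal.ofReal ((r ^ d)⁻¹) * ∫⁻ x, f x := by
  have h1 := (Measure.map_addHaar_smul (volume : Measure (V d)) hr.ne')
  have h2 : ∫⁻ x, f (a + x) ∂(Measure.map (fun x : V d => r • x) volume) = ∫⁻ x, f (a + r • x) := by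
    rw [lintegral_map (by fun_prop) (by fun_prop)]
  rw [← h2, h1, lintegral_smul_measure, lintegral_add_left_eq_self (fun x => f x) a]
  simp only [Module.finrank_fintype_fun_eq_card, Fintype.card_fin, smul_eq_mul]
  rw [abs_of_pos (by positivity)]

lemma measurable_gs {φ : V d → ℝ} (hφ : ContDiff ℝ ∞ φ) :
    Measurable (fun x => ENNReal.ofReal (gs φ x)) := by
  have := gs_continuous hφ
  fun_prop

/-- half of the Poincaré estimate -/
lemma half_estimate {φ : V d → ℝ} (hφ : ContDiff ℝ ∞ φ) {Q : Set (V d)} (hQm : MeasurableSet Q)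
    (hQc : Convex ℝ Q) {t : ℝ} (ht : 1 / 2 ≤ t) (ht1 : t ≤ 1) {y : V d} (hy : y ∈ Q) :
    ∫⁻ x in Q, ENNReal.ofReal (gs φ (y + t • (x - y))) ≤
      2 ^ d * ∫⁻ x in Q, ENNReal.ofReal (gs φ x) := by
  have ht0 : 0 < t := by linarith
  set G : V d → ℝ≥0∞ := Q.indicator (fun x => ENNReal.ofReal (gs φ x)) with hG
  have hGm : Measurable G := (measurable_gs hφ).indicator hQm
  have h1 : ∫⁻ x in Q, ENNReal.ofReal (gs φ (y + t • (x - y))) ≤ ∫⁻ x, G (((1 - t) • y) + t • x) := by
    rw [← lintegral_indicator hQm]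
    apply lintegral_mono
    intro x
    by_cases hx : x ∈ Q
    · simp only [indicator_of_mem hx]
      have e : (1 - t) • y + t • x = y + t • (x - y) := by
        rw [smul_sub, sub_smul, one_smul]; abel
      have hmem : (1 - t) • y + t • x ∈ Q := hQc hy hx (by linarith) ht0.le (by ring)
      rw [hG, indicator_of_mem hmem, e]
    · simp [indicator_of_notMem hx]
  refine h1.trans ?_
  rw [lintegral_affine G hGm _ ht0, hG, lintegral_indicator hQm]
  gcongr
  rw [show (2:ℝ≥0∞) ^ d = ENNReal.ofReal (2 ^ d) by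
    rw [ENNReal.ofReal_pow (by norm_num)]; simp]
  apply ENNReal.ofReal_le_ofReal
  rw [← inv_pow]
  apply pow_le_pow_left₀ (by positivity)
  rw [inv_le_comm₀ ht0 (by norm_num)]
  linarith

lemma smooth_poincare {φ : V d → ℝ} (hφ : ContDiff ℝ ∞ φ) {Q : Set (V d)} (hQm : MeasurableSet Q)
    (hQc : Convex ℝ Q) {L : ℝ} (hL : ∀ x ∈ Q, ∀ y ∈ Q, ∀ i, |x i - y i| ≤ L) :
    ∫⁻ x in Q, ∫⁻ y in Q, ENNReal.ofReal ((φ x - φ y) ^ 2) ≤
      ENNReal.ofReal (d * L ^ 2) * (2 ^ d * volume Q * ∫⁻ x in Q, ENNReal.ofReal (gs φ x)) := by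
  have hGc := gs_continuous hφ
  have s1 : ∀ x ∈ Q, ∀ y ∈ Q, ENNReal.ofReal ((φ x - φ y) ^ 2) ≤
      ENNReal.ofReal (d * L ^ 2) * ∫⁻ t in Ioc (0:ℝ) 1, ENNReal.ofReal (gs φ (y + t • (x - y))) := by
    intro x hx y hy
    have h := segment_bound hφ x y (hL x hx y hy)
    refine (ENNReal.ofReal_le_ofReal h).trans ?_
    rw [ENNReal.ofReal_mul (by positivity)]
    gcongr
    rw [intervalIntegral.integral_of_le (by norm_num)]
    rw [ofReal_integral_eq_lintegral_ofReal]
    · have : Continuous (fun t : ℝ => gs φ (y + t • (x - y))) := by fun_prop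
      exact (this.integrableOn_Icc).mono_set Ioc_subset_Icc_self
    · exact Eventually.of_forall (fun t => gs_nonneg φ _)
  have hF : Measurable (fun p : (V d × V d) × ℝ => ENNReal.ofReal (gs φ (p.1.2 + p.2 • (p.1.1 - p.1.2)))) := by
    fun_prop
  calc ∫⁻ x in Q, ∫⁻ y in Q, ENNReal.ofReal ((φ x - φ y) ^ 2)
      ≤ ∫⁻ x in Q, ∫⁻ y in Q, ENNReal.ofReal (d * L ^ 2) *
          ∫⁻ t in Ioc (0:ℝ) 1, ENNReal.ofReal (gs φ (y + t • (x - y))) := by
        apply setLIntegral_mono' hQm
        intro x hx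
        apply setLIntegral_mono' hQm
        intro y hy
        exact s1 x hx y hy
    _ = ENNReal.ofReal (d * L ^ 2) * ∫⁻ x in Q, ∫⁻ y in Q,
          ∫⁻ t in Ioc (0:ℝ) 1, ENNReal.ofReal (gs φ (y + t • (x - y))) := by
        rw [← lintegral_const_mul' _ _ ENNReal.ofReal_ne_top]
        congr 1; ext x
        rw [lintegral_const_mul' _ _ ENNReal.ofReal_ne_top]
    _ ≤ _ := by
        gcongr
        have w1 : ∫⁻ x in Q, ∫⁻ y in Q,
            ∫⁻ t in Ioc (0:ℝ) 1, ENNReal.ofReal (gs φ (y + t • (x - y))) =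
            ∫⁻ x in Q, ∫⁻ t in Ioc (0:ℝ) 1, ∫⁻ y in Q,
              ENNReal.ofReal (gs φ (y + t • (x - y))) := by
          congr 1; ext x
          apply lintegral_lintegral_swap
          apply Measurable.aemeasurable
          fun_prop
        have w2 : ∫⁻ x in Q, ∫⁻ t in Ioc (0:ℝ) 1, ∫⁻ y in Q,
              ENNReal.ofReal (gs φ (y + t • (x - y))) =
            ∫⁻ t in Ioc (0:ℝ) 1, ∫⁻ x in Q, ∫⁻ y in Q,
              ENNReal.ofReal (gs φ (y + t • (x - y))) := by
          apply lintegral_lintegral_swap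
          apply Measurable.aemeasurable
          have hF' : Measurable (fun p : (V d × ℝ) × V d =>
            ENNReal.ofReal (gs φ (p.2 + p.1.2 • (p.1.1 - p.2)))) := by fun_prop
          exact hF'.lintegral_prod_right'
        rw [w1, w2]
        have w3 : ∀ t ∈ Ioc (0:ℝ) 1, ∫⁻ x in Q, ∫⁻ y in Q,
              ENNReal.ofReal (gs φ (y + t • (x - y))) ≤
              2 ^ d * volume Q * ∫⁻ x in Q, ENNReal.ofReal (gs φ x) := by
          intro t ht
          by_cases ht2 : 1 / 2 ≤ t
          · rw [lintegral_lintegral_swap]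
            · calc _ ≤ ∫⁻ _y in Q, 2 ^ d * ∫⁻ x in Q, ENNReal.ofReal (gs φ x) := by
                    apply setLIntegral_mono' hQm
                    intro y hy
                    exact half_estimate hφ hQm hQc ht2 ht.2 hy
                _ = _ := by
                    rw [setLIntegral_const]
                    ring
            · apply Measurable.aemeasurable
              fun_prop
          · calc _ ≤ ∫⁻ _x in Q, 2 ^ d * ∫⁻ x in Q, ENNReal.ofReal (gs φ x) := by
                    apply setLIntegral_mono' hQm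
                    intro x hx
                    have := half_estimate hφ hQm hQc (t := 1 - t) (by linarith) (by linarith [ht.1]) hx
                    refine le_trans (le_of_eq ?_) this
                    congr 1; ext y
                    congr 2
                    rw [sub_smul, smul_sub, one_smul, smul_sub]
                    abel
                _ = _ := by
                    rw [setLIntegral_const]
                    ring
        calc _ ≤ ∫⁻ _t in Ioc (0:ℝ) 1, 2 ^ d * volume Q * ∫⁻ x in Q, ENNReal.ofReal (gs φ x) :=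
              setLIntegral_mono' measurableSet_Ioc w3
          _ = _ := by
              rw [setLIntegral_const]
              simp


section cs

variable {α : Type*} [MeasurableSpace α] {μ : Measure α}

lemma norm_toLp_sq' {f : α → ℝ} (hf : MemLp f 2 μ) : ‖hf.toLp f‖ ^ 2 = ∫ x, f x ^ 2 ∂μ := by
  rw [← real_inner_self_eq_norm_sq, L2.inner_def]
  apply integral_congr_ae
  filter_upwards [hf.coeFn_toLp] with x hx
  rw [hx]
  simp [pow_two]

lemma inner_toLp {f h : α → ℝ} (hf : MemLp f 2 μ) (hh : MemLp h 2 μ) :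
    inner ℝ (hf.toLp f) (hh.toLp h) = ∫ x, f x * h x ∂μ := by
  rw [L2.inner_def]
  apply integral_congr_ae
  filter_upwards [hf.coeFn_toLp, hh.coeFn_toLp] with x hx hx'
  rw [hx, hx']
  simp [mul_comm]

lemma cs_integral {f h : α → ℝ} (hf : MemLp f 2 μ) (hh : MemLp h 2 μ) :
    (∫ x, f x * h x ∂μ) ^ 2 ≤ (∫ x, f x ^ 2 ∂μ) * ∫ x, h x ^ 2 ∂μ := by
  rw [← inner_toLp hf hh, ← norm_toLp_sq' hf, ← norm_toLp_sq' hh, ← mul_pow]
  have := abs_real_inner_le_norm (hf.toLp f) (hh.toLp h)
  rw [← sq_abs]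
  exact pow_le_pow_left₀ (abs_nonneg _) this 2

end cs

lemma setIntegral_sq_mono {f : V d → ℝ} (hf : MemLp f 2 volume) (Q : Set (V d)) :
    ∫ x in Q, f x ^ 2 ≤ ∫ x, f x ^ 2 :=
  setIntegral_le_integral (integrable_sq' hf) (Eventually.of_forall (fun _ => sq_nonneg _))

lemma tendsto_setIntegral_sq {ι : Type*} {l : Filter ι} {w : ι → V d → ℝ} {u : V d → ℝ}
    (hw : ∀ n, MemLp (w n) 2 volume) (hu : MemLp u 2 volume) (Q : Set (V d))
    (h : Tendsto (fun n => ∫ x in Q, (w n x - u x) ^ 2) l (𝓝 0)) :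
    Tendsto (fun n => ∫ x in Q, w n x ^ 2) l (𝓝 (∫ x in Q, u x ^ 2)) := by
  have hwQ : ∀ n, MemLp (w n) 2 (volume.restrict Q) := fun n => (hw n).restrict Q
  have huQ : MemLp u 2 (volume.restrict Q) := hu.restrict Q
  have e : ∀ n, ∫ x in Q, w n x ^ 2 = (∫ x in Q, (w n x - u x) ^ 2) +
      2 * (∫ x in Q, (w n x - u x) * u x) + ∫ x in Q, u x ^ 2 := by
    intro n
    have i1 : Integrable (fun x => (w n x - u x) ^ 2) (volume.restrict Q) := ((hwQ n).sub huQ).integrable_sq
    have i2 : Integrable (fun x => (w n x - u x) * u x) (volume.restrict Q) :=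
      ((hwQ n).sub huQ).integrable_mul huQ
    have i3 : Integrable (fun x => u x ^ 2) (volume.restrict Q) := huQ.integrable_sq
    have i12 : Integrable (fun x => (w n x - u x) ^ 2 + 2 * ((w n x - u x) * u x)) (volume.restrict Q) :=
      i1.add (i2.const_mul 2)
    rw [← integral_const_mul, ← integral_add i1 (i2.const_mul 2), ← integral_add i12 i3]
    congr 1; ext x; ring
  have h2 : Tendsto (fun n => ∫ x in Q, (w n x - u x) * u x) l (𝓝 0) := by
    have h3 : Tendsto (fun n => (∫ x in Q, (w n x - u x) * u x) ^ 2) l (𝓝 0) := by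
      refine squeeze_zero (fun _ => sq_nonneg _)
        (fun n => cs_integral ((hwQ n).sub huQ) huQ) ?_
      have := h.mul_const (∫ x in Q, u x ^ 2)
      simpa using this
    have h4 := h3.sqrt
    simp only [Real.sqrt_sq_eq_abs, Real.sqrt_zero] at h4
    exact (tendsto_zero_iff_abs_tendsto_zero _).2 h4
  simp_rw [e]
  have := (h.add (h2.const_mul 2)).add_const (∫ x in Q, u x ^ 2)
  simpa using this

lemma tendsto_setIntegral {ι : Type*} {l : Filter ι} {w : ι → V d → ℝ} {u : V d → ℝ}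
    (hw : ∀ n, MemLp (w n) 2 volume) (hu : MemLp u 2 volume) {Q : Set (V d)} (hQ : volume Q < ⊤)
    (h : Tendsto (fun n => ∫ x in Q, (w n x - u x) ^ 2) l (𝓝 0)) :
    Tendsto (fun n => ∫ x in Q, w n x) l (𝓝 (∫ x in Q, u x)) := by
  have : IsFiniteMeasure (volume.restrict Q) := ⟨by simpa using hQ⟩
  have hwQ : ∀ n, MemLp (w n) 2 (volume.restrict Q) := fun n => (hw n).restrict Q
  have huQ : MemLp u 2 (volume.restrict Q) := hu.restrict Q
  have h1 : MemLp (fun _ : V d => (1:ℝ)) 2 (volume.restrict Q) := memLp_const 1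
  have h3 : Tendsto (fun n => (∫ x in Q, (w n x - u x) * 1) ^ 2) l (𝓝 0) := by
    refine squeeze_zero (fun _ => sq_nonneg _)
      (fun n => cs_integral ((hwQ n).sub huQ) h1) ?_
    have := h.mul_const (∫ x in Q, (1:ℝ) ^ 2)
    simpa using this
  have h4 := h3.sqrt
  simp only [Real.sqrt_sq_eq_abs, Real.sqrt_zero] at h4
  have h5 := (tendsto_zero_iff_abs_tendsto_zero _).2 h4
  have e : ∀ n, ∫ x in Q, w n x = (∫ x in Q, (w n x - u x) * 1) + ∫ x in Q, u x := by
    intro n
    have i1 : Integrable (fun x => (w n x - u x) * 1) (volume.restrict Q) :=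
      ((hwQ n).sub huQ).integrable_mul h1
    have i2 : Integrable u (volume.restrict Q) := huQ.integrable (by norm_num)
    rw [← integral_add i1 i2]
    congr 1; ext x; ring
  simp_rw [e]
  have := h5.add_const (∫ x in Q, u x)
  simpa using this

lemma smooth_poincare' {w : V d → ℝ} (hws : ContDiff ℝ ∞ w) (hw : MemLp w 2 volume)
    (hw' : ∀ i, MemLp (pd i w) 2 volume)
    {Q : Set (V d)} (hQm : MeasurableSet Q) (hQf : volume Q < ⊤)
    (hQc : Convex ℝ Q) {L : ℝ} (hL : ∀ x ∈ Q, ∀ y ∈ Q, ∀ i, |x i - y i| ≤ L) :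
    volume.real Q * ∫ x in Q, w x ^ 2 ≤ (∫ x in Q, w x) ^ 2 +
      d * L ^ 2 * 2 ^ d * volume.real Q * ∫ x in Q, ∑ i, pd i w x ^ 2 := by
  have : IsFiniteMeasure (volume.restrict Q) := ⟨by simpa using hQf⟩
  have hwQ : MemLp w 2 (volume.restrict Q) := hw.restrict Q
  have i1 : Integrable (fun x => w x ^ 2) (volume.restrict Q) := hwQ.integrable_sq
  have i2 : Integrable w (volume.restrict Q) := hwQ.integrable (by norm_num)
  have i3 : Integrable (fun x => gs w x) (volume.restrict Q) := by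
    unfold gs
    exact integrable_finsetSum _ (fun i _ => ((hw' i).restrict Q).integrable_sq)
  have h := smooth_poincare hws hQm hQc hL
  -- inner integral
  have e1 : ∀ x, ∫⁻ y in Q, ENNReal.ofReal ((w x - w y) ^ 2) =
      ENNReal.ofReal (volume.real Q * w x ^ 2 - 2 * w x * (∫ y in Q, w y) + ∫ y in Q, w y ^ 2) := by
    intro x
    have j : Integrable (fun y => (w x - w y) ^ 2) (volume.restrict Q) := by
      have : (fun y => (w x - w y) ^ 2) = fun y => (w x ^ 2 - 2 * w x * w y) + w y ^ 2 := by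
        ext y; ring
      rw [this]
      exact ((integrable_const _).sub (i2.const_mul _)).add i1
    rw [← ofReal_integral_eq_lintegral_ofReal j (Eventually.of_forall (fun _ => sq_nonneg _))]
    congr 1
    have : (fun y => (w x - w y) ^ 2) = fun y => (w x ^ 2 - 2 * w x * w y) + w y ^ 2 := by
      ext y; ring
    rw [this]
    have j1 : Integrable (fun y => w x ^ 2 - 2 * w x * w y) (volume.restrict Q) :=
      (integrable_const _).sub (i2.const_mul _)
    rw [integral_add j1 i1, integral_sub (integrable_const _) (i2.const_mul _), integral_const_mul]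
    simp
  simp_rw [e1] at h
  have j2 : Integrable (fun x => volume.real Q * w x ^ 2 - 2 * w x * (∫ y in Q, w y) +
      ∫ y in Q, w y ^ 2) (volume.restrict Q) := by
    have : (fun x => volume.real Q * w x ^ 2 - 2 * w x * (∫ y in Q, w y) + ∫ y in Q, w y ^ 2) =
      fun x => (volume.real Q * w x ^ 2 - (2 * (∫ y in Q, w y)) * w x) + ∫ y in Q, w y ^ 2 := by
      ext x; ring
    rw [this]
    exact ((i1.const_mul _).sub (i2.const_mul _)).add (integrable_const _)
  have e2 : ∫ x in Q, (volume.real Q * w x ^ 2 - 2 * w x * (∫ y in Q, w y) + ∫ y in Q, w y ^ 2) =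
      2 * (volume.real Q * ∫ x in Q, w x ^ 2) - 2 * (∫ x in Q, w x) ^ 2 := by
    have : (fun x => volume.real Q * w x ^ 2 - 2 * w x * (∫ y in Q, w y) + ∫ y in Q, w y ^ 2) =
      fun x => (volume.real Q * w x ^ 2 - (2 * (∫ y in Q, w y)) * w x) + ∫ y in Q, w y ^ 2 := by
      ext x; ring
    rw [this]
    have j1 : Integrable (fun x => volume.real Q * w x ^ 2 - (2 * (∫ y in Q, w y)) * w x)
      (volume.restrict Q) := (i1.const_mul _).sub (i2.const_mul _)
    rw [integral_add j1 (integrable_const _), integral_sub (i1.const_mul _) (i2.const_mul _),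
      integral_const_mul, integral_const_mul]
    simp
    ring
  have nn : ∀ x, 0 ≤ volume.real Q * w x ^ 2 - 2 * w x * (∫ y in Q, w y) + ∫ y in Q, w y ^ 2 := by
    intro x
    have hh := cs_integral hwQ (memLp_const (1:ℝ))
    simp only [mul_one, one_pow, integral_const, smul_eq_mul, measureReal_restrict_apply_univ] at hh
    by_cases h0 : volume.real Q = 0
    · rw [h0] at hh ⊢
      have h1 : ∫ y in Q, w y = 0 := by
        have : (∫ y in Q, w y) ^ 2 ≤ 0 := by simpa using hh
        nlinarith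
      rw [h1]
      have : 0 ≤ ∫ y in Q, w y ^ 2 := integral_nonneg (fun _ => sq_nonneg _)
      simpa using this
    · have hpos : 0 < volume.real Q := lt_of_le_of_ne measureReal_nonneg (Ne.symm h0)
      have : volume.real Q * (volume.real Q * w x ^ 2 - 2 * w x * (∫ y in Q, w y) +
          ∫ y in Q, w y ^ 2) = (volume.real Q * w x - ∫ y in Q, w y) ^ 2 +
          ((∫ y in Q, w y ^ 2) * volume.real Q - (∫ y in Q, w y) ^ 2) := by ring
      have h2 : 0 ≤ volume.real Q * (volume.real Q * w x ^ 2 - 2 * w x * (∫ y in Q, w y) +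
          ∫ y in Q, w y ^ 2) := by
        rw [this]
        have := sq_nonneg (volume.real Q * w x - ∫ y in Q, w y)
        linarith
      exact nonneg_of_mul_nonneg_right h2 hpos
  rw [← ofReal_integral_eq_lintegral_ofReal j2 (Eventually.of_forall nn), e2,
    ← ofReal_integral_eq_lintegral_ofReal i3 (Eventually.of_forall (fun x => gs_nonneg w x))] at h
  have hv : volume Q = ENNReal.ofReal (volume.real Q) := by
    rw [ofReal_measureReal hQf.ne]
  rw [hv, show (2:ℝ≥0∞) ^ d = ENNReal.ofReal (2 ^ d) by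
    rw [ENNReal.ofReal_pow (by norm_num)]; simp, ← ENNReal.ofReal_mul (by positivity),
    ← ENNReal.ofReal_mul (by positivity), ← ENNReal.ofReal_mul (by positivity),
    ENNReal.ofReal_le_ofReal_iff] at h
  · have h5 : 0 ≤ (d * L ^ 2) * (2 ^ d * volume.real Q * ∫ x in Q, gs w x) := by
      have : 0 ≤ ∫ x in Q, gs w x := integral_nonneg (fun x => gs_nonneg w x)
      positivity
    have h6 : ∫ x in Q, ∑ i, pd i w x ^ 2 = ∫ x in Q, gs w x := rfl
    rw [h6]
    nlinarith
  · have : 0 ≤ ∫ x in Q, gs w x := integral_nonneg (fun x => gs_nonneg w x)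
    positivity


/-- Poincaré inequality on convex sets for `H¹` functions. -/
lemma IsH1.poincare {u : V d → ℝ} {g : Fin d → V d → ℝ} (hu : IsH1 u g)
    {Q : Set (V d)} (hQm : MeasurableSet Q) (hQf : volume Q < ⊤)
    (hQc : Convex ℝ Q) {L : ℝ} (hL : ∀ x ∈ Q, ∀ y ∈ Q, ∀ i, |x i - y i| ≤ L) :
    volume.real Q * ∫ x in Q, u x ^ 2 ≤ (∫ x in Q, u x) ^ 2 +
      d * L ^ 2 * 2 ^ d * volume.real Q * ∫ x in Q, ∑ i, g i x ^ 2 := by
  choose w hws hw hw' hwu hwg using fun n : ℕ =>
    exists_smooth_close hu (ε := 1 / ((n : ℝ) + 1)) (by positivity)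
  have h0 : Tendsto (fun n : ℕ => 1 / ((n : ℝ) + 1)) atTop (𝓝 0) :=
    tendsto_one_div_add_atTop_nhds_zero_nat
  have t1 : Tendsto (fun n => ∫ x in Q, (w n x - u x) ^ 2) atTop (𝓝 0) := by
    refine squeeze_zero (fun _ => integral_nonneg (fun _ => sq_nonneg _)) (fun n => ?_) h0
    exact (setIntegral_sq_mono ((hw n).sub hu.memLp) Q).trans (hwu n)
  have t2 : ∀ i, Tendsto (fun n => ∫ x in Q, (pd i (w n) x - g i x) ^ 2) atTop (𝓝 0) := by
    intro i
    refine squeeze_zero (fun _ => integral_nonneg (fun _ => sq_nonneg _)) (fun n => ?_) h0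
    exact (setIntegral_sq_mono ((hw' n i).sub (hu.memLp_grad i)) Q).trans (hwg n i)
  have c1 := tendsto_setIntegral_sq hw hu.memLp Q t1
  have c2 := tendsto_setIntegral hw hu.memLp hQf t1
  have c3 : Tendsto (fun n => ∫ x in Q, ∑ i, pd i (w n) x ^ 2) atTop
      (𝓝 (∫ x in Q, ∑ i, g i x ^ 2)) := by
    have e1 : ∀ n, ∫ x in Q, ∑ i, pd i (w n) x ^ 2 = ∑ i, ∫ x in Q, pd i (w n) x ^ 2 := fun n =>
      integral_finsetSum _ (fun i _ => ((hw' n i).restrict Q).integrable_sq)
    have e2 : ∫ x in Q, ∑ i, g i x ^ 2 = ∑ i, ∫ x in Q, g i x ^ 2 :=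
      integral_finsetSum _ (fun i _ => ((hu.memLp_grad i).restrict Q).integrable_sq)
    simp_rw [e1, e2]
    exact tendsto_finsetSum _ (fun i _ => tendsto_setIntegral_sq (fun n => hw' n i)
      (hu.memLp_grad i) Q (t2 i))
  refine le_of_tendsto_of_tendsto (c1.const_mul _)
    ((c2.pow 2).add (c3.const_mul (d * L ^ 2 * 2 ^ d * volume.real Q))) ?_
  exact Eventually.of_forall (fun n => smooth_poincare' (hws n) (hw n) (hw' n) hQm hQf hQc hL)

/-- Poincaré inequality when `u` vanishes on a large part of `Q`. -/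
lemma IsH1.poincare_zero {u : V d → ℝ} {g : Fin d → V d → ℝ} (hu : IsH1 u g)
    {Q : Set (V d)} (hQm : MeasurableSet Q) (hQf : volume Q < ⊤)
    (hQc : Convex ℝ Q) {L : ℝ} (hL : ∀ x ∈ Q, ∀ y ∈ Q, ∀ i, |x i - y i| ≤ L)
    {N : Set (V d)} (hN : ∀ᵐ x, x ∈ Q → x ∉ N → u x = 0) (hNm : MeasurableSet N) {β : ℝ}
    (hβ : volume.real (N ∩ Q) ≤ volume.real Q - β) :
    β * ∫ x in Q, u x ^ 2 ≤
      d * L ^ 2 * 2 ^ d * volume.real Q * ∫ x in Q, ∑ i, g i x ^ 2 := by
  have h := hu.poincare hQm hQf hQc hL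
  have : IsFiniteMeasure (volume.restrict Q) := ⟨by simpa using hQf⟩
  have e1 : ∫ x in Q, u x = ∫ x in Q, u x * N.indicator (fun _ => (1:ℝ)) x := by
    apply integral_congr_ae
    have := (ae_restrict_iff' hQm).2 hN
    filter_upwards [this] with x hx
    by_cases hxN : x ∈ N
    · simp [hxN]
    · simp [hxN, hx hxN]
  have m1 : MemLp (N.indicator (fun _ => (1:ℝ))) 2 (volume.restrict Q) :=
    (memLp_const 1).indicator hNm
  have e2 := cs_integral (hu.memLp.restrict Q) m1
  have e3 : ∫ x in Q, (N.indicator (fun _ => (1:ℝ)) x) ^ 2 = volume.real (N ∩ Q) := by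
    have : ∀ x, (N.indicator (fun _ => (1:ℝ)) x) ^ 2 = N.indicator (fun _ => (1:ℝ)) x := by
      intro x
      by_cases hxN : x ∈ N <;> simp [hxN]
    simp_rw [this]
    rw [integral_indicator hNm]
    simp [measureReal_def, Measure.restrict_restrict hNm]
  rw [e3, ← e1] at e2
  have nn : 0 ≤ ∫ x in Q, u x ^ 2 := integral_nonneg (fun _ => sq_nonneg _)
  nlinarith [mul_le_mul_of_nonneg_left hβ nn]

end OptSet
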