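import Pool.Agent.Lib.MP_c499db_an.Defs

open MeasureTheory Set Filter Topology
open scoped ENNReal ContDiff

namespace OptSet

variable {d : ℕ}

lemma contDiff_pd {φ : V d → ℝ} (hφ : ContDiff ℝ ∞ φ) (i : Fin d) : ContDiff ℝ ∞ (pd i φ) := by
  unfold pd
  exact (hφ.fderiv_right (m := ∞) (by simp)).clm_apply contDiff_const

lemma hasCompactSupport_pd {φ : V d → ℝ} (hφ : HasCompactSupport φ) (i : Fin d) :
    HasCompactSupport (pd i φ) := by
  unfold pd
  exact hφ.fderiv_apply (𝕜 := ℝ) _

lemma memLp_test {φ : V d → ℝ} (hφ : ContDiff ℝ ∞ φ) (hc : HasCompactSupport φ) :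
    MemLp φ 2 volume :=
  hφ.continuous.memLp_of_hasCompactSupport hc

lemma integrable_mul {f g : V d → ℝ} (hf : MemLp f 2 volume) (hg : MemLp g 2 volume) :
    Integrable (fun x => f x * g x) volume := by
  exact hf.integrable_mul hg

lemma integrable_sq' {f : V d → ℝ} (hf : MemLp f 2 volume) :
    Integrable (fun x => f x ^ 2) volume := hf.integrable_sq

lemma memLp_bdd_mul {f ψ : V d → ℝ} (hf : MemLp f 2 volume) (hψ : Continuous ψ) {B : ℝ}
    (hB : ∀ x, |ψ x| ≤ B) : MemLp (fun x => ψ x * f x) 2 volume := by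
  refine hf.of_le_mul (c := B) (hψ.aestronglyMeasurable.mul hf.aestronglyMeasurable)
    (Eventually.of_forall (fun x => ?_))
  simp only [Pi.mul_apply, norm_mul, Real.norm_eq_abs]
  exact mul_le_mul_of_nonneg_right (hB x) (abs_nonneg _)

lemma IsH1.add {u v : V d → ℝ} {g h : Fin d → V d → ℝ} (hu : IsH1 u g) (hv : IsH1 v h) :
    IsH1 (fun x => u x + v x) (fun i x => g i x + h i x) where
  memLp := hu.memLp.add hv.memLp
  memLp_grad i := (hu.memLp_grad i).add (hv.memLp_grad i)
  weak φ hφ hc i := by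
    have h1 := hu.weak φ hφ hc i
    have h2 := hv.weak φ hφ hc i
    have m1 := memLp_test (contDiff_pd hφ i) (hasCompactSupport_pd hc i)
    have m2 := memLp_test hφ hc
    simp only [add_mul]
    rw [integral_add (integrable_mul hu.memLp m1) (integrable_mul hv.memLp m1),
      integral_add (integrable_mul (hu.memLp_grad i) m2) (integrable_mul (hv.memLp_grad i) m2),
      h1, h2]
    ring

lemma IsH1.const_mul {u : V d → ℝ} {g : Fin d → V d → ℝ} (hu : IsH1 u g) (c : ℝ) :
    IsH1 (fun x => c * u x) (fun i x => c * g i x) where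
  memLp := hu.memLp.const_mul c
  memLp_grad i := (hu.memLp_grad i).const_mul c
  weak φ hφ hc i := by
    have h1 := hu.weak φ hφ hc i
    simp only [mul_assoc]
    rw [integral_const_mul, integral_const_mul, h1]
    ring

lemma IsH1.sub {u v : V d → ℝ} {g h : Fin d → V d → ℝ} (hu : IsH1 u g) (hv : IsH1 v h) :
    IsH1 (fun x => u x - v x) (fun i x => g i x - h i x) := by
  have := hu.add (hv.const_mul (-1))
  convert this using 2 <;> ring_nf

lemma IsH1.zero : IsH1 (d := d) (fun _ => 0) (fun _ _ => 0) where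
  memLp := MemLp.zero
  memLp_grad i := MemLp.zero
  weak φ hφ hc i := by simp

lemma pd_mul {φ ψ : V d → ℝ} (hφ : ContDiff ℝ ∞ φ) (hψ : ContDiff ℝ ∞ ψ) (i : Fin d) (x : V d) :
    pd i (fun x => ψ x * φ x) x = ψ x * pd i φ x + φ x * pd i ψ x := by
  unfold pd
  have h1 : DifferentiableAt ℝ φ x := (hφ.differentiable (by simp)) x
  have h2 : DifferentiableAt ℝ ψ x := (hψ.differentiable (by simp)) x
  rw [fderiv_fun_mul h2 h1]
  simp

/-- multiplication by a smooth function which is bounded with bounded derivatives -/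
lemma IsH1.mul_smooth {u : V d → ℝ} {g : Fin d → V d → ℝ} (hu : IsH1 u g) {ψ : V d → ℝ}
    (hψ : ContDiff ℝ ∞ ψ) {B : ℝ} (hB : ∀ x, |ψ x| ≤ B) (hB' : ∀ i x, |pd i ψ x| ≤ B) :
    IsH1 (fun x => ψ x * u x) (fun i x => ψ x * g i x + pd i ψ x * u x) where
  memLp := memLp_bdd_mul hu.memLp hψ.continuous hB
  memLp_grad i := (memLp_bdd_mul (hu.memLp_grad i) hψ.continuous hB).add
    (memLp_bdd_mul hu.memLp (contDiff_pd hψ i).continuous (hB' i))
  weak φ hφ hc i := by
    have h1 := hu.weak (fun x => ψ x * φ x) (hψ.mul hφ) (hc.mul_left) i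
    simp only [pd_mul hφ hψ] at h1
    have m1 := memLp_test (contDiff_pd hφ i) (hasCompactSupport_pd hc i)
    have m2 := memLp_test hφ hc
    have i1 := integrable_mul (memLp_bdd_mul hu.memLp hψ.continuous hB) m1
    have i2 := integrable_mul (memLp_bdd_mul hu.memLp (contDiff_pd hψ i).continuous (hB' i)) m2
    have i3 := integrable_mul (memLp_bdd_mul (hu.memLp_grad i) hψ.continuous hB) m2
    have e1 : ∫ x, u x * (ψ x * pd i φ x + φ x * pd i ψ x) =
        (∫ x, (ψ x * u x) * pd i φ x) + ∫ x, (pd i ψ x * u x) * φ x := by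
      rw [← integral_add i1 i2]
      congr 1; ext x; ring
    have e2 : ∫ x, (ψ x * g i x + pd i ψ x * u x) * φ x =
        (∫ x, (ψ x * g i x) * φ x) + ∫ x, (pd i ψ x * u x) * φ x := by
      rw [← integral_add i3 i2]
      congr 1; ext x; ring
    have e3 : ∫ x, g i x * (ψ x * φ x) = ∫ x, (ψ x * g i x) * φ x := by
      congr 1; ext x; ring
    rw [e1, e3] at h1
    rw [e2]
    linarith

lemma integral_affine (f : V d → ℝ) (a : V d) {r : ℝ} (hr : 0 < r) :
    ∫ x, f (a + r • x) = (r ^ d)⁻¹ * ∫ x, f x := by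
  have h := Measure.integral_comp_smul (volume : Measure (V d)) (fun x => f (a + x)) r
  simp only [Module.finrank_fintype_fun_eq_card, Fintype.card_fin, smul_eq_mul] at h
  rw [h, integral_add_left_eq_self (fun x => f x) a]
  rw [abs_of_pos (by positivity)]

lemma memLp_affine {f : V d → ℝ} (hf : MemLp f 2 volume) (a : V d) {r : ℝ} (hr : 0 < r) :
    MemLp (fun x => f (a + r • x)) 2 volume := by
  have h1 : MemLp (fun x => f (a + x)) 2 volume := by
    have := hf.comp_measurePreserving (measurePreserving_add_left volume a)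
    exact this
  have h2 := (Measure.map_addHaar_smul (volume : Measure (V d)) hr.ne')
  refine MemLp.comp_of_map (g := fun x => f (a + x)) (f := fun x => r • x) ?_ (by fun_prop)
  rw [h2]
  exact h1.smul_measure (by simp)

lemma pd_affine {φ : V d → ℝ} (hφ : ContDiff ℝ ∞ φ) (a : V d) (r : ℝ) (i : Fin d) (x : V d) :
    pd i (fun x => φ (a + r • x)) x = r * pd i φ (a + r • x) := by
  unfold pd
  have h1 : HasFDerivAt φ (fderiv ℝ φ (a + r • x)) (a + r • x) :=
    ((hφ.differentiable (by simp)) _).hasFDerivAt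
  have h2 : HasFDerivAt (fun x : V d => a + r • x) (r • ContinuousLinearMap.id ℝ (V d)) x := by
    have := ((hasFDerivAt_id (𝕜 := ℝ) x).const_smul r).const_add a
    exact this
  have h3 := h1.comp x h2
  have : (fun x => φ (a + r • x)) = φ ∘ (fun x => a + r • x) := rfl
  rw [this, h3.fderiv]
  simp

/-- dilation and translation -/
lemma IsH1.affine {u : V d → ℝ} {g : Fin d → V d → ℝ} (hu : IsH1 u g) (a : V d) {r : ℝ}
    (hr : 0 < r) : IsH1 (fun x => u (a + r • x)) (fun i x => r * g i (a + r • x)) where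
  memLp := memLp_affine hu.memLp a hr
  memLp_grad i := (memLp_affine (hu.memLp_grad i) a hr).const_mul r
  weak φ hφ hc i := by
    -- test function for u: φ (r⁻¹ • (y - a))
    set Φ : V d → ℝ := fun y => φ (-(r⁻¹ • a) + r⁻¹ • y) with hΦ
    have hΦs : ContDiff ℝ ∞ Φ := by
      apply hφ.comp
      fun_prop
    have hΦc : HasCompactSupport Φ := by
      have hh : IsHomeomorph (fun y : V d => -(r⁻¹ • a) + r⁻¹ • y) :=
        ((Homeomorph.smulOfNeZero (r⁻¹) (inv_ne_zero hr.ne')).trans
          (Homeomorph.addLeft (-(r⁻¹ • a)))).isHomeomorph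
      exact hc.comp_isClosedEmbedding hh.isClosedEmbedding
    have key := hu.weak Φ hΦs hΦc i
    have e0 : ∀ x : V d, -(r⁻¹ • a) + r⁻¹ • (a + r • x) = x := by
      intro x
      rw [smul_add, smul_smul, inv_mul_cancel₀ hr.ne', one_smul]
      abel
    have e1 := integral_affine (fun y => u y * pd i Φ y) a hr
    have e2 := integral_affine (fun y => g i y * Φ y) a hr
    simp only [hΦ, pd_affine hφ, e0] at e1 e2 key
    have e3 : ∫ x, u (a + r • x) * (r⁻¹ * pd i φ x) = r⁻¹ * ∫ x, u (a + r • x) * pd i φ x := by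
      rw [← integral_const_mul]; congr 1; ext x; ring
    rw [e3] at e1
    have e4 : ∫ x, r * g i (a + r • x) * φ x = r * ∫ x, g i (a + r • x) * φ x := by
      rw [← integral_const_mul]; congr 1; ext x; ring
    rw [e4, e2]
    have : ∫ x, u (a + r • x) * pd i φ x = r * ((r ^ d)⁻¹ * ∫ (y : V d),
        u y * (r⁻¹ * pd i φ (-(r⁻¹ • a) + r⁻¹ • y))) := by
      rw [← e1, ← mul_assoc, mul_inv_cancel₀ hr.ne', one_mul]
    rw [this, key]
    ring

lemma mass_affine (u : V d → ℝ) (a : V d) {r : ℝ} (hr : 0 < r) :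
    mass (fun x => u (a + r • x)) = (r ^ d)⁻¹ * mass u :=
  integral_affine (fun x => u x ^ 2) a hr

lemma dir_affine (g : Fin d → V d → ℝ) (a : V d) {r : ℝ} (hr : 0 < r) :
    dir (fun i x => r * g i (a + r • x)) = r ^ 2 * ((r ^ d)⁻¹ * dir g) := by
  unfold dir
  have := integral_affine (fun x => ∑ i, g i x ^ 2) a hr
  rw [← this, ← integral_const_mul]
  congr 1; ext x
  rw [Finset.mul_sum]
  exact Finset.sum_congr rfl (fun i _ => by ring)

lemma mass_nonneg (u : V d → ℝ) : 0 ≤ mass u := integral_nonneg (fun x => sq_nonneg _)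

lemma dir_nonneg (g : Fin d → V d → ℝ) : 0 ≤ dir g :=
  integral_nonneg (fun x => Finset.sum_nonneg (fun i _ => sq_nonneg _))

end OptSet
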